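import Pool.Agent.Q175.NF.Core

/-!
# Definability of valuations from a bound for the number of incomparable valuations, continued
-/

set_option autoImplicit false

open FirstOrder FirstOrder.Ring

namespace Pool.Agent.Q175.NF

section

variable {α : Type} {E : ∀ (K : Type) [Field K], (α → K) → Set K}
  {p : ∀ (K : Type) [Field K], (α → K) → K} {t : ∀ (K : Type) [Field K], (α → K) → K → K}

/-- The hypothesis on `t`: no `x` is such that `x⁻¹` is small at one valuation ring and `t x` is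
small at another one, if both are close to a third one. -/
def HT (E : ∀ (K : Type) [Field K], (α → K) → Set K)
    (p : ∀ (K : Type) [Field K], (α → K) → K) (t : ∀ (K : Type) [Field K], (α → K) → K → K)
    (K : Type) [Field K] (v : α → K) : Prop :=
  ∀ Q ∈ VV E p K v, ∀ O ∈ VV E p K v, ∀ O' ∈ VV E p K v, ¬ Inc (p K v) Q O →
    ¬ Inc (p K v) O' Q → ∀ x, x ≠ 0 → O.valuation x⁻¹ < 1 → ¬ O'.valuation (t K v x) < 1

theorem VMax.ee {r : ℕ} {K : Type} [Field K] [CompatibleRing K] {v : α → K}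
    (h : VMax E p r K v) {K' : Type} [Field K'] [CompatibleRing K'] {v' : α → K'}
    (h1 : Language.ring.ElementarilyEquivalent K K') (h2 : EE v v') : VMax E p r K' v' :=
  fun K'' _ _ v'' h3 h4 => h K'' v'' (h1.trans h3) (h2.trans h4)

theorem NX_mono {r : ℕ} {i : Fin r} {K : Type} [Field K] {v : α → K}
    {y : (Fin r × Fin r) × Bool → K} {z : K} {n m : ℕ} (h : n ≤ m) (hn : NX E p i K v y z n) :
    NX E p i K v y z m := NC_mono h hn

variable (hE : UDS α E) (hp : UT α p)
  (ht : UT (α ⊕ Unit) (fun K _ w => t K (fun a => w (Sum.inl a)) (w (Sum.inr ()))))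

include hE hp ht

theorem exists_NX {K : Type} [Field K] [CompatibleRing K] {v : α → K} (hp0 : p K v ≠ 0) {r : ℕ}
    (hmax : VMax E p (r + 1) K v)
    (hHT : ∀ (K' : Type) [Field K'] (v' : α → K'), EE v v' → HT E p t K' v')
    {y : (Fin r × Fin r) × Bool → K} (hy : Gd E p r K v y) (i : Fin r) :
    ∃ n, ∀ x x', x * x' = 1 → NX E p i K v y x' n ∨ NX E p i K v y (t K v x) n := by
  by_contra hcon
  push Not at hcon
  choose x x' hx h1 h2 using hcon
  obtain ⟨K', _, _, v', w', hee, hEE, hw⟩ := comp_par (α := α)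
    (β := ((Fin r × Fin r) × Bool) ⊕ Unit ⊕ Unit) K v
    (fun n => Sum.elim y (Sum.elim (fun _ => x n) (fun _ => x' n)))
  set y' : (Fin r × Fin r) × Bool → K' := fun b => w' (Sum.inl b) with hy'
  set X : K' := w' (Sum.inr (Sum.inl ())) with hX
  set X' : K' := w' (Sum.inr (Sum.inr ())) with hX'
  have hp0' : p K' v' ≠ 0 := by
    have := (hEE (fun K _ v => p K v = 0) (UD.eq hp UT.zero)).not
    exact this.mp hp0
  have hXX : X * X' = 1 := by
    refine hw (fun K _ _ w => w (Sum.inr (Sum.inl ())) * w (Sum.inr (Sum.inr ())) = 1) ?_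
      ⟨0, fun n _ => hx n⟩
    exact UD.eq ((UT.var _).mul (UT.var _)) UT.one
  have hg : Gd E p r K' v' y' := by
    constructor
    · intro a b hab
      refine hw (fun K _ v w => p K v * w (Sum.inl ((a, b), false)) *
        (p K v * w (Sum.inl ((a, b), true))) = 1) ?_ ⟨0, fun n _ => hy.1 a b hab⟩
      exact UD.eq (((hp.comp Sum.inl).mul (UT.var _)).mul
        ((hp.comp Sum.inl).mul (UT.var _))) UT.one
    · intro a m
      refine hw (fun K _ v w => ¬ NC (E K v ∪ Set.range (Jp p a K v (fun b => w (Sum.inl b))))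
        (Jp p a K v (fun b => w (Sum.inl b))) m) ?_ ⟨0, fun n _ => hy.2 a m⟩
      have h3 : ∀ s : Unit ⊕ (Fin r × Bool), UT (α ⊕ (((Fin r × Fin r) × Bool) ⊕ Unit ⊕ Unit))
          (fun K _ w => Jp p a K (fun a => w (Sum.inl a)) (fun b => w (Sum.inr (Sum.inl b))) s) :=
        fun s => (UT_Jp hp a s).comp (Sum.elim Sum.inl (fun b => Sum.inr (Sum.inl b)))
      exact (UD_NC (UDS.union (hE.comp fun a => UT.var _) (UDS_range h3)) h3 m).not
  have hn1 : ∀ n, ¬ NX E p i K' v' y' X' n := by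
    intro m
    refine hw (fun K _ v w => ¬ NX E p i K v (fun b => w (Sum.inl b))
      (w (Sum.inr (Sum.inr ()))) m) ?_ ⟨m, fun n hn h => h1 n (NX_mono hn h)⟩
    exact (UD_NX hE hp i m (g := fun a K _ w => w (Sum.inl a)) (fun a => UT.var _)
      (h := fun b K _ w => w (Sum.inr (Sum.inl b))) (fun b => UT.var _) (UT.var _)).not
  have hn2 : ∀ n, ¬ NX E p i K' v' y' (t K' v' X) n := by
    intro m
    refine hw (fun K _ v w => ¬ NX E p i K v (fun b => w (Sum.inl b))
      (t K v (w (Sum.inr (Sum.inl ())))) m) ?_ ⟨m, fun n hn h => h2 n (NX_mono hn h)⟩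
    exact (UD_NX hE hp i m (g := fun a K _ w => w (Sum.inl a)) (fun a => UT.var _)
      (h := fun b K _ w => w (Sum.inr (Sum.inl b))) (fun b => UT.var _)
      (ht.comp (Sum.elim Sum.inl (fun _ => Sum.inr (Sum.inr (Sum.inl ())))))).not
  obtain ⟨Q, hQ, hQ2⟩ := star2 E p hp0' (hmax K' v' hee hEE) hg
  have hch : ∀ z : K', (∀ n, ¬ NX E p i K' v' y' z n) →
      ∃ O ∈ VV E p K' v', O.valuation z < 1 ∧ ¬ Inc (p K' v') (Q i) O := by
    intro z hz
    obtain ⟨O, hO1, hO2⟩ := chev
      (S := E K' v' ∪ Set.range (Sum.elim (Jw p i K' v' y') (fun _ : Unit => z)))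
      (J := Sum.elim (Jw p i K' v' y') (fun _ : Unit => z)) (fun s => Or.inr ⟨s, rfl⟩) hz
    have hO3 : ∀ s, O.valuation (Jw p i K' v' y' s) < 1 := fun s => hO2 (Sum.inl s)
    have hO : O ∈ VV E p K' v' := ⟨fun x hx => hO1 x (Or.inl hx), hO3 (Sum.inl ())⟩
    obtain ⟨l, h3, h4, h5⟩ := hQ2 O hO
    rw [← h5 i hO3] at h3
    exact ⟨O, hO, hO2 (Sum.inr ()), h3⟩
  obtain ⟨O, hO1, hO2, hO3⟩ := hch X' hn1
  obtain ⟨O', hO1', hO2', hO3'⟩ := hch (t K' v' X) hn2
  have hX0 : X ≠ 0 := left_ne_zero_of_mul_eq_one hXX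
  have hXi : X' = X⁻¹ := (inv_eq_of_mul_eq_one_right hXX).symm
  rw [hXi] at hO2
  exact hHT K' v' hEE (Q i) (hQ i) O hO1 O' hO1' hO3 (fun h => hO3' h.symm) X hX0 hO2 hO2'

theorem exists_fin1 {K : Type} [Field K] [CompatibleRing K] {v : α → K} (hp0 : p K v ≠ 0) {r : ℕ}
    (hmax : VMax E p (r + 1) K v)
    (hHT : ∀ (K' : Type) [Field K'] (v' : α → K'), EE v v' → HT E p t K' v')
    {y : (Fin r × Fin r) × Bool → K} (hy : Gd E p r K v y) :
    ∃ n, Fin1 E p t r n K v y := by
  classical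
  choose n hn using exists_NX hE hp ht hp0 hmax hHT hy
  have hZ : ∀ s : {s : Fin r → Fin r × Bool // ∀ i, (s i).1 ≠ i}, ∃ n, NZ E p s.1 K v y n := by
    intro s
    by_contra hcon
    push Not at hcon
    obtain ⟨O, hO1, hO2⟩ := chev
      (S := E K v ∪ Set.range (Sum.elim (fun _ : Unit => p K v)
        (fun i => Jz p i K v y (s.1 i))))
      (J := fun _ : Unit => p K v) (fun s => Or.inr ⟨Sum.inl s, rfl⟩) hcon
    have hO : O ∈ VV E p K v := ⟨fun x hx => hO1 x (Or.inl hx), hO2 ()⟩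
    obtain ⟨Q, -, hQ2⟩ := star2 E p hp0 (hmax K v rfl (EE.refl v)) hy
    obtain ⟨l, -, h4, -⟩ := hQ2 O hO
    have h5 : Jz p l K v y (s.1 l) ∈ O := hO1 _ (Or.inr ⟨Sum.inr l, rfl⟩)
    have h6 := s.2 l
    have hval : ∀ a b : K, a * b = 1 → a ∈ O → O.valuation b < 1 → False := by
      intro a b hab ha hb
      have h7 : O.valuation (a * b) < 1 := by
        rw [map_mul]
        exact mul_lt_one_of_nonneg_of_lt_one_right
          ((ValuationSubring.valuation_le_one_iff _ _).mpr ha) zero_le hb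
      rw [hab, map_one] at h7
      exact lt_irrefl _ h7
    rcases hs : s.1 l with ⟨j, _ | _⟩
    · rw [hs] at h5 h6
      have h7 := h4 (Sum.inr (j, false))
      simp only [Jw, h6, if_false] at h7
      refine hval _ _ ?_ h5 h7
      simp only [Jz]
      rw [mul_comm]
      exact hy.1 l j (Ne.symm h6)
    · rw [hs] at h5 h6
      have h7 := h4 (Sum.inr (j, true))
      simp only [Jw, h6, if_false] at h7
      refine hval _ _ ?_ h5 h7
      exact hy.1 j l h6
  choose m hm using hZ
  refine ⟨∑ i, n i + ∑ s, m s, hy.1, fun s => ?_, fun i x x' hxx => ?_⟩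
  · refine NC_mono ?_ (hm s)
    have := Finset.single_le_sum (f := m) (fun _ _ => Nat.zero_le _) (Finset.mem_univ s)
    omega
  · have h1 : n i ≤ ∑ i, n i + ∑ s, m s := by
      have := Finset.single_le_sum (f := n) (fun _ _ => Nat.zero_le _) (Finset.mem_univ i)
      omega
    rcases hn i x x' hxx with h | h
    · exact Or.inl (NX_mono h1 h)
    · exact Or.inr (NX_mono h1 h)

/-- The main theorem of this section. -/
theorem definable_of_bound [Finite α] {K : Type} [Field K] [CompatibleRing K] {v : α → K}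
    (hp0 : p K v ≠ 0) (hbd : ∃ N, VMax E p N K v)
    (hHT : ∀ (K' : Type) [Field K'] (v' : α → K'), EE v v' → HT E p t K' v') :
    ∀ V ∈ VV E p K v, ∃ S : Set K, IsDefinable S ∧ (∀ x ∈ S, x ∈ V) ∧
      ∀ x, x ∉ S → ¬ V.valuation (t K v x) < 1 := by
  classical
  obtain ⟨r, hmax, K', _, _, v', hee, hEE, O, hO1, hO2⟩ := exists_vmax E p hbd
  have hp0' : p K' v' ≠ 0 := by
    have := (hEE (fun K _ v => p K v = 0) (UD.eq hp UT.zero)).not
    exact this.mp hp0
  obtain ⟨y', hy'⟩ := exists_gd E p hp0' hO1 hO2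
  obtain ⟨n, hn⟩ := exists_fin1 hE hp ht hp0' (hmax.ee hee hEE)
    (fun K'' _ v'' h => hHT K'' v'' (hEE.trans h)) hy'
  have hy : ∃ y, Fin1 E p t r n K v y :=
    (hEE (fun K _ v => ∃ y, Fin1 E p t r n K v y) (UD.ex (UD_Fin1 hE hp ht r n))).mpr ⟨y', hn⟩
  obtain ⟨y, h1, h2, h3⟩ := hy
  intro V hV
  have hinv : ∀ a b : K, a * b = 1 → ¬ V.valuation a < 1 → b ∈ V := by
    intro a b hab ha
    rw [← ValuationSubring.valuation_le_one_iff]
    push Not at ha
    have h4 : V.valuation a * V.valuation b = 1 := by rw [← map_mul, hab, map_one]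
    by_contra hcon
    push Not at hcon
    have : 1 < V.valuation a * V.valuation b := one_lt_mul_of_le_of_lt ha hcon
    rw [h4] at this
    exact lt_irrefl _ this
  have hi : ∃ i, ∀ s, V.valuation (Jw p i K v y s) < 1 := by
    by_contra hcon
    push Not at hcon
    choose s hs using hcon
    have h4 : ∀ i, ∃ u : Fin r × Bool, u.1 ≠ i ∧ Jz p i K v y u ∈ V := by
      intro i
      have h5 := hs i
      rcases hsi : s i with _ | ⟨j, _ | _⟩
      · rw [hsi] at h5
        exact absurd hV.2 (not_lt.mpr h5)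
      · rw [hsi] at h5
        have h6 : j ≠ i := by
          rintro rfl
          simp only [Jw, if_true] at h5
          exact absurd hV.2 (not_lt.mpr h5)
        simp only [Jw, h6, if_false] at h5
        exact ⟨(j, false), h6, hinv _ _ (h1 i j (Ne.symm h6)) (not_lt.mpr h5)⟩
      · rw [hsi] at h5
        have h6 : j ≠ i := by
          rintro rfl
          simp only [Jw, if_true] at h5
          exact absurd hV.2 (not_lt.mpr h5)
        simp only [Jw, h6, if_false] at h5
        refine ⟨(j, true), h6, hinv _ _ ?_ (not_lt.mpr h5)⟩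
        rw [mul_comm]
        exact h1 j i h6
    choose u hu1 hu2 using h4
    refine not_NC (O := V) ?_ (fun _ => hV.2) n (h2 ⟨u, hu1⟩)
    rintro z (hz | ⟨a, rfl⟩)
    · exact hV.1 z hz
    · rcases a with _ | i
      · exact (ValuationSubring.valuation_le_one_iff _ _).mp hV.2.le
      · exact hu2 i
  obtain ⟨i, hi⟩ := hi
  have hno : ∀ z, V.valuation z < 1 → ¬ NX E p i K v y z n := by
    intro z hz
    have h4 : ∀ s, V.valuation (Sum.elim (Jw p i K v y) (fun _ : Unit => z) s) < 1 := by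
      rintro (s | _)
      · exact hi s
      · exact hz
    refine not_NC (O := V) ?_ h4 n
    rintro a (ha | ⟨s, rfl⟩)
    · exact hV.1 a ha
    · exact (ValuationSubring.valuation_le_one_iff _ _).mp (h4 s).le
  have hS : UDS (α ⊕ ((Fin r × Fin r) × Bool)) (fun K _ w =>
      {x | ∀ x', x * x' = 1 → NX E p i K (fun a => w (Sum.inl a)) (fun b => w (Sum.inr b)) x' n}) := by
    apply UD.all1
    refine UD.imp (UD.eq ((UT.var (Sum.inl (Sum.inr ()))).mul (UT.var (Sum.inr ()))) UT.one) ?_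
    exact UD_NX hE hp i n (g := fun a K _ w => w (Sum.inl (Sum.inl (Sum.inl a))))
      (fun a => UT.var _) (h := fun b K _ w => w (Sum.inl (Sum.inl (Sum.inr b))))
      (fun b => UT.var _) (UT.var (Sum.inr ()))
  have hdef := isDefinable_of_UDS hS (Sum.elim v y)
  refine ⟨{x | ∀ x', x * x' = 1 → NX E p i K v y x' n}, hdef, fun x hx => ?_, fun x hx hlt => ?_⟩
  · by_contra hxV
    have hx0 : x ≠ 0 := by
      rintro rfl
      exact hxV V.zero_mem
    refine hno x⁻¹ ?_ (hx x⁻¹ (mul_inv_cancel₀ hx0))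
    have h4 : 1 < V.valuation x := by
      by_contra hcon
      push Not at hcon
      exact hxV ((ValuationSubring.valuation_le_one_iff _ _).mp hcon)
    rw [map_inv₀]
    exact inv_lt_one_of_one_lt₀ h4
  · apply hx
    intro x' hxx
    rcases h3 i x x' hxx with h | h
    · exact h
    · exact absurd h (hno _ hlt)

end

end Pool.Agent.Q175.NF
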