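import Pool.Agent.Q175.NF.Ord
import Pool.Agent.W882.Nip3.Main3

/-!
# Boundedness of the number of separated orderings, from the theorem on places
-/

set_option autoImplicit false

namespace Pool.Agent.Q175.NF

open Pool.Agent.W882.Nip3

theorem not_dimLeOne_real : ¬ DimLeOneUpTo ℝ 2 := by
  intro h
  have h1 := h ℝ inferInstance inferInstance (by simp) ℂ inferInstance inferInstance
    (by rw [Complex.finrank_real_complex])
  obtain ⟨z, hz⟩ := h1 (-1)
  rw [Algebra.norm_complex_apply] at hz
  have := Complex.normSq_nonneg z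
  linarith

section

variable (K : Type) [Field K] [LinearOrder K] [IsStrictOrderedRing K]

/-- The residue map of the natural place of an ordered field. -/
noncomputable def resMap : (ArchimedeanClass.addValuation K).toValuation.valuationSubring →+* ℝ where
  toFun x := ArchimedeanClass.stdPart x.1
  map_one' := ArchimedeanClass.stdPart_one
  map_zero' := ArchimedeanClass.stdPart_zero
  map_add' x y := ArchimedeanClass.stdPart_add x.2 y.2
  map_mul' x y := ArchimedeanClass.stdPart_mul x.2 y.2

/-- The natural place of an ordered field. -/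
noncomputable def natPlace : Place K where
  O := (ArchimedeanClass.addValuation K).toValuation.valuationSubring
  F := ℝ
  normedField := inferInstance
  complete := inferInstance
  res := resMap K
  isUnit_of_res_ne_zero x hx := by
    have h1 : ArchimedeanClass.mk x.1 = 0 := by
      by_contra h2
      exact hx (ArchimedeanClass.stdPart_eq_zero.mpr h2)
    exact (ArchimedeanClass.FiniteElement.isUnit_iff_mk_eq_zero (x := x)).mpr h1
  denseRange := by
    have h1 : Set.range ((↑) : ℚ → ℝ) ⊆ Set.range (resMap K) := by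
      rintro _ ⟨q, rfl⟩
      exact ⟨⟨(q : K), ArchimedeanClass.mk_ratCast_nonneg q⟩, ArchimedeanClass.stdPart_ratCast q⟩
    exact (Rat.denseRange_cast (𝕜 := ℝ)).mono h1

variable {K}

theorem natPlace_small {x : K} (h : 0 ≤ 1 - 4 * x ^ 2) : (natPlace K).Small x := by
  have h1 : |2 * x| ≤ 1 := abs_le_one_iff_mul_self_le_one.mpr (by nlinarith)
  have h2 : |x| ≤ 1 := by
    rw [abs_mul, abs_two] at h1
    have := abs_nonneg x
    linarith
  have hfin : ∀ z : K, |z| ≤ 1 → 0 ≤ ArchimedeanClass.mk z := by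
    intro z hz
    have := ArchimedeanClass.mk_le_mk_of_abs (a := z) (b := 1) (by simpa using hz)
    rwa [ArchimedeanClass.mk_one] at this
  refine ⟨hfin x h2, ?_⟩
  show ‖ArchimedeanClass.stdPart x‖ < 1
  have hle : ∀ z : K, z ≤ 1 → 0 ≤ ArchimedeanClass.mk z → ArchimedeanClass.stdPart z ≤ 1 := by
    intro z hz hz0
    have := ArchimedeanClass.stdPart_monotoneOn (K := K) (a := z) (b := 1) hz0
      (by simp) hz
    rwa [ArchimedeanClass.stdPart_one] at this
  have h3 : ArchimedeanClass.stdPart (2 * x) = 2 * ArchimedeanClass.stdPart x := by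
    rw [ArchimedeanClass.stdPart_mul (by simp)
      (hfin x h2)]
    congr 1
    exact ArchimedeanClass.stdPart_ofNat 2
  have h4 := hle (2 * x) (abs_le.mp h1).2 (hfin _ h1)
  have h5 := hle (-(2 * x)) (by linarith [(abs_le.mp h1).1]) (hfin _ (by rwa [abs_neg]))
  rw [ArchimedeanClass.stdPart_neg, h3] at h5
  rw [h3] at h4
  rw [Real.norm_eq_abs, abs_lt]
  constructor <;> linarith

end

theorem IsOrd.exists_place {K : Type} [Field K] {P : Set K} (h : IsOrd P) :
    ∃ π : Place K, (∀ x, 1 - 4 * x ^ 2 ∈ P → π.Small x) ∧ ¬ DimLeOneUpTo π.F 2 := by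
  obtain ⟨_, _, h1⟩ := h.exists_lo
  refine ⟨natPlace K, fun x hx => natPlace_small ((h1 _).mp hx), ?_⟩
  exact not_dimLeOne_real

/-- The hypothesis on `K`: NIP, or `NIP_n` for some `n`, or `NTP2`. -/
def Tame (K : Type) [Field K] [FirstOrder.Ring.CompatibleRing K] : Prop :=
  NIPField K ∨ (∃ n, NIPnField n K) ∨ NTP2Field K

theorem bound {K : Type} [Field K] [FirstOrder.Ring.CompatibleRing K] (hK : Tame K) :
    ∃ N : ℕ, ∀ (K' : Type) [Field K'] [FirstOrder.Ring.CompatibleRing K'],
      FirstOrder.Language.ring.ElementarilyEquivalent K K' →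
      ∀ P : Fin N → Set K', (∀ i, IsOrd (P i)) → ¬ Pairwise fun i j => Sep (P i) (P j) := by
  obtain ⟨N, hN⟩ := main_general (fun e d => boundedG_of_tame hK e d) 2
  refine ⟨N, fun K' _ _ hKK' P hP hpw => ?_⟩
  choose π hπ1 hπ2 using fun i => (hP i).exists_place
  obtain ⟨i, hi⟩ := hN K' hKK' π (by
    intro i j hij
    obtain ⟨x, h1, h2⟩ := hpw hij
    have hx : x ≠ 0 := by
      rintro rfl
      obtain ⟨_, _, h3⟩ := (hP j).exists_lo
      rw [h3] at h2
      norm_num at h2
    refine ⟨x, hx, hπ1 i x h1, hπ1 j _ ?_⟩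
    have := (hP j).mul _ h2 _ ((hP j).sq x⁻¹)
    have e : (x ^ 2 - 4) * x⁻¹ ^ 2 = 1 - 4 * x⁻¹ ^ 2 := by field_simp
    rwa [e] at this)
  exact hπ2 i hi

theorem exists_max {K : Type} [Field K] [FirstOrder.Ring.CompatibleRing K] (hK : Tame K) :
    ∃ r : ℕ, (∃ (K' : Type) (_ : Field K') (_ : FirstOrder.Ring.CompatibleRing K'),
      FirstOrder.Language.ring.ElementarilyEquivalent K K' ∧
      ∃ P : Fin r → Set K', (∀ i, IsOrd (P i)) ∧ Pairwise fun i j => Sep (P i) (P j)) ∧
      ∀ (K' : Type) [Field K'] [FirstOrder.Ring.CompatibleRing K'],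
      FirstOrder.Language.ring.ElementarilyEquivalent K K' →
      ∀ P : Fin (r + 1) → Set K', (∀ i, IsOrd (P i)) →
        ¬ Pairwise fun i j => Sep (P i) (P j) := by
  classical
  have hb := bound hK
  set N := Nat.find hb with hN
  have h1 := Nat.find_spec hb
  rw [← hN] at h1
  have h0 : N ≠ 0 := by
    intro h0
    rw [h0] at h1
    exact h1 K rfl (fun i => i.elim0)
      (fun i => i.elim0) (fun i => i.elim0)
  obtain ⟨r, hr⟩ := Nat.exists_eq_succ_of_ne_zero h0
  have h2 := Nat.find_min hb (m := r) (by omega)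
  rw [hr] at h1
  refine ⟨r, ?_, h1⟩
  push Not at h2
  obtain ⟨K', i1, i2, h3, P, h4, h5⟩ := h2
  exact ⟨K', i1, i2, h3, P, h4, h5⟩

end Pool.Agent.Q175.NF
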