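import Pool.Agent.TH686.NF.Compl

/-!
# The place with values in a complete field given by a valuation ring and a nonunit
-/

set_option autoImplicit false

open NNReal

namespace Pool.Agent.Q175.NF

section

variable {Γ : Type} [LinearOrderedCommGroupWithZero Γ] (γ : Γ)

/-- The lower bounds of the form `m / n` for the logarithm of `g` in base `γ`. -/
def LB (g : Γ) : Set ℝ := {q | ∃ (m : ℤ) (n : ℕ), 0 < n ∧ q = m / n ∧ g ^ n ≤ γ ^ m}

/-- `g` is bounded. -/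
def Bd (g : Γ) : Prop := ∃ k : ℕ, g ≤ γ ^ (-(k : ℤ))

/-- `g` is infinitesimal. -/
def Zr (g : Γ) : Prop := ∀ k : ℕ, g ≤ γ ^ (k : ℤ)

open Classical in
/-- The logarithm of `g` in base `γ`. -/
noncomputable def nu (g : Γ) : ℝ := sSup (LB γ g)

open Classical in
/-- The real size of `g`. -/
noncomputable def hh (g : Γ) : ℝ≥0 := if Zr γ g then 0 else (2 : ℝ≥0) ^ (-nu γ g)

variable {γ} (h0 : 0 < γ) (h1 : γ < 1)

include h0 h1

theorem zpow_anti {m n : ℤ} : γ ^ m ≤ γ ^ n ↔ n ≤ m := by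
  constructor
  · intro h
    by_contra hcon
    push Not at hcon
    have : γ ^ n < γ ^ m := zpow_lt_zpow_right_of_lt_one₀ h0 h1 hcon
    exact absurd h (not_le.mpr this)
  · intro h
    exact zpow_le_zpow_right_of_le_one₀ h0 h1.le h

theorem cmp_aux {g : Γ} {m m' : ℤ} {n n' : ℕ} (hn : 0 < n) (hn' : 0 < n')
    (h : γ ^ m ≤ g ^ n) (h' : g ^ n' ≤ γ ^ m') : (m' : ℝ) / n' ≤ m / n := by
  have h2 : γ ^ (m * n') ≤ γ ^ (m' * n) := by
    calc γ ^ (m * n') = (γ ^ m) ^ n' := by rw [zpow_mul, zpow_natCast]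
      _ ≤ (g ^ n) ^ n' := by gcongr
      _ = (g ^ n') ^ n := by rw [← pow_mul, ← pow_mul, mul_comm]
      _ ≤ (γ ^ m') ^ n := by gcongr
      _ = γ ^ (m' * n) := by rw [zpow_mul, zpow_natCast]
  rw [zpow_anti h0 h1] at h2
  rw [div_le_div_iff₀ (by exact_mod_cast hn') (by exact_mod_cast hn)]
  exact_mod_cast h2

omit h0 h1 in
theorem exists_low {g : Γ} (hg : ¬ Zr γ g) : ∃ k : ℕ, γ ^ (k : ℤ) < g := by
  simp only [Zr] at hg
  push Not at hg
  exact hg

theorem LB_bdd {g : Γ} (hg : ¬ Zr γ g) : BddAbove (LB γ g) := by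
  obtain ⟨k, hk⟩ := exists_low hg
  refine ⟨(k : ℤ) / (1 : ℕ), ?_⟩
  rintro q ⟨m, n, hn, rfl, h⟩
  exact cmp_aux h0 h1 one_pos hn (by rw [pow_one]; exact hk.le) h

theorem le_nu {g : Γ} (hg : ¬ Zr γ g) {m : ℤ} {n : ℕ} (hn : 0 < n) (h : g ^ n ≤ γ ^ m) :
    (m : ℝ) / n ≤ nu γ g := le_csSup (LB_bdd h0 h1 hg) ⟨m, n, hn, rfl, h⟩

theorem nu_le {g : Γ} (hb : Bd γ g) {m : ℤ} {n : ℕ} (hn : 0 < n)
    (h : γ ^ m ≤ g ^ n) : nu γ g ≤ (m : ℝ) / n := by
  refine csSup_le ?_ ?_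
  · obtain ⟨k, hk⟩ := hb
    exact ⟨_, -(k : ℤ), 1, one_pos, rfl, by rwa [pow_one]⟩
  · rintro q ⟨m', n', hn', rfl, h'⟩
    exact cmp_aux h0 h1 hn hn' h h'

theorem nu_anti {g g' : Γ} (hg : ¬ Zr γ g) (hb' : Bd γ g') (h : g ≤ g') : nu γ g' ≤ nu γ g := by
  refine csSup_le ?_ ?_
  · obtain ⟨k, hk⟩ := hb'
    exact ⟨_, -(k : ℤ), 1, one_pos, rfl, by rwa [pow_one]⟩
  · rintro q ⟨m', n', hn', rfl, h'⟩
    exact le_nu h0 h1 hg hn' ((pow_le_pow_left' h n').trans h')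

theorem exists_approx {g : Γ} (hb : Bd γ g) (hg : ¬ Zr γ g) (n : ℕ) :
    ∃ m : ℤ, γ ^ (m + 1) ≤ g ^ n ∧ g ^ n ≤ γ ^ m := by
  obtain ⟨k, hk⟩ := exists_low hg
  obtain ⟨l, hl⟩ := hb
  obtain ⟨m, hm1, hm2⟩ := Int.exists_greatest_of_bdd (P := fun m : ℤ => g ^ n ≤ γ ^ m)
    ⟨k * n, fun m hm => by
      have h2 : γ ^ ((k : ℤ) * n) ≤ γ ^ m := by
        calc γ ^ ((k : ℤ) * n) = (γ ^ (k : ℤ)) ^ n := by rw [zpow_mul, zpow_natCast]
          _ ≤ g ^ n := by gcongr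
          _ ≤ γ ^ m := hm
      exact (zpow_anti h0 h1).mp h2⟩
    ⟨-(l : ℤ) * n, by
      calc g ^ n ≤ (γ ^ (-(l : ℤ))) ^ n := by gcongr
        _ = γ ^ (-(l : ℤ) * n) := by rw [zpow_mul, zpow_natCast]⟩
  refine ⟨m, ?_, hm1⟩
  by_contra hcon
  push Not at hcon
  have := hm2 (m + 1) hcon.le
  omega

omit h1 in
theorem Zr_mul {g g' : Γ} (hg : Zr γ g) (hb : Bd γ g') : Zr γ (g * g') := by
  intro k
  obtain ⟨l, hl⟩ := hb
  calc g * g' ≤ γ ^ ((k + l : ℕ) : ℤ) * γ ^ (-(l : ℤ)) := mul_le_mul' (hg (k + l)) hl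
    _ = γ ^ (k : ℤ) := by
      rw [← zpow_add₀ h0.ne']
      congr 1
      push_cast
      ring

theorem not_Zr_mul {g g' : Γ} (hg : ¬ Zr γ g) (hg' : ¬ Zr γ g') : ¬ Zr γ (g * g') := by
  intro h
  obtain ⟨k, hk⟩ := exists_low hg
  obtain ⟨l, hl⟩ := exists_low hg'
  have h2 : γ ^ (k : ℤ) * γ ^ (l : ℤ) ≤ g * g' := mul_le_mul' hk.le hl.le
  have h3 := h2.trans (h (k + l + 1))
  rw [← zpow_add₀ h0.ne', zpow_anti h0 h1] at h3
  push_cast at h3
  omega

omit h1 in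
theorem Bd_mul {g g' : Γ} (hb : Bd γ g) (hb' : Bd γ g') : Bd γ (g * g') := by
  obtain ⟨k, hk⟩ := hb
  obtain ⟨l, hl⟩ := hb'
  refine ⟨k + l, ?_⟩
  calc g * g' ≤ γ ^ (-(k : ℤ)) * γ ^ (-(l : ℤ)) := mul_le_mul' hk hl
    _ = γ ^ (-((k + l : ℕ) : ℤ)) := by
      rw [← zpow_add₀ h0.ne']
      congr 1
      push_cast
      ring

theorem nu_mul {g g' : Γ} (hb : Bd γ g) (hg : ¬ Zr γ g) (hb' : Bd γ g') (hg' : ¬ Zr γ g') :
    nu γ (g * g') = nu γ g + nu γ g' := by
  have key : ∀ n : ℕ, 0 < n → |nu γ (g * g') - (nu γ g + nu γ g')| ≤ 2 / n := by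
    intro n hn
    have hn' : (0 : ℝ) < n := by exact_mod_cast hn
    obtain ⟨m, hm1, hm2⟩ := exists_approx h0 h1 hb hg n
    obtain ⟨m', hm1', hm2'⟩ := exists_approx h0 h1 hb' hg' n
    have a1 := le_nu h0 h1 hg hn hm2
    have a2 := nu_le h0 h1 hb hn hm1
    have a3 := le_nu h0 h1 hg' hn hm2'
    have a4 := nu_le h0 h1 hb' hn hm1'
    have h2 : (g * g') ^ n ≤ γ ^ (m + m') := by
      rw [mul_pow, zpow_add₀ h0.ne']
      exact mul_le_mul' hm2 hm2'
    have h3 : γ ^ (m + 1 + (m' + 1)) ≤ (g * g') ^ n := by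
      rw [mul_pow, zpow_add₀ h0.ne']
      exact mul_le_mul' hm1 hm1'
    have a5 := le_nu h0 h1 (not_Zr_mul h0 h1 hg hg') hn h2
    have a6 := nu_le h0 h1 (Bd_mul h0 hb hb') hn h3
    rw [div_le_iff₀ hn'] at a1 a3 a5
    rw [le_div_iff₀ hn'] at a2 a4 a6
    push_cast at a1 a2 a3 a4 a5 a6
    rw [abs_le, neg_le, ← sub_nonneg, le_div_iff₀ hn']
    constructor
    · rw [sub_nonneg, le_div_iff₀ hn']
      nlinarith
    · nlinarith
  by_contra hne
  have hpos : 0 < |nu γ (g * g') - (nu γ g + nu γ g')| := abs_pos.mpr (sub_ne_zero.mpr hne)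
  obtain ⟨n, hn⟩ := exists_nat_gt (2 / |nu γ (g * g') - (nu γ g + nu γ g')|)
  have hn0 : (0 : ℝ) < n := lt_of_le_of_lt (by positivity) hn
  have h2 := key n (by exact_mod_cast hn0)
  rw [div_lt_iff₀ hpos] at hn
  rw [le_div_iff₀ hn0] at h2
  linarith

theorem hh_mul {g g' : Γ} (hb : Bd γ g) (hb' : Bd γ g') : hh γ (g * g') = hh γ g * hh γ g' := by
  by_cases hg : Zr γ g
  · rw [hh, if_pos (Zr_mul h0 hg hb'), hh, if_pos hg, zero_mul]
  by_cases hg' : Zr γ g'
  · rw [mul_comm, hh, if_pos (Zr_mul h0 hg' hb), hh, hh, if_neg hg, if_pos hg', mul_zero]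
  rw [hh, hh, hh, if_neg hg, if_neg hg', if_neg (not_Zr_mul h0 h1 hg hg'),
    nu_mul h0 h1 hb hg hb' hg', neg_add, NNReal.rpow_add two_ne_zero]

theorem hh_mono {g g' : Γ} (hb' : Bd γ g') (h : g ≤ g') : hh γ g ≤ hh γ g' := by
  by_cases hg : Zr γ g
  · rw [hh, if_pos hg]
    exact zero_le
  have hg' : ¬ Zr γ g' := fun hz => hg fun k => h.trans (hz k)
  rw [hh, hh, if_neg hg, if_neg hg']
  exact NNReal.rpow_le_rpow_of_exponent_le one_le_two (neg_le_neg (nu_anti h0 h1 hg hb' h))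

theorem not_Zr_one : ¬ Zr γ (1 : Γ) := by
  intro h
  have h2 := h 1
  rw [← zpow_zero γ, zpow_anti h0 h1] at h2
  push_cast at h2

theorem hh_one : hh γ (1 : Γ) = 1 := by
  have h2 : nu γ (1 : Γ) = 0 := by
    apply le_antisymm
    · have := nu_le h0 h1 (g := (1 : Γ)) ⟨0, by simp⟩ (m := 0) (n := 1) one_pos (by simp)
      simpa using this
    · have := le_nu h0 h1 (not_Zr_one h0 h1) (m := 0) (n := 1) one_pos (by simp)
      simpa using this
  rw [hh, if_neg (not_Zr_one h0 h1), h2, neg_zero, NNReal.rpow_zero]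

omit h0 h1 in
theorem hh_zero : hh γ (0 : Γ) = 0 := by
  rw [hh, if_pos]
  intro k
  exact zero_le

theorem hh_le {g : Γ} (h : g ≤ γ) : hh γ g ≤ 2⁻¹ := by
  by_cases hg : Zr γ g
  · rw [hh, if_pos hg]
    exact zero_le
  · rw [hh, if_neg hg]
    have h2 := le_nu h0 h1 hg (m := 1) (n := 1) one_pos (by simpa using h)
    have h3 : (2 : ℝ≥0) ^ (-nu γ g) ≤ (2 : ℝ≥0) ^ (-1 : ℝ) :=
      NNReal.rpow_le_rpow_of_exponent_le one_le_two (by
        push_cast at h2
        rw [div_one] at h2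
        linarith)
    rwa [NNReal.rpow_neg_one] at h3

theorem hh_pos : 0 < hh γ γ := by
  have h2 : ¬ Zr γ γ := by
    intro h
    have h3 := h 2
    nth_rw 1 [← zpow_one γ] at h3
    rw [zpow_anti h0 h1] at h3
    push_cast at h3
  rw [hh, if_neg h2]
  exact NNReal.rpow_pos two_pos

end

section

variable {K : Type} [Field K] (O : ValuationSubring K) (p : K)

/-- The ring `O[1 / p]`. -/
def O2 (hp : p ≠ 0) (hp1 : O.valuation p < 1) : ValuationSubring K where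
  carrier := {x | Bd (O.valuation p) (O.valuation x)}
  mul_mem' := fun {x y} hx hy => by
    have h0 : 0 < O.valuation p := zero_lt_iff.mpr ((Valuation.ne_zero_iff _).mpr hp)
    show Bd _ _
    rw [map_mul]
    exact Bd_mul h0 hx hy
  one_mem' := ⟨0, by simp⟩
  add_mem' := fun {x y} hx hy => by
    obtain ⟨k, hk⟩ := hx
    obtain ⟨l, hl⟩ := hy
    have h0 : 0 < O.valuation p := zero_lt_iff.mpr ((Valuation.ne_zero_iff _).mpr hp)
    refine ⟨max k l, ((O.valuation).map_add x y).trans (max_le ?_ ?_)⟩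
    · refine hk.trans ((zpow_anti h0 hp1).mpr ?_)
      push_cast
      simp
    · refine hl.trans ((zpow_anti h0 hp1).mpr ?_)
      push_cast
      simp
  zero_mem' := ⟨0, by simp⟩
  neg_mem' := fun {x} hx => by
    obtain ⟨k, hk⟩ := hx
    exact ⟨k, by rwa [Valuation.map_neg]⟩
  mem_or_inv_mem' := fun x => by
    rcases le_total (O.valuation x) 1 with h | h
    · exact Or.inl ⟨0, by simpa using h⟩
    · right
      refine ⟨0, ?_⟩
      rw [map_inv₀]
      simpa using inv_le_one_of_one_le₀ h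

variable {O p} (hp : p ≠ 0) (hp1 : O.valuation p < 1)

theorem mem_O2 {x : K} : x ∈ O2 O p hp hp1 ↔ Bd (O.valuation p) (O.valuation x) := Iff.rfl

theorem mem_O2_of_mem {x : K} (hx : x ∈ O) : x ∈ O2 O p hp hp1 :=
  ⟨0, by simpa using (ValuationSubring.valuation_le_one_iff _ _).mpr hx⟩

/-- The real valuation of `O[1 / p]`. -/
noncomputable def w2 : Valuation (O2 O p hp hp1) ℝ≥0 where
  toFun x := hh (O.valuation p) (O.valuation (x : K))
  map_zero' := by
    have h0 : 0 < O.valuation p := zero_lt_iff.mpr ((Valuation.ne_zero_iff _).mpr hp)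
    simp only [ZeroMemClass.coe_zero, map_zero]
    exact hh_zero
  map_one' := by
    have h0 : 0 < O.valuation p := zero_lt_iff.mpr ((Valuation.ne_zero_iff _).mpr hp)
    simp only [OneMemClass.coe_one, map_one]
    exact hh_one h0 hp1
  map_mul' x y := by
    have h0 : 0 < O.valuation p := zero_lt_iff.mpr ((Valuation.ne_zero_iff _).mpr hp)
    simp only [MulMemClass.coe_mul, map_mul]
    exact hh_mul h0 hp1 x.2 y.2
  map_add_le_max' x y := by
    have h0 : 0 < O.valuation p := zero_lt_iff.mpr ((Valuation.ne_zero_iff _).mpr hp)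
    rcases le_total (O.valuation (x : K)) (O.valuation (y : K)) with h | h
    · refine le_max_of_le_right (hh_mono h0 hp1 y.2 ?_)
      exact ((O.valuation).map_add x y).trans (max_le h le_rfl)
    · refine le_max_of_le_left (hh_mono h0 hp1 x.2 ?_)
      exact ((O.valuation).map_add x y).trans (max_le le_rfl h)

theorem w2_apply (x : O2 O p hp hp1) :
    w2 hp hp1 x = hh (O.valuation p) (O.valuation (x : K)) := rfl

theorem w2_eq_zero {x : O2 O p hp hp1} : w2 hp hp1 x = 0 ↔ Zr (O.valuation p) (O.valuation (x : K)) := by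
  rw [w2_apply, hh]
  constructor
  · intro h
    by_contra hcon
    rw [if_neg hcon] at h
    exact (NNReal.rpow_pos two_pos).ne' h
  · intro h
    rw [if_pos h]

theorem isUnit_iff_w2 {x : O2 O p hp hp1} : IsUnit x ↔ w2 hp hp1 x ≠ 0 := by
  have h0 : 0 < O.valuation p := zero_lt_iff.mpr ((Valuation.ne_zero_iff _).mpr hp)
  constructor
  · intro h h2
    obtain ⟨u, rfl⟩ := h
    have h3 : w2 hp hp1 ((u : O2 O p hp hp1) * (u⁻¹ : (O2 O p hp hp1)ˣ)) = 0 := by
      rw [map_mul, h2, zero_mul]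
    rw [Units.mul_inv, map_one] at h3
    exact one_ne_zero h3
  · intro h
    have h2 : ¬ Zr (O.valuation p) (O.valuation (x : K)) := fun h3 => h ((w2_eq_zero hp hp1).mpr h3)
    obtain ⟨k, hk⟩ := exists_low h2
    have hx0 : (x : K) ≠ 0 := by
      intro h3
      rw [h3, map_zero] at hk
      exact absurd hk (not_lt.mpr zero_le)
    have h3 : (x : K)⁻¹ ∈ O2 O p hp hp1 := by
      refine ⟨k, ?_⟩
      rw [map_inv₀, zpow_neg]
      exact inv_anti₀ (zpow_pos h0 _) hk.le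
    refine IsUnit.of_mul_eq_one ⟨(x : K)⁻¹, h3⟩ ?_
    ext
    exact mul_inv_cancel₀ hx0

theorem le_supp : IsLocalRing.maximalIdeal (O2 O p hp hp1) ≤ (w2 hp hp1).supp := by
  intro x hx
  rw [Valuation.mem_supp_iff]
  by_contra h
  exact hx ((isUnit_iff_w2 hp hp1).mpr h)

/-- The real valuation of the residue field of `O[1 / p]`. -/
noncomputable def vb : Valuation (IsLocalRing.ResidueField (O2 O p hp hp1)) ℝ≥0 :=
  (w2 hp hp1).onQuot (le_supp hp hp1)

theorem vb_apply (x : O2 O p hp hp1) :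
    vb hp hp1 (IsLocalRing.residue _ x) = hh (O.valuation p) (O.valuation (x : K)) := rfl

open Pool.Agent.TH686.NF Pool.Agent.W882.Nip3

theorem vb_gt : ∃ a, 1 < vb hp hp1 a := by
  have h0 : 0 < O.valuation p := zero_lt_iff.mpr ((Valuation.ne_zero_iff _).mpr hp)
  have hp2 : p ∈ O2 O p hp hp1 := mem_O2_of_mem hp hp1
    ((ValuationSubring.valuation_le_one_iff _ _).mp hp1.le)
  have h2 : vb hp hp1 (IsLocalRing.residue _ ⟨p, hp2⟩) ≤ 2⁻¹ := hh_le h0 hp1 le_rfl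
  have h3 : 0 < vb hp hp1 (IsLocalRing.residue _ ⟨p, hp2⟩) := hh_pos h0 hp1
  refine ⟨(IsLocalRing.residue _ ⟨p, hp2⟩)⁻¹, ?_⟩
  rw [map_inv₀]
  refine (one_lt_inv₀ h3).mpr (lt_of_le_of_lt h2 ?_)
  exact inv_lt_one_of_one_lt₀ one_lt_two

/-- The place with values in a complete field. -/
noncomputable def plc : Place K where
  O := O2 O p hp hp1
  F := Cp (vb hp hp1)
  normedField := ntr (vb hp hp1) (vb_gt hp hp1)
  complete := inferInstanceAs (CompleteSpace (Cp (vb hp hp1)))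
  res := (emb (vb hp hp1)).comp (IsLocalRing.residue _)
  isUnit_of_res_ne_zero x hx := by
    rw [← IsLocalRing.residue_ne_zero_iff_isUnit]
    intro h
    apply hx
    rw [RingHom.comp_apply, h, map_zero]
  denseRange := by
    have h2 : Set.range ((emb (vb hp hp1)).comp (IsLocalRing.residue (O2 O p hp hp1))) =
        Set.range (emb (vb hp hp1)) := by
      rw [RingHom.coe_comp, (IsLocalRing.residue_surjective).range_comp]
    unfold DenseRange
    rw [h2]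
    exact dense_emb (vb hp hp1)

theorem norm_res (x : O2 O p hp hp1) :
    ‖((emb (vb hp hp1)).comp (IsLocalRing.residue _)) x‖ =
      hh (O.valuation p) (O.valuation (x : K)) := by
  rw [RingHom.comp_apply, norm_emb, vb_apply]

theorem plc_small {x : K} (hx : O.valuation x < O.valuation p) : (plc hp hp1).Small x := by
  have h0 : 0 < O.valuation p := zero_lt_iff.mpr ((Valuation.ne_zero_iff _).mpr hp)
  have h2 : x ∈ O2 O p hp hp1 := mem_O2_of_mem hp hp1
    ((ValuationSubring.valuation_le_one_iff _ _).mp (hx.le.trans hp1.le))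
  refine ⟨h2, ?_⟩
  show ‖((emb (vb hp hp1)).comp (IsLocalRing.residue _)) ⟨x, h2⟩‖ < 1
  rw [norm_res]
  have h3 := hh_le h0 hp1 hx.le
  have h4 : hh (O.valuation p) (O.valuation x) < 1 := lt_of_le_of_lt h3 (inv_lt_one_of_one_lt₀ one_lt_two)
  exact_mod_cast h4

end

end Pool.Agent.Q175.NF
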