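import Pool.Agent.Q175.NF.Nrm
import Pool.Agent.Q175.NF.Rv
import Pool.Agent.Q175.NF.Core2
import Pool.Agent.Q175.NF.Plc

/-!
# Valuation rings with a norm group which is not dense
-/

set_option autoImplicit false

open Polynomial FirstOrder FirstOrder.Ring

namespace Pool.Agent.Q175.NF

open Pool.Agent.W882.Nip3 Pool.Agent.TH686.NF

section

variable {α : Type} {d : ℕ}

/-- A uniformly definable matrix. -/
def UTM (α : Type) {d : ℕ} (M : ∀ (K : Type) [Field K], (α → K) → Matrix (Fin d) (Fin d) K) :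
    Prop := ∀ i j, UT α (fun K _ v => M K v i j)

theorem UTM.pow {M : ∀ (K : Type) [Field K], (α → K) → Matrix (Fin d) (Fin d) K} (hM : UTM α M)
    (n : ℕ) : UTM α (fun K _ v => M K v ^ n) := by
  induction n with
  | zero =>
    intro i j
    by_cases h : i = j
    · simp only [pow_zero, Matrix.one_apply, h, if_true]
      exact UT.one
    · simp only [pow_zero, Matrix.one_apply, h, if_false]
      exact UT.zero
  | succ n ih =>
    intro i j
    simp only [pow_succ, Matrix.mul_apply]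
    exact UT.sum _ fun k => (ih i k).mul (hM k j)

theorem UTM.det {M : ∀ (K : Type) [Field K], (α → K) → Matrix (Fin d) (Fin d) K}
    (hM : UTM α M) : UT α (fun K _ v => (M K v).det) := by
  simp only [Matrix.det_apply']
  exact UT.sum _ fun σ => (UT.int _).mul (UT.prod _ fun i => hM _ _)

theorem UT_nfm {A X : Fin d → ∀ (K : Type) [Field K], (α → K) → K} (hA : ∀ i, UT α (A i))
    (hX : ∀ i, UT α (X i)) :
    UT α (fun K _ v => nfm d (fun i => A i K v) (fun i => X i K v)) := by
  have hC : UTM α (fun K _ v => compM d (fun i => A i K v)) := by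
    intro l j
    by_cases h : (j : ℕ) + 1 = d
    · simp only [compM, h, if_true]
      exact (hA l).neg
    · by_cases h' : (l : ℕ) = j + 1
      · simp only [compM, h, if_false, h', if_true]
        exact UT.one
      · simp only [compM, h, if_false, h']
        exact UT.zero
  have hS : UTM α (fun K _ v => ∑ i : Fin d, X i K v • compM d (fun i => A i K v) ^ (i : ℕ)) := by
    intro l j
    simp only [Matrix.sum_apply, Matrix.smul_apply, smul_eq_mul]
    exact UT.sum _ fun i => (hX i).mul (hC.pow i l j)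
  exact hS.det

theorem UT_der {A : Fin d → ∀ (K : Type) [Field K], (α → K) → K} (hA : ∀ i, UT α (A i))
    (i : Fin d) : UT α (fun K _ v => der d (fun i => A i K v) i) := by
  by_cases h : (i : ℕ) + 1 < d
  · simp only [der, h, dif_pos]
    exact (UT.nat _).mul (hA _)
  · simp only [der, h, dif_neg, not_false_eq_true]
    exact UT.nat d

/-- The index type of the parameters: the lower coefficients of `f`, the element `c`, the inverse
of the norm of the derivative, a nonunit `p` and its inverse, and one more element. -/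
abbrev Par (d : ℕ) : Type := Fin d ⊕ Fin 5

/-- The elements which have to be integral. -/
def E1 (d : ℕ) (K : Type) [Field K] (v : Par d → K) : Set K :=
  {z | (∃ k : Fin d, z = v (Sum.inr 2) * v (Sum.inl k)) ∨ z = v (Sum.inr 2) * v (Sum.inr 0) ∨
    z = v (Sum.inr 2) * v (Sum.inr 1) ∨
    ∃ x : Fin d → K, z * (nfm d (fun i => v (Sum.inl i)) x - v (Sum.inr 0)) = v (Sum.inr 2)}

/-- The basic relations between the parameters. -/
def BR (d : ℕ) (K : Type) [Field K] (v : Par d → K) : Prop :=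
  v (Sum.inr 2) * v (Sum.inr 3) = 1 ∧
  v (Sum.inr 1) * nfm d (fun i => v (Sum.inl i)) (der d (fun i => v (Sum.inl i))) = 1 ∧
  ¬ ∃ x : Fin d → K, nfm d (fun i => v (Sum.inl i)) x = v (Sum.inr 0)

theorem UDS_E1 (d : ℕ) : UDS (Par d) (E1 d) := by
  refine UD.or (UD.any_fin fun k => UD.eq (UT.var _) ((UT.var _).mul (UT.var _)))
    (UD.or (UD.eq (UT.var _) ((UT.var _).mul (UT.var _)))
    (UD.or (UD.eq (UT.var _) ((UT.var _).mul (UT.var _))) ?_))
  apply UD.ex
  refine UD.eq ((UT.var (Sum.inl (Sum.inr ()))).mul (UT.sub ?_ (UT.var _))) (UT.var _)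
  exact UT_nfm (A := fun i K _ w => w (Sum.inl (Sum.inl (Sum.inl i)))) (fun i => UT.var _)
    (X := fun i K _ w => w (Sum.inr i)) (fun i => UT.var _)

theorem UD_BR (d : ℕ) : UD (Par d) (BR d) := by
  refine UD.and (UD.eq ((UT.var _).mul (UT.var _)) UT.one) (UD.and (UD.eq ((UT.var _).mul
    (UT_nfm (A := fun i K _ w => w (Sum.inl i)) (fun i => UT.var _)
      (X := fun i K _ w => der d (fun i => w (Sum.inl i)) i)
      (UT_der (A := fun i K _ w => w (Sum.inl i)) fun i => UT.var _))) UT.one) ?_)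
  apply UD.not
  apply UD.ex
  exact UD.eq (UT_nfm (A := fun i K _ w => w (Sum.inl (Sum.inl i))) (fun i => UT.var _)
    (X := fun i K _ w => w (Sum.inr i)) (fun i => UT.var _)) (UT.var _)

end

theorem continuous_nfm {F : Type} [NormedField F] (d : ℕ) (a : Fin d → F) :
    Continuous fun x : Fin d → F => nfm d a x := by
  refine Continuous.matrix_det ?_
  refine continuous_finsetSum _ fun i _ => ?_
  exact (continuous_apply i).smul continuous_const

theorem bad {d : ℕ} (hd : 0 < d) {K : Type} [Field K] {v : Par d → K} (hB : BR d K v)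
    {O : ValuationSubring K} (hO : ∀ z ∈ E1 d K v, z ∈ O) (hp : v (Sum.inr 2) ≠ 0)
    (hp1 : O.valuation (v (Sum.inr 2)) < 1) : ¬ DimLeOneUpTo (Cp (vb hp hp1)) d := by
  intro hF
  have h0 : 0 < O.valuation (v (Sum.inr 2)) :=
    zero_lt_iff.mpr ((Valuation.ne_zero_iff _).mpr hp)
  set ψ : O2 O (v (Sum.inr 2)) hp hp1 →+* Cp (vb hp hp1) :=
    (emb (vb hp hp1)).comp (IsLocalRing.residue _) with hψ
  have hmem : ∀ z, v (Sum.inr 2) * z ∈ O → z ∈ O2 O (v (Sum.inr 2)) hp hp1 := by
    intro z hz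
    refine ⟨1, ?_⟩
    rw [← ValuationSubring.valuation_le_one_iff, map_mul] at hz
    rw [Nat.cast_one, zpow_neg_one]
    have h4 := (le_inv_mul_iff₀ h0).mpr hz
    rwa [mul_one] at h4
  let a' : Fin d → O2 O (v (Sum.inr 2)) hp hp1 := fun k =>
    ⟨v (Sum.inl k), hmem _ (hO _ (Or.inl ⟨k, rfl⟩))⟩
  let c' : O2 O (v (Sum.inr 2)) hp hp1 := ⟨v (Sum.inr 0), hmem _ (hO _ (Or.inr (Or.inl rfl)))⟩
  let δ' : O2 O (v (Sum.inr 2)) hp hp1 :=
    ⟨v (Sum.inr 1), hmem _ (hO _ (Or.inr (Or.inr (Or.inl rfl))))⟩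
  have hp2 : v (Sum.inr 2) ∈ O := (ValuationSubring.valuation_le_one_iff _ _).mp hp1.le
  let p' : O2 O (v (Sum.inr 2)) hp hp1 := ⟨v (Sum.inr 2), mem_O2_of_mem hp hp1 hp2⟩
  have hsub : ∀ y : Fin d → O2 O (v (Sum.inr 2)) hp hp1, ((nfm d a' y : _) : K) =
      nfm d (fun i => v (Sum.inl i)) (fun i => (y i : K)) := by
    intro y
    exact (nfm_map (O2 O (v (Sum.inr 2)) hp hp1).subtype d a' y).symm
  have hder : ∀ i, ((der d a' i : _) : K) = der d (fun i => v (Sum.inl i)) i := by
    intro i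
    exact (der_map (O2 O (v (Sum.inr 2)) hp hp1).subtype d a' i).symm
  have h1 : δ' * nfm d a' (der d a') = 1 := by
    apply Subtype.ext
    show v (Sum.inr 1) * ((nfm d a' (der d a') : _) : K) = 1
    rw [hsub, funext hder]
    exact hB.2.1
  have hsep : (mpoly d fun i => ψ (a' i)).Separable := by
    apply separable_of_nfm
    have e : nfm d (fun i => ψ (a' i)) (der d fun i => ψ (a' i)) = ψ (nfm d a' (der d a')) := by
      rw [← nfm_map]
      congr 1
      funext i
      exact der_map ψ d a' i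
    rw [e]
    intro h2
    have h3 := congrArg ψ h1
    rw [map_mul, h2, mul_zero, map_one] at h3
    exact zero_ne_one h3
  obtain ⟨x, hx⟩ := nfm_surj hF le_rfl hd hsep (ψ c')
  have hpn : 0 < ‖ψ p'‖ := by
    rw [hψ, norm_res]
    exact_mod_cast hh_pos h0 hp1
  have hdense : DenseRange (fun (y : Fin d → O2 O (v (Sum.inr 2)) hp hp1) (i : Fin d) => ψ (y i)) :=
    DenseRange.piMap (fun _ : Fin d => (plc hp hp1).denseRange)
  have hopen : IsOpen {x : Fin d → Cp (vb hp hp1) |
      ‖nfm d (fun i => ψ (a' i)) x - ψ c'‖ < ‖ψ p'‖} :=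
    isOpen_lt (((continuous_nfm d _).sub continuous_const).norm) continuous_const
  obtain ⟨y, hy⟩ := hdense.exists_mem_open hopen ⟨x, by
    show ‖nfm d (fun i => ψ (a' i)) x - ψ c'‖ < ‖ψ p'‖
    rw [hx, sub_self, norm_zero]
    exact hpn⟩
  have hy1 : ‖ψ (nfm d a' y - c')‖ < ‖ψ p'‖ := by
    rw [map_sub, ← nfm_map]
    exact hy
  have hN : ((nfm d a' y - c' : O2 O (v (Sum.inr 2)) hp hp1) : K) =
      nfm d (fun i => v (Sum.inl i)) (fun i => (y i : K)) - v (Sum.inr 0) := by
    rw [AddSubgroupClass.coe_sub, hsub]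
  have hN0 : nfm d (fun i => v (Sum.inl i)) (fun i => (y i : K)) - v (Sum.inr 0) ≠ 0 := by
    intro h
    exact hB.2.2 ⟨_, sub_eq_zero.mp h⟩
  have hz : v (Sum.inr 2) / (nfm d (fun i => v (Sum.inl i)) (fun i => (y i : K)) -
      v (Sum.inr 0)) ∈ O :=
    hO _ (Or.inr (Or.inr (Or.inr ⟨_, div_mul_cancel₀ _ hN0⟩)))
  let z' : O2 O (v (Sum.inr 2)) hp hp1 := ⟨_, mem_O2_of_mem hp hp1 hz⟩
  have hz1 : ‖ψ z'‖ ≤ 1 := by
    rw [hψ, norm_res]
    have h4 : hh (O.valuation (v (Sum.inr 2))) (O.valuation (z' : K)) ≤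
        hh (O.valuation (v (Sum.inr 2))) 1 :=
      hh_mono h0 hp1 ⟨0, by simp⟩ ((ValuationSubring.valuation_le_one_iff _ _).mpr hz)
    rw [hh_one h0 hp1] at h4
    exact_mod_cast h4
  have hpz : p' = z' * (nfm d a' y - c') := by
    apply Subtype.ext
    rw [MulMemClass.coe_mul, hN]
    exact (div_mul_cancel₀ _ hN0).symm
  have h5 : ‖ψ p'‖ ≤ ‖ψ (nfm d a' y - c')‖ := by
    rw [hpz, map_mul, norm_mul]
    exact mul_le_of_le_one_left (norm_nonneg _) hz1
  exact absurd hy1 (not_lt.mpr h5)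

theorem inc_incomparable {K : Type} [Field K] {p : K} (hp : p ≠ 0) {O O' : ValuationSubring K}
    (h : O.valuation p < 1) (h' : O'.valuation p < 1) (hi : Inc p O O') :
    (plc hp h).Incomparable (plc hp h') := by
  obtain ⟨x, hx, h1, h2⟩ := hi
  exact ⟨x, hx, plc_small hp h h1, plc_small hp h' h2⟩

/-- The number of separated valuation rings of the given kind is bounded. -/
theorem exists_vmax_E {d : ℕ} (hd : 0 < d) {K : Type} [Field K] [CompatibleRing K] (hK : Tame K)
    {v : Par d → K} (hB : BR d K v) {E : ∀ (K : Type) [Field K], (Par d → K) → Set K}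
    (hE : ∀ (K : Type) [Field K] (v : Par d → K), E1 d K v ⊆ E K v) :
    ∃ N, VMax E (fun _ _ v => v (Sum.inr 2)) N K v := by
  obtain ⟨N, hN⟩ := main_general (fun e d => boundedG_of_tame hK e d) d
  refine ⟨N, fun K' _ _ v' hee hEE O hO hpw => ?_⟩
  have hB' : BR d K' v' := (hEE (BR d) (UD_BR d)).mp hB
  have hp : v' (Sum.inr 2) ≠ 0 := left_ne_zero_of_mul_eq_one hB'.1
  obtain ⟨i, hi⟩ := hN K' hee (fun i => plc hp (hO i).2) (fun i j hij =>
    inc_incomparable hp (hO i).2 (hO j).2 (hpw hij))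
  exact bad hd hB' (fun z hz => (hO i).1 z (hE K' v' hz)) hp (hO i).2 hi

end Pool.Agent.Q175.NF
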