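import Pool.Agent.Q175.NF.Def

/-!
# Levels of a generated subring, and the theorem of Chevalley
-/

set_option autoImplicit false

namespace Pool.Agent.Q175.NF

section

variable {K : Type} [Field K]

/-- The elements of level `n` of the subring generated by `S`. -/
def RL (S : Set K) : ℕ → Set K
  | 0 => {x | x = 0 ∨ x = 1 ∨ x = -1 ∨ x ∈ S}
  | n + 1 => {x | ∃ y z, y ∈ RL S n ∧ z ∈ RL S n ∧ (x = y + z ∨ x = y * z)}

theorem RL_zero_mem (S : Set K) (n : ℕ) : (0 : K) ∈ RL S n ∧ (1 : K) ∈ RL S n := by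
  induction n with
  | zero => exact ⟨Or.inl rfl, Or.inr (Or.inl rfl)⟩
  | succ n ih => exact ⟨⟨0, 0, ih.1, ih.1, by simp⟩, ⟨1, 1, ih.2, ih.2, by simp⟩⟩

theorem RL_succ (S : Set K) (n : ℕ) : RL S n ⊆ RL S (n + 1) :=
  fun x hx => ⟨x, 0, hx, (RL_zero_mem S n).1, by simp⟩

theorem RL_mono (S : Set K) {n m : ℕ} (h : n ≤ m) : RL S n ⊆ RL S m := by
  induction m, h using Nat.le_induction with
  | base => exact subset_rfl
  | succ m _ ih => exact ih.trans (RL_succ S m)

theorem RL_sub {S : Set K} {R : Subring K} (h : S ⊆ R) (n : ℕ) : RL S n ⊆ R := by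
  induction n with
  | zero =>
    rintro x (rfl | rfl | rfl | hx)
    · exact R.zero_mem
    · exact R.one_mem
    · exact R.neg_mem R.one_mem
    · exact h hx
  | succ n ih =>
    rintro x ⟨y, z, hy, hz, rfl | rfl⟩
    · exact R.add_mem (ih hy) (ih hz)
    · exact R.mul_mem (ih hy) (ih hz)

theorem exists_RL {S : Set K} {x : K} (hx : x ∈ Subring.closure S) : ∃ n, x ∈ RL S n := by
  induction hx using Subring.closure_induction with
  | mem x hx => exact ⟨0, Or.inr (Or.inr (Or.inr hx))⟩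
  | zero => exact ⟨0, Or.inl rfl⟩
  | one => exact ⟨0, Or.inr (Or.inl rfl)⟩
  | add x y _ _ hx hy =>
    obtain ⟨n, hn⟩ := hx
    obtain ⟨m, hm⟩ := hy
    exact ⟨max n m + 1, x, y, RL_mono S (le_max_left _ _) hn, RL_mono S (le_max_right _ _) hm,
      Or.inl rfl⟩
  | neg x _ hx =>
    obtain ⟨n, hn⟩ := hx
    exact ⟨n + 1, -1, x, RL_mono S (Nat.zero_le _) (Or.inr (Or.inr (Or.inl rfl))), hn,
      Or.inr (by ring)⟩
  | mul x y _ _ hx hy =>
    obtain ⟨n, hn⟩ := hx
    obtain ⟨m, hm⟩ := hy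
    exact ⟨max n m + 1, x, y, RL_mono S (le_max_left _ _) hn, RL_mono S (le_max_right _ _) hm,
      Or.inr rfl⟩

/-- The unit element is a combination of the elements `J i` with coefficients of level `n` in the
subring generated by `S`. -/
def NC (S : Set K) {ι : Type} [Fintype ι] (J : ι → K) (n : ℕ) : Prop :=
  ∃ w : ι → K, (∀ i, w i ∈ RL S n) ∧ 1 = ∑ i, J i * w i

theorem NC_mono {S : Set K} {ι : Type} [Fintype ι] {J : ι → K} {n m : ℕ} (h : n ≤ m)
    (hn : NC S J n) : NC S J m := by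
  obtain ⟨w, h1, h2⟩ := hn
  exact ⟨w, fun i => RL_mono S h (h1 i), h2⟩

theorem val_lt_one_iff {O : ValuationSubring K} {x : K} :
    O.valuation x < 1 ↔ x ∈ O.nonunits := by
  rw [ValuationSubring.mem_nonunits_iff]

/-- Chevalley's theorem on the existence of valuation rings. -/
theorem chev {S : Set K} {ι : Type} [Fintype ι] {J : ι → K} (hJ : ∀ i, J i ∈ S)
    (h : ∀ n, ¬ NC S J n) :
    ∃ O : ValuationSubring K, (∀ x ∈ S, x ∈ O) ∧ ∀ i, O.valuation (J i) < 1 := by
  classical
  set A := Subring.closure S with hA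
  have hSA : S ⊆ A := Subring.subset_closure
  let j : ι → A := fun i => ⟨J i, hSA (hJ i)⟩
  have hI : Ideal.span (Set.range j) ≠ ⊤ := by
    intro htop
    have h1 : (1 : A) ∈ Ideal.span (Set.range j) := by
      rw [htop]
      trivial
    obtain ⟨w, hw⟩ := (Submodule.mem_span_range_iff_exists_fun A).mp h1
    have hl : ∀ i, ∃ n, (w i : K) ∈ RL S n := fun i => exists_RL (w i).2
    choose n hn using hl
    refine h (∑ i, n i) ⟨fun i => w i, fun i => RL_mono S ?_ (hn i), ?_⟩
    · exact Finset.single_le_sum (fun _ _ => Nat.zero_le _) (Finset.mem_univ i)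
    · have h2 := congrArg (fun a : A => (a : K)) hw
      simp only [smul_eq_mul, AddSubmonoidClass.coe_finset_sum, MulMemClass.coe_mul,
        OneMemClass.coe_one] at h2
      rw [← h2]
      exact Finset.sum_congr rfl fun i _ => mul_comm _ _
  obtain ⟨O, hO1, hO2⟩ := Ideal.image_subset_nonunits_valuationSubring _ hI
  refine ⟨O, fun x hx => hO1 (hSA hx), fun i => ?_⟩
  rw [val_lt_one_iff]
  exact hO2 ⟨j i, Ideal.subset_span ⟨i, rfl⟩, rfl⟩

theorem not_NC {S : Set K} {ι : Type} [Fintype ι] {J : ι → K} {O : ValuationSubring K}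
    (hS : ∀ x ∈ S, x ∈ O) (hJ : ∀ i, O.valuation (J i) < 1) (n : ℕ) : ¬ NC S J n := by
  rintro ⟨w, h1, h2⟩
  have h3 : O.valuation (∑ i, J i * w i) < 1 := by
    refine Valuation.map_sum_lt _ one_ne_zero fun i _ => ?_
    rw [map_mul]
    have h4 : O.valuation (w i) ≤ 1 :=
      (O.valuation_le_one_iff _).mpr (RL_sub (R := O.toSubring) hS n (h1 i))
    exact mul_lt_one_of_nonneg_of_lt_one_left zero_le (hJ i) h4
  rw [← h2, map_one] at h3
  exact lt_irrefl _ h3

end

section

variable {α : Type} {S : ∀ (K : Type) [Field K], (α → K) → Set K}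

/-- The family `S` of sets is uniformly definable. -/
def UDS (α : Type) (S : ∀ (K : Type) [Field K], (α → K) → Set K) : Prop :=
  UD (α ⊕ Unit) (fun K _ w => w (Sum.inr ()) ∈ S K (fun a => w (Sum.inl a)))

theorem UDS.mem {β : Type} (hS : UDS α S) {g : α → ∀ (K : Type) [Field K], (β → K) → K}
    (hg : ∀ a, UT β (g a)) {f : ∀ (K : Type) [Field K], (β → K) → K} (hf : UT β f) :
    UD β (fun K _ v => f K v ∈ S K (fun a => g a K v)) :=
  UD.subst (R := fun K _ w => w (Sum.inr ()) ∈ S K (fun a => w (Sum.inl a))) hS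
    (g := Sum.elim g (fun _ => f)) (by rintro (a | _); exacts [hg a, hf])

theorem UDS.comp {β : Type} (hS : UDS α S) {g : α → ∀ (K : Type) [Field K], (β → K) → K}
    (hg : ∀ a, UT β (g a)) : UDS β (fun K _ v => S K (fun a => g a K v)) :=
  hS.mem (fun a => (hg a).comp Sum.inl) (UT.var _)

theorem UDS_RL (hS : UDS α S) (n : ℕ) : UDS α (fun K _ v => RL (S K v) n) := by
  induction n with
  | zero =>
    exact (UD.eq (UT.var _) UT.zero).or ((UD.eq (UT.var _) UT.one).or
      ((UD.eq (UT.var _) UT.one.neg).or hS))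
  | succ n ih =>
    apply UD.ex1
    apply UD.ex1
    refine UD.and ?_ (UD.and ?_ (UD.or ?_ ?_))
    · exact UDS.mem ih (g := fun a K _ w => w (Sum.inl (Sum.inl (Sum.inl a))))
        (fun a => UT.var _) (UT.var (Sum.inl (Sum.inr ())))
    · exact UDS.mem ih (g := fun a K _ w => w (Sum.inl (Sum.inl (Sum.inl a))))
        (fun a => UT.var _) (UT.var (Sum.inr ()))
    · exact UD.eq (UT.var (Sum.inl (Sum.inl (Sum.inr ())))) ((UT.var (Sum.inl (Sum.inr ()))).add
        (UT.var (Sum.inr ())))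
    · exact UD.eq (UT.var (Sum.inl (Sum.inl (Sum.inr ())))) ((UT.var (Sum.inl (Sum.inr ()))).mul
        (UT.var (Sum.inr ())))

theorem UD_NC (hS : UDS α S) {ι : Type} [Fintype ι] {J : ι → ∀ (K : Type) [Field K], (α → K) → K}
    (hJ : ∀ i, UT α (J i)) (n : ℕ) : UD α (fun K _ v => NC (S K v) (fun i => J i K v) n) := by
  apply UD.ex
  refine UD.and (UD.all_fin fun i => ?_) ?_
  · exact UDS.mem (UDS_RL hS n) (g := fun a K _ w => w (Sum.inl a)) (fun a => UT.var _)
      (UT.var (Sum.inr i))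
  · exact UD.eq UT.one (UT.sum _ fun i => ((hJ i).comp Sum.inl).mul (UT.var (Sum.inr i)))

theorem UDS.union {S' : ∀ (K : Type) [Field K], (α → K) → Set K} (h : UDS α S) (h' : UDS α S') :
    UDS α (fun K _ v => S K v ∪ S' K v) := UD.or h h'

theorem UD.any_fin {ι : Type} [Finite ι] {R : ι → ∀ (K : Type) [Field K], (α → K) → Prop}
    (h : ∀ i, UD α (R i)) : UD α (fun K _ v => ∃ i, R i K v) := by
  have := (UD.all_fin fun i => (h i).not).not
  exact this.congr fun K _ v => by push Not; rfl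

theorem UDS_range {ι : Type} [Finite ι] {J : ι → ∀ (K : Type) [Field K], (α → K) → K}
    (hJ : ∀ i, UT α (J i)) : UDS α (fun K _ v => Set.range fun i => J i K v) := by
  exact UD.any_fin fun i => UD.eq ((hJ i).comp Sum.inl) (UT.var _)

end

end Pool.Agent.Q175.NF
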