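import Pool.Agent.Q175.NF.Chev

/-!
# Definability of valuations from a bound for the number of incomparable valuations
-/

set_option autoImplicit false

open FirstOrder FirstOrder.Ring

namespace Pool.Agent.Q175.NF

/-- The set `S` is definable in `K` in the language of rings, with parameters. -/
def IsDefinable {K : Type} [Field K] [CompatibleRing K] (S : Set K) : Prop :=
  ∃ (p : ℕ) (ψ : FirstOrder.Language.ring.Formula (Fin 1 ⊕ Fin p)) (c : Fin p → K),
    ∀ x : K, x ∈ S ↔ ψ.Realize (Sum.elim (fun _ => x) c)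

theorem isDefinable_of_UDS {α : Type} [Finite α] {S : ∀ (K : Type) [Field K], (α → K) → Set K}
    (hS : UDS α S) {K : Type} [Field K] [CompatibleRing K] (v : α → K) :
    IsDefinable (S K v) := by
  obtain ⟨p, ⟨e⟩⟩ := Finite.exists_equiv_fin α
  have h1 : UD (Fin 1 ⊕ Fin p)
      (fun K _ w => w (Sum.inl 0) ∈ S K (fun a => w (Sum.inr (e a)))) :=
    UDS.mem hS (fun a => UT.var (Sum.inr (e a))) (UT.var (Sum.inl 0))
  obtain ⟨φ, hφ⟩ := h1
  refine ⟨p, φ, fun i => v (e.symm i), fun x => ?_⟩
  rw [hφ K]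
  simp

/-- The tuples `v` and `v'` satisfy the same uniformly definable relations. -/
def EE {α K K' : Type} [Field K] [Field K'] (v : α → K) (v' : α → K') : Prop :=
  ∀ R : ∀ (K : Type) [Field K], (α → K) → Prop, UD α R → (R K v ↔ R K' v')

theorem EE.refl {α K : Type} [Field K] (v : α → K) : EE v v := fun _ _ => Iff.rfl

theorem EE.trans {α K K' K'' : Type} [Field K] [Field K'] [Field K''] {v : α → K} {v' : α → K'}
    {v'' : α → K''} (h : EE v v') (h' : EE v' v'') : EE v v'' :=
  fun R hR => (h R hR).trans (h' R hR)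

/-- The compactness principle with parameters. -/
theorem comp_par {α β : Type} (K : Type) [Field K] [CompatibleRing K] (v : α → K)
    (w : ℕ → β → K) :
    ∃ (K' : Type) (_ : Field K') (_ : CompatibleRing K') (v' : α → K') (w' : β → K'),
      Language.ring.ElementarilyEquivalent K K' ∧ EE v v' ∧
      ∀ R : ∀ (K : Type) [Field K], (α → K) → (β → K) → Prop,
        UD (α ⊕ β) (fun K _ u => R K (fun a => u (Sum.inl a)) (fun b => u (Sum.inr b))) →
        (∃ N, ∀ n ≥ N, R K v (w n)) → R K' v' w' := by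
  obtain ⟨K', i1, i2, u, hee, hu⟩ := comp K (α := α ⊕ β) (fun n => Sum.elim v (w n))
  refine ⟨K', i1, i2, fun a => u (Sum.inl a), fun b => u (Sum.inr b), hee, fun R hR => ?_,
    fun R hR h => hu _ hR h⟩
  have h1 : ∀ R : ∀ (K : Type) [Field K], (α → K) → Prop, UD α R → R K v →
      R K' (fun a => u (Sum.inl a)) := by
    intro R hR h
    refine hu (fun K _ u => R K (fun a => u (Sum.inl a))) ?_ ⟨0, fun n _ => h⟩
    exact UD.subst hR (g := fun a K _ w => w (Sum.inl a)) fun a => UT.var _
  constructor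
  · exact h1 R hR
  · intro h
    by_contra hcon
    exact h1 (fun K _ v => ¬ R K v) hR.not hcon h

section

variable {K : Type} [Field K]

/-- The valuation rings `O` and `O'` are separated at the level `p`. -/
def Inc (p : K) (O O' : ValuationSubring K) : Prop :=
  ∃ x, x ≠ 0 ∧ O.valuation x < O.valuation p ∧ O'.valuation x⁻¹ < O'.valuation p

theorem Inc.symm {p : K} {O O' : ValuationSubring K} (h : Inc p O O') : Inc p O' O := by
  obtain ⟨x, hx, h1, h2⟩ := h
  exact ⟨x⁻¹, inv_ne_zero hx, h2, by rwa [inv_inv]⟩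

theorem not_inc_one {p : K} (hp : p ≠ 0) {O O' : ValuationSubring K} (h1 : O.valuation p < 1)
    (h1' : O'.valuation p < 1) (h : ¬ Inc p O O') {x : K}
    (hx : O.valuation x ≤ O.valuation p) : O'.valuation x < 1 := by
  by_contra hcon
  push Not at hcon
  have hx0 : x ≠ 0 := by
    rintro rfl
    rw [map_zero] at hcon
    exact absurd hcon (not_le.mpr zero_lt_one)
  apply h
  have hp1 : O.valuation p ≠ 0 := (Valuation.ne_zero_iff _).mpr hp
  have hp2 : O'.valuation p ≠ 0 := (Valuation.ne_zero_iff _).mpr hp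
  refine ⟨x ^ 4 * (p ^ 2)⁻¹, mul_ne_zero (pow_ne_zero _ hx0) (inv_ne_zero (pow_ne_zero _ hp)),
    ?_, ?_⟩
  · rw [map_mul, map_pow, map_inv₀, map_pow]
    calc O.valuation x ^ 4 * (O.valuation p ^ 2)⁻¹
        ≤ O.valuation p ^ 4 * (O.valuation p ^ 2)⁻¹ := by gcongr
      _ = O.valuation p ^ 2 := by
        rw [show (4 : ℕ) = 2 + 2 from rfl, pow_add, mul_assoc, mul_inv_cancel₀ (pow_ne_zero _ hp1),
          mul_one]
      _ < O.valuation p := by
        rw [pow_two]
        exact mul_lt_of_lt_one_left (zero_lt_iff.mpr hp1) h1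
  · rw [mul_inv, inv_inv, map_mul, map_inv₀, map_pow, map_pow]
    calc (O'.valuation x ^ 4)⁻¹ * O'.valuation p ^ 2 ≤ 1 * O'.valuation p ^ 2 := by
          gcongr
          exact inv_le_one_of_one_le₀ (one_le_pow₀ hcon)
      _ = O'.valuation p ^ 2 := one_mul _
      _ < O'.valuation p := by
        rw [pow_two]
        exact mul_lt_of_lt_one_left (zero_lt_iff.mpr hp2) h1'

theorem not_inc_two {p : K} (hp : p ≠ 0) {Q O O' : ValuationSubring K} (h1 : Q.valuation p < 1)
    (h2 : O.valuation p < 1) (h3 : O'.valuation p < 1) (h : ¬ Inc p Q O) (h' : ¬ Inc p O' Q)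
    {x : K} (hx : 1 ≤ O.valuation x) (hx' : O'.valuation x ≤ O'.valuation p) : False := by
  have hp1 : Q.valuation p ≠ 0 := (Valuation.ne_zero_iff _).mpr hp
  have hp3 : O'.valuation p ≠ 0 := (Valuation.ne_zero_iff _).mpr hp
  have h4 : Q.valuation (x ^ 2 * p⁻¹) < 1 := by
    apply not_inc_one hp h3 h1 h'
    rw [map_mul, map_pow, map_inv₀]
    calc O'.valuation x ^ 2 * (O'.valuation p)⁻¹
        ≤ O'.valuation p ^ 2 * (O'.valuation p)⁻¹ := by gcongr
      _ = O'.valuation p := by
        rw [pow_two, mul_assoc, mul_inv_cancel₀ hp3, mul_one]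
  have h5 : Q.valuation (x ^ 2) ≤ Q.valuation p := by
    have e : x ^ 2 = x ^ 2 * p⁻¹ * p := by field_simp
    rw [e, map_mul]
    exact mul_le_of_le_one_left' h4.le
  have h6 := not_inc_one hp h1 h2 h h5
  rw [map_pow] at h6
  exact absurd h6 (not_lt.mpr (one_le_pow₀ hx))

end

section

variable {α : Type} (E : ∀ (K : Type) [Field K], (α → K) → Set K)
  (p : ∀ (K : Type) [Field K], (α → K) → K)

/-- The valuation rings which contain the given set and in which the given element is not
invertible. -/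
def VV (K : Type) [Field K] (v : α → K) : Set (ValuationSubring K) :=
  {O | (∀ x ∈ E K v, x ∈ O) ∧ O.valuation (p K v) < 1}

/-- Strong conditions. -/
def Jp {r : ℕ} (i : Fin r) (K : Type) [Field K] (v : α → K)
    (y : (Fin r × Fin r) × Bool → K) : Unit ⊕ (Fin r × Bool) → K
  | Sum.inl _ => p K v
  | Sum.inr (j, false) => if j = i then p K v else y ((i, j), false)
  | Sum.inr (j, true) => if j = i then p K v else y ((j, i), true)

/-- Weak conditions. -/
def Jw {r : ℕ} (i : Fin r) (K : Type) [Field K] (v : α → K)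
    (y : (Fin r × Fin r) × Bool → K) : Unit ⊕ (Fin r × Bool) → K
  | Sum.inl _ => p K v
  | Sum.inr (j, false) => if j = i then p K v else p K v * y ((i, j), false)
  | Sum.inr (j, true) => if j = i then p K v else p K v * y ((j, i), true)

/-- The inverses of the elements in the weak conditions. -/
def Jz {r : ℕ} (i : Fin r) (K : Type) [Field K] (v : α → K)
    (y : (Fin r × Fin r) × Bool → K) : Fin r × Bool → K
  | (j, false) => p K v * y ((i, j), true)
  | (j, true) => p K v * y ((j, i), false)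

variable {E p}

theorem UT_Jp (hp : UT α p) {r : ℕ} (i : Fin r) (t : Unit ⊕ (Fin r × Bool)) :
    UT (α ⊕ ((Fin r × Fin r) × Bool))
      (fun K _ w => Jp p i K (fun a => w (Sum.inl a)) (fun b => w (Sum.inr b)) t) := by
  rcases t with _ | ⟨j, _ | _⟩
  · exact hp.comp Sum.inl
  · by_cases h : j = i
    · simp only [Jp, h, if_true]
      exact hp.comp Sum.inl
    · simp only [Jp, h, if_false]
      exact UT.var _
  · by_cases h : j = i
    · simp only [Jp, h, if_true]
      exact hp.comp Sum.inl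
    · simp only [Jp, h, if_false]
      exact UT.var _

theorem UT_Jw (hp : UT α p) {r : ℕ} (i : Fin r) (t : Unit ⊕ (Fin r × Bool)) :
    UT (α ⊕ ((Fin r × Fin r) × Bool))
      (fun K _ w => Jw p i K (fun a => w (Sum.inl a)) (fun b => w (Sum.inr b)) t) := by
  rcases t with _ | ⟨j, _ | _⟩
  · exact hp.comp Sum.inl
  · by_cases h : j = i
    · simp only [Jw, h, if_true]
      exact hp.comp Sum.inl
    · simp only [Jw, h, if_false]
      exact (hp.comp Sum.inl).mul (UT.var _)
  · by_cases h : j = i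
    · simp only [Jw, h, if_true]
      exact hp.comp Sum.inl
    · simp only [Jw, h, if_false]
      exact (hp.comp Sum.inl).mul (UT.var _)

theorem UT_Jz (hp : UT α p) {r : ℕ} (i : Fin r) (t : Fin r × Bool) :
    UT (α ⊕ ((Fin r × Fin r) × Bool))
      (fun K _ w => Jz p i K (fun a => w (Sum.inl a)) (fun b => w (Sum.inr b)) t) := by
  rcases t with ⟨j, _ | _⟩
  · exact (hp.comp Sum.inl).mul (UT.var _)
  · exact (hp.comp Sum.inl).mul (UT.var _)

variable (E p)

/-- The bound. -/
def VMax (r : ℕ) (K : Type) [Field K] [CompatibleRing K] (v : α → K) : Prop :=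
  ∀ (K' : Type) [Field K'] [CompatibleRing K'] (v' : α → K'),
    Language.ring.ElementarilyEquivalent K K' → EE v v' →
    ∀ O : Fin r → ValuationSubring K', (∀ i, O i ∈ VV E p K' v') →
      ¬ Pairwise fun i j => Inc (p K' v') (O i) (O j)

/-- The conditions on the parameters. -/
def Gd (r : ℕ) (K : Type) [Field K] (v : α → K) (y : (Fin r × Fin r) × Bool → K) : Prop :=
  (∀ i j : Fin r, i ≠ j → p K v * y ((i, j), false) * (p K v * y ((i, j), true)) = 1) ∧
  ∀ i n, ¬ NC (E K v ∪ Set.range (Jp p i K v y)) (Jp p i K v y) n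

theorem exists_vmax {K : Type} [Field K] [CompatibleRing K] {v : α → K}
    (hv : ∃ N, VMax E p N K v) :
    ∃ r, VMax E p (r + 1) K v ∧ ∃ (K' : Type) (_ : Field K') (_ : CompatibleRing K')
      (v' : α → K'), Language.ring.ElementarilyEquivalent K K' ∧ EE v v' ∧
      ∃ O : Fin r → ValuationSubring K', (∀ i, O i ∈ VV E p K' v') ∧
        Pairwise fun i j => Inc (p K' v') (O i) (O j) := by
  classical
  set N := Nat.find hv with hN
  have h1 := Nat.find_spec hv
  rw [← hN] at h1
  have h0 : N ≠ 0 := by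
    intro h0
    rw [h0] at h1
    exact h1 K v rfl (EE.refl v) (fun i => i.elim0) (fun i => i.elim0) (fun i => i.elim0)
  obtain ⟨r, hr⟩ := Nat.exists_eq_succ_of_ne_zero h0
  have h2 := Nat.find_min hv (m := r) (by omega)
  rw [hr] at h1
  refine ⟨r, h1, ?_⟩
  rw [VMax] at h2
  push Not at h2
  obtain ⟨K', i1, i2, v', h3, h4, O, h5, h6⟩ := h2
  exact ⟨K', i1, i2, v', h3, h4, O, h5, h6⟩

theorem exists_gd {K : Type} [Field K] {v : α → K} (hp0 : p K v ≠ 0) {r : ℕ}
    {O : Fin r → ValuationSubring K} (hO : ∀ i, O i ∈ VV E p K v)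
    (hpw : Pairwise fun i j => Inc (p K v) (O i) (O j)) :
    ∃ y, Gd E p r K v y := by
  classical
  have hx : ∀ t : Fin r × Fin r, ∃ x : K, t.1 ≠ t.2 → (x ≠ 0 ∧
      (O t.1).valuation x < (O t.1).valuation (p K v) ∧
      (O t.2).valuation x⁻¹ < (O t.2).valuation (p K v)) := by
    intro t
    by_cases h : t.1 = t.2
    · exact ⟨0, fun h' => absurd h h'⟩
    · obtain ⟨x, hx⟩ := hpw h
      exact ⟨x, fun _ => hx⟩
  choose x hx using hx
  have key : ∀ (V : ValuationSubring K) (z : K), V.valuation z < V.valuation (p K v) →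
      V.valuation (z * (p K v)⁻¹) < 1 := by
    intro V z hz
    have hp1 : V.valuation (p K v) ≠ 0 := (Valuation.ne_zero_iff _).mpr hp0
    rw [map_mul, map_inv₀, ← div_eq_mul_inv, div_lt_one₀ (zero_lt_iff.mpr hp1)]
    exact hz
  refine ⟨fun t => if t.2 then (x t.1)⁻¹ * (p K v)⁻¹ else x t.1 * (p K v)⁻¹, ?_, ?_⟩
  · intro i j hij
    have h1 := (hx (i, j) hij).1
    simp only [if_true, Bool.false_eq_true, if_false]
    field_simp
  · intro i n
    have hsm : ∀ t, (O i).valuation (Jp p i K v
        (fun t => if t.2 then (x t.1)⁻¹ * (p K v)⁻¹ else x t.1 * (p K v)⁻¹) t) < 1 := by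
      rintro (_ | ⟨j, _ | _⟩)
      · exact (hO i).2
      · by_cases h : j = i
        · simp only [Jp, h, if_true]
          exact (hO i).2
        · simp only [Jp, h, if_false, Bool.false_eq_true]
          exact key _ _ (hx (i, j) (Ne.symm h)).2.1
      · by_cases h : j = i
        · simp only [Jp, h, if_true]
          exact (hO i).2
        · simp only [Jp, h, if_false, if_true]
          exact key _ _ (hx (j, i) h).2.2
    refine not_NC (O := O i) ?_ hsm n
    rintro z (hz | ⟨t, rfl⟩)
    · exact (hO i).1 z hz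
    · exact (ValuationSubring.valuation_le_one_iff _ _).mp (hsm t).le

theorem star2 {K : Type} [Field K] {v : α → K} (hp0 : p K v ≠ 0) {r : ℕ}
    (hmax : ∀ O : Fin (r + 1) → ValuationSubring K, (∀ i, O i ∈ VV E p K v) →
      ¬ Pairwise fun i j => Inc (p K v) (O i) (O j))
    {y : (Fin r × Fin r) × Bool → K} (hy : Gd E p r K v y) :
    ∃ Q : Fin r → ValuationSubring K, (∀ i, Q i ∈ VV E p K v) ∧
      ∀ O ∈ VV E p K v, ∃ i, ¬ Inc (p K v) (Q i) O ∧
        (∀ t, O.valuation (Jw p i K v y t) < 1) ∧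
        ∀ l, (∀ t, O.valuation (Jw p l K v y t) < 1) → l = i := by
  classical
  have hQ : ∀ i, ∃ Q : ValuationSubring K,
      (∀ x ∈ E K v ∪ Set.range (Jp p i K v y), x ∈ Q) ∧
      ∀ t, Q.valuation (Jp p i K v y t) < 1 := fun i =>
    chev (fun t => Or.inr ⟨t, rfl⟩) (hy.2 i)
  choose Q hQ1 hQ2 using hQ
  have hQV : ∀ i, Q i ∈ VV E p K v := fun i =>
    ⟨fun x hx => hQ1 i x (Or.inl hx), hQ2 i (Sum.inl ())⟩
  have hu : ∀ i j, j ≠ i → (Q i).valuation (y ((i, j), false)) < 1 := by
    intro i j h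
    have := hQ2 i (Sum.inr (j, false))
    simpa only [Jp, h, if_false] using this
  have hw : ∀ i j, j ≠ i → (Q i).valuation (y ((j, i), true)) < 1 := by
    intro i j h
    have := hQ2 i (Sum.inr (j, true))
    simpa only [Jp, h, if_false] using this
  have hmulp : ∀ (V : ValuationSubring K) (z : K), V.valuation z < 1 →
      V.valuation (p K v * z) < V.valuation (p K v) := by
    intro V z hz
    have hp1 : V.valuation (p K v) ≠ 0 := (Valuation.ne_zero_iff _).mpr hp0
    rw [map_mul]
    exact mul_lt_of_lt_one_right (zero_lt_iff.mpr hp1) hz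
  have hinv : ∀ i j : Fin r, i ≠ j →
      (p K v * y ((i, j), false))⁻¹ = p K v * y ((i, j), true) := by
    intro i j hij
    exact inv_eq_of_mul_eq_one_right (hy.1 i j hij)
  have hinc : Pairwise fun i j => Inc (p K v) (Q i) (Q j) := by
    intro i j hij
    refine ⟨p K v * y ((i, j), false), ?_, hmulp _ _ (hu i j (Ne.symm hij)), ?_⟩
    · intro h0
      have := hy.1 i j hij
      rw [h0, zero_mul] at this
      exact zero_ne_one this
    · rw [hinv i j hij]
      exact hmulp _ _ (hw j i hij)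
  refine ⟨Q, hQV, fun O hO => ?_⟩
  have hex : ∃ i, ¬ Inc (p K v) (Q i) O := by
    by_contra hcon
    push Not at hcon
    refine hmax (Fin.cons O Q) (fun i => ?_) ?_
    · refine Fin.cases ?_ (fun j => ?_) i
      · simpa using hO
      · simpa using hQV j
    · intro i j
      refine Fin.cases ?_ (fun i' => ?_) i
      · refine Fin.cases ?_ (fun j' => ?_) j
        · intro h
          exact absurd rfl h
        · intro _
          simpa using (hcon j').symm
      · refine Fin.cases ?_ (fun j' => ?_) j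
        · intro _
          simpa using hcon i'
        · intro h
          simpa using hinc (fun h' => h (by rw [h']))
  obtain ⟨i, hi⟩ := hex
  have hweak : ∀ l, ¬ Inc (p K v) (Q l) O → ∀ t, O.valuation (Jw p l K v y t) < 1 := by
    intro l hl t
    rcases t with _ | ⟨j, _ | _⟩
    · exact hO.2
    · by_cases h : j = l
      · simp only [Jw, h, if_true]
        exact hO.2
      · simp only [Jw, h, if_false]
        exact not_inc_one hp0 (hQV l).2 hO.2 hl (hmulp _ _ (hu l j h)).le
    · by_cases h : j = l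
      · simp only [Jw, h, if_true]
        exact hO.2
      · simp only [Jw, h, if_false]
        exact not_inc_one hp0 (hQV l).2 hO.2 hl (hmulp _ _ (hw l j h)).le
  refine ⟨i, hi, hweak i hi, fun l hl => ?_⟩
  by_contra hne
  have h1 := hl (Sum.inr (i, false))
  simp only [Jw, Ne.symm hne, if_false] at h1
  have h2 := hweak i hi (Sum.inr (l, true))
  simp only [Jw, hne, if_false] at h2
  rw [← hinv l i hne, map_inv₀] at h2
  exact absurd h2 (not_lt.mpr ((one_le_inv₀ (by
    rw [zero_lt_iff, Valuation.ne_zero_iff]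
    intro h0
    have := hy.1 l i hne
    rw [h0, zero_mul] at this
    exact zero_ne_one this)).mpr h1.le))

/-- The extended conditions. -/
def NX {r : ℕ} (i : Fin r) (K : Type) [Field K] (v : α → K) (y : (Fin r × Fin r) × Bool → K)
    (z : K) (n : ℕ) : Prop :=
  NC (E K v ∪ Set.range (Sum.elim (Jw p i K v y) (fun _ : Unit => z)))
    (Sum.elim (Jw p i K v y) (fun _ : Unit => z)) n

/-- The covering condition. -/
def NZ {r : ℕ} (s : Fin r → Fin r × Bool) (K : Type) [Field K] (v : α → K)
    (y : (Fin r × Fin r) × Bool → K) (n : ℕ) : Prop :=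
  NC (E K v ∪ Set.range (Sum.elim (fun _ : Unit => p K v) (fun i => Jz p i K v y (s i))))
    (fun _ : Unit => p K v) n

variable (t : ∀ (K : Type) [Field K], (α → K) → K → K)

/-- The final conditions. -/
def Fin1 (r n : ℕ) (K : Type) [Field K] (v : α → K) (y : (Fin r × Fin r) × Bool → K) : Prop :=
  (∀ i j : Fin r, i ≠ j → p K v * y ((i, j), false) * (p K v * y ((i, j), true)) = 1) ∧
  (∀ s : {s : Fin r → Fin r × Bool // ∀ i, (s i).1 ≠ i}, NZ E p s.1 K v y n) ∧
  ∀ i : Fin r, ∀ x : K, ∀ x' : K, x * x' = 1 → NX E p i K v y x' n ∨ NX E p i K v y (t K v x) n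

variable {E p t}

theorem UD_NX (hE : UDS α E) (hp : UT α p) {r : ℕ} (i : Fin r) (n : ℕ) {γ : Type}
    {g : α → ∀ (K : Type) [Field K], (γ → K) → K} (hg : ∀ a, UT γ (g a))
    {h : (Fin r × Fin r) × Bool → ∀ (K : Type) [Field K], (γ → K) → K} (hh : ∀ b, UT γ (h b))
    {f : ∀ (K : Type) [Field K], (γ → K) → K} (hf : UT γ f) :
    UD γ (fun K _ w => NX E p i K (fun a => g a K w) (fun b => h b K w) (f K w) n) := by
  have h0 : UDS (α ⊕ ((Fin r × Fin r) × Bool) ⊕ Unit) (fun K _ w => E K (fun a => w (Sum.inl a)) ∪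
      Set.range (Sum.elim (Jw p i K (fun a => w (Sum.inl a)) (fun b => w (Sum.inr (Sum.inl b))))
        (fun _ : Unit => w (Sum.inr (Sum.inr ()))))) := by
    refine UDS.union (hE.comp fun a => UT.var _) (UDS_range fun t => ?_)
    rcases t with t | _
    · have := (UT_Jw hp i t).comp (β := α ⊕ ((Fin r × Fin r) × Bool) ⊕ Unit)
        (Sum.elim Sum.inl (fun b => Sum.inr (Sum.inl b)))
      exact this
    · exact UT.var _
  have h1 : UD (α ⊕ ((Fin r × Fin r) × Bool) ⊕ Unit) (fun K _ w => NX E p i K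
      (fun a => w (Sum.inl a)) (fun b => w (Sum.inr (Sum.inl b))) (w (Sum.inr (Sum.inr ()))) n) := by
    refine UD_NC h0 (fun t => ?_) n
    rcases t with t | _
    · have := (UT_Jw hp i t).comp (β := α ⊕ ((Fin r × Fin r) × Bool) ⊕ Unit)
        (Sum.elim Sum.inl (fun b => Sum.inr (Sum.inl b)))
      exact this
    · exact UT.var _
  exact h1.subst (g := Sum.elim g (Sum.elim h (fun _ => f)))
    (by rintro (a | b | _); exacts [hg a, hh b, hf])

theorem UD_NZ (hE : UDS α E) (hp : UT α p) {r : ℕ} (s : Fin r → Fin r × Bool) (n : ℕ) :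
    UD (α ⊕ ((Fin r × Fin r) × Bool)) (fun K _ w =>
      NZ E p s K (fun a => w (Sum.inl a)) (fun b => w (Sum.inr b)) n) := by
  refine UD_NC (UDS.union (hE.comp fun a => UT.var _) (UDS_range fun t => ?_))
    (fun _ => hp.comp Sum.inl) n
  rcases t with _ | i
  · exact hp.comp Sum.inl
  · exact UT_Jz hp i (s i)

theorem UD_Fin1 (hE : UDS α E) (hp : UT α p)
    (ht : UT (α ⊕ Unit) (fun K _ w => t K (fun a => w (Sum.inl a)) (w (Sum.inr ())))) (r n : ℕ) :
    UD (α ⊕ ((Fin r × Fin r) × Bool)) (fun K _ w =>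
      Fin1 E p t r n K (fun a => w (Sum.inl a)) (fun b => w (Sum.inr b))) := by
  refine UD.and (UD.all_fin fun i => UD.all_fin fun j => ?_)
    (UD.and (UD.all_fin fun s => UD_NZ hE hp s.1 n) (UD.all_fin fun i => ?_))
  · by_cases h : i = j
    · refine (UD.eq (α := α ⊕ ((Fin r × Fin r) × Bool)) UT.zero UT.zero).congr fun K _ v => ?_
      exact ⟨fun _ h' => absurd h h', fun _ => rfl⟩
    · refine (UD.eq (((hp.comp Sum.inl).mul (UT.var (Sum.inr ((i, j), false)))).mul
        ((hp.comp Sum.inl).mul (UT.var (Sum.inr ((i, j), true))))) UT.one).congr fun K _ v => ?_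
      exact ⟨fun h' _ => h', fun h' => h' h⟩
  · apply UD.all1
    apply UD.all1
    refine UD.imp (UD.eq ((UT.var (Sum.inl (Sum.inr ()))).mul (UT.var (Sum.inr ()))) UT.one)
      (UD.or ?_ ?_)
    · exact UD_NX hE hp i n (g := fun a K _ w => w (Sum.inl (Sum.inl (Sum.inl a))))
        (fun a => UT.var _) (h := fun b K _ w => w (Sum.inl (Sum.inl (Sum.inr b))))
        (fun b => UT.var _) (UT.var (Sum.inr ()))
    · refine UD_NX hE hp i n (g := fun a K _ w => w (Sum.inl (Sum.inl (Sum.inl a))))
        (fun a => UT.var _) (h := fun b K _ w => w (Sum.inl (Sum.inl (Sum.inr b))))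
        (fun b => UT.var _) (f := fun K _ w =>
          t K (fun a => w (Sum.inl (Sum.inl (Sum.inl a)))) (w (Sum.inl (Sum.inr ())))) ?_
      exact ht.comp (Sum.elim (fun a => Sum.inl (Sum.inl (Sum.inl a)))
        (fun _ => Sum.inl (Sum.inr ())))

end

end Pool.Agent.Q175.NF
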