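import Pool.Agent.Q175.NF.Sq

/-!
# Uniformly definable relations on fields, and a compactness principle
-/

set_option autoImplicit false

open FirstOrder FirstOrder.Language FirstOrder.Ring

namespace Pool.Agent.Q175.NF

/-- Uniformly definable terms. -/
def UT (α : Type) (f : ∀ (K : Type) [Field K], (α → K) → K) : Prop :=
  ∃ t : Language.ring.Term α, ∀ (K : Type) [Field K] [CompatibleRing K] (v : α → K),
    t.realize v = f K v

/-- Uniformly definable relations. -/
def UD (α : Type) (R : ∀ (K : Type) [Field K], (α → K) → Prop) : Prop :=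
  ∃ φ : Language.ring.Formula α, ∀ (K : Type) [Field K] [CompatibleRing K] (v : α → K),
    φ.Realize v ↔ R K v

section

variable {α β : Type}

theorem UT.var (a : α) : UT α (fun _ _ v => v a) := ⟨Term.var a, fun _ _ _ _ => rfl⟩

theorem UT.zero : UT α (fun _ _ _ => 0) := ⟨0, fun _ _ _ v => realize_zero v⟩

theorem UT.one : UT α (fun _ _ _ => 1) := ⟨1, fun _ _ _ v => realize_one v⟩

theorem UT.add {f g : ∀ (K : Type) [Field K], (α → K) → K} (hf : UT α f) (hg : UT α g) :
    UT α (fun K _ v => f K v + g K v) := by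
  obtain ⟨t, ht⟩ := hf
  obtain ⟨s, hs⟩ := hg
  exact ⟨t + s, fun K _ _ v => by rw [realize_add, ht, hs]⟩

theorem UT.mul {f g : ∀ (K : Type) [Field K], (α → K) → K} (hf : UT α f) (hg : UT α g) :
    UT α (fun K _ v => f K v * g K v) := by
  obtain ⟨t, ht⟩ := hf
  obtain ⟨s, hs⟩ := hg
  exact ⟨t * s, fun K _ _ v => by rw [realize_mul, ht, hs]⟩

theorem UT.neg {f : ∀ (K : Type) [Field K], (α → K) → K} (hf : UT α f) :
    UT α (fun K _ v => - f K v) := by
  obtain ⟨t, ht⟩ := hf
  exact ⟨-t, fun K _ _ v => by rw [realize_neg, ht]⟩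

theorem UT.sub {f g : ∀ (K : Type) [Field K], (α → K) → K} (hf : UT α f) (hg : UT α g) :
    UT α (fun K _ v => f K v - g K v) := by
  simp only [sub_eq_add_neg]
  exact hf.add hg.neg

theorem UT.nat (n : ℕ) : UT α (fun _ _ _ => (n : _)) := by
  induction n with
  | zero =>
    simp only [Nat.cast_zero]
    exact UT.zero
  | succ n ih =>
    simp only [Nat.cast_succ]
    exact ih.add UT.one

theorem UT.int (n : ℤ) : UT α (fun _ _ _ => (n : _)) := by
  cases n with
  | ofNat n =>
    simp only [Int.ofNat_eq_natCast, Int.cast_natCast]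
    exact UT.nat n
  | negSucc n =>
    simp only [Int.cast_negSucc]
    exact (UT.nat (n + 1)).neg

theorem UT.pow {f : ∀ (K : Type) [Field K], (α → K) → K} (hf : UT α f) (n : ℕ) :
    UT α (fun K _ v => f K v ^ n) := by
  induction n with
  | zero =>
    simp only [pow_zero]
    exact UT.one
  | succ n ih =>
    simp only [pow_succ]
    exact ih.mul hf

theorem UT.sum {ι : Type} (s : Finset ι) {f : ι → ∀ (K : Type) [Field K], (α → K) → K}
    (hf : ∀ i, UT α (f i)) : UT α (fun K _ v => ∑ i ∈ s, f i K v) := by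
  classical
  induction s using Finset.induction_on with
  | empty =>
    simp only [Finset.sum_empty]
    exact UT.zero
  | insert i s hi ih =>
    simp only [Finset.sum_insert hi]
    exact (hf i).add ih

theorem UT.prod {ι : Type} (s : Finset ι) {f : ι → ∀ (K : Type) [Field K], (α → K) → K}
    (hf : ∀ i, UT α (f i)) : UT α (fun K _ v => ∏ i ∈ s, f i K v) := by
  classical
  induction s using Finset.induction_on with
  | empty =>
    simp only [Finset.prod_empty]
    exact UT.one
  | insert i s hi ih =>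
    simp only [Finset.prod_insert hi]
    exact (hf i).mul ih

theorem UD.eq {f g : ∀ (K : Type) [Field K], (α → K) → K} (hf : UT α f) (hg : UT α g) :
    UD α (fun K _ v => f K v = g K v) := by
  obtain ⟨t, ht⟩ := hf
  obtain ⟨s, hs⟩ := hg
  exact ⟨t.equal s, fun K _ _ v => by rw [Formula.realize_equal, ht, hs]⟩

theorem UD.not {R : ∀ (K : Type) [Field K], (α → K) → Prop} (h : UD α R) :
    UD α (fun K _ v => ¬ R K v) := by
  obtain ⟨φ, hφ⟩ := h
  exact ⟨φ.not, fun K _ _ v => by rw [Formula.realize_not, hφ]⟩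

theorem UD.and {R S : ∀ (K : Type) [Field K], (α → K) → Prop} (h : UD α R) (h' : UD α S) :
    UD α (fun K _ v => R K v ∧ S K v) := by
  obtain ⟨φ, hφ⟩ := h
  obtain ⟨ψ, hψ⟩ := h'
  exact ⟨φ ⊓ ψ, fun K _ _ v => by rw [Formula.realize_inf, hφ, hψ]⟩

theorem UD.congr {R S : ∀ (K : Type) [Field K], (α → K) → Prop} (h : UD α R)
    (hRS : ∀ (K : Type) [Field K] (v : α → K), R K v ↔ S K v) : UD α S := by
  obtain ⟨φ, hφ⟩ := h
  exact ⟨φ, fun K _ _ v => (hφ K v).trans (hRS K v)⟩

theorem UD.or {R S : ∀ (K : Type) [Field K], (α → K) → Prop} (h : UD α R) (h' : UD α S) :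
    UD α (fun K _ v => R K v ∨ S K v) := by
  obtain ⟨φ, hφ⟩ := h
  obtain ⟨ψ, hψ⟩ := h'
  exact ⟨φ ⊔ ψ, fun K _ _ v => by rw [Formula.realize_sup, hφ, hψ]⟩

theorem UD.imp {R S : ∀ (K : Type) [Field K], (α → K) → Prop} (h : UD α R) (h' : UD α S) :
    UD α (fun K _ v => R K v → S K v) := by
  obtain ⟨φ, hφ⟩ := h
  obtain ⟨ψ, hψ⟩ := h'
  exact ⟨φ.imp ψ, fun K _ _ v => by rw [Formula.realize_imp, hφ, hψ]⟩

theorem UD.all_fin {ι : Type} [Finite ι] {R : ι → ∀ (K : Type) [Field K], (α → K) → Prop}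
    (h : ∀ i, UD α (R i)) : UD α (fun K _ v => ∀ i, R i K v) := by
  choose φ hφ using h
  exact ⟨Formula.iInf φ, fun K _ _ v => by
    rw [Formula.realize_iInf]
    exact forall_congr' fun i => hφ i K v⟩

theorem UD.subst {R : ∀ (K : Type) [Field K], (α → K) → Prop} (h : UD α R)
    {g : α → ∀ (K : Type) [Field K], (β → K) → K} (hg : ∀ a, UT β (g a)) :
    UD β (fun K _ v => R K (fun a => g a K v)) := by
  obtain ⟨φ, hφ⟩ := h
  choose t ht using hg
  refine ⟨BoundedFormula.subst φ t, fun K _ _ v => ?_⟩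
  have h1 : (BoundedFormula.subst φ t).Realize v default ↔
      BoundedFormula.Realize φ (fun a => (t a).realize v) default :=
    BoundedFormula.realize_subst
  have h2 : (fun a => (t a).realize v) = fun a => g a K v := funext fun a => ht a K v
  rw [h2] at h1
  exact h1.trans (hφ K _)

theorem UT.comp {f : ∀ (K : Type) [Field K], (α → K) → K} (h : UT α f) (g : α → β) :
    UT β (fun K _ v => f K (fun a => v (g a))) := by
  obtain ⟨t, ht⟩ := h
  exact ⟨t.relabel g, fun K _ _ v => by
    rw [Term.realize_relabel]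
    exact ht K _⟩

theorem UD.ex [Finite β] {S : ∀ (K : Type) [Field K], (α → K) → (β → K) → Prop}
    (h : UD (α ⊕ β) (fun K _ w => S K (fun a => w (Sum.inl a)) (fun b => w (Sum.inr b)))) :
    UD α (fun K _ v => ∃ x : β → K, S K v x) := by
  obtain ⟨φ, hφ⟩ := h
  exact ⟨φ.iExs β, fun K _ _ v => by
    rw [Formula.realize_iExs]
    exact exists_congr fun x => hφ K _⟩

theorem UD.ex1 {S : ∀ (K : Type) [Field K], (α → K) → K → Prop}
    (h : UD (α ⊕ Unit) (fun K _ w => S K (fun a => w (Sum.inl a)) (w (Sum.inr ())))) :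
    UD α (fun K _ v => ∃ x : K, S K v x) := by
  have h1 : UD α (fun K _ v => ∃ x : Unit → K, S K v (x ())) := UD.ex h
  refine h1.congr fun K _ v => ?_
  exact ⟨fun ⟨x, hx⟩ => ⟨_, hx⟩, fun ⟨x, hx⟩ => ⟨fun _ => x, hx⟩⟩

theorem UD.all1 {S : ∀ (K : Type) [Field K], (α → K) → K → Prop}
    (h : UD (α ⊕ Unit) (fun K _ w => S K (fun a => w (Sum.inl a)) (w (Sum.inr ())))) :
    UD α (fun K _ v => ∀ x : K, S K v x) := by
  have h1 : UD α (fun K _ v => ∃ x : K, ¬ S K v x) := UD.ex1 h.not
  exact h1.not.congr fun K _ v => by push Not; rfl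

/-- Transfer of uniformly definable statements. -/
theorem UD.transfer {R : ∀ (K : Type) [Field K], Prop} (h : UD Empty (fun K _ _ => R K))
    {K K' : Type} [Field K] [CompatibleRing K] [Field K'] [CompatibleRing K']
    (hKK' : Language.ring.ElementarilyEquivalent K K') (hR : R K') : R K := by
  obtain ⟨φ, hφ⟩ := h
  have h1 : (K' ⊨ (φ : Language.ring.Sentence)) := (hφ K' default).mpr hR
  exact (hφ K default).mp ((elementarilyEquivalent_iff.mp hKK' φ).mpr h1)

open Filter in
/-- The compactness principle. -/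
theorem comp (K : Type) [Field K] [CompatibleRing K] (w : ℕ → α → K) :
    ∃ (K' : Type) (_ : Field K') (_ : CompatibleRing K') (w' : α → K'),
      Language.ring.ElementarilyEquivalent K K' ∧
      ∀ R : ∀ (K : Type) [Field K], (α → K) → Prop, UD α R →
        (∃ N, ∀ n ≥ N, R K (w n)) → R K' w' := by
  let u : Ultrafilter ℕ := hyperfilter ℕ
  let M : ℕ → Type := fun _ => K
  let K' : Type := (u : Filter ℕ).Product M
  have hee : Language.ring.ElementarilyEquivalent K K' := by
    rw [elementarilyEquivalent_iff]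
    intro φ
    have h1 := Ultraproduct.sentence_realize (M := M) (u := u) φ
    have h2 : (∀ᶠ a in (u : Filter ℕ), M a ⊨ φ) ↔ K ⊨ φ :=
      Filter.eventually_const (f := (u : Filter ℕ)) (p := K ⊨ φ)
    exact (h1.trans h2).symm
  have : Theory.field.Model K' := (ElementarilyEquivalent.theory_model_iff hee).mp inferInstance
  let i1 : Field K' := FirstOrder.Field.fieldOfModelField K'
  let i2 : CompatibleRing K' := FirstOrder.Field.compatibleRingOfModelField K'
  let w' : α → K' := fun a => ((fun n => w n a : ∀ n, M n) : (u : Filter ℕ).Product M)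
  refine ⟨K', i1, i2, w', hee, ?_⟩
  rintro R ⟨φ, hφ⟩ ⟨N, hN⟩
  refine (hφ K' w').mp ?_
  have h1 := (Ultraproduct.realize_formula_cast (M := M) (u := u) φ (fun a n => w n a)).mpr (by
    have h2 : ∀ᶠ n in (u : Filter ℕ), R K (w n) := by
      have h3 : ∀ᶠ n in (atTop : Filter ℕ), R K (w n) :=
        Filter.eventually_atTop.mpr ⟨N, hN⟩
      have h4 : (u : Filter ℕ) ≤ atTop := by
        rw [← Nat.cofinite_eq_atTop]
        exact Filter.hyperfilter_le_cofinite
      exact h4 h3
    exact h2.mono fun n hn => (hφ K (w n)).mpr hn)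
  exact h1

end

theorem UD_SS (n : ℕ) {α : Type} {f : ∀ (K : Type) [Field K], (α → K) → K} (hf : UT α f) :
    UD α (fun K _ v => SS n (f K v)) := by
  apply UD.ex
  exact UD.eq (hf.comp Sum.inl) (UT.sum _ fun i => (UT.var (Sum.inr i)).pow 2)

theorem UD_GG (n : ℕ) {α : Type} {f g : ∀ (K : Type) [Field K], (α → K) → K} (hf : UT α f)
    (hg : UT α g) : UD α (fun K _ v => GG n (f K v) (g K v)) := by
  apply UD.ex
  apply UD.ex
  exact UD.eq ((hg.comp Sum.inl).comp Sum.inl)
    ((UT.sum _ fun i => (UT.var (Sum.inl (Sum.inr i))).pow 2).add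
      (((hf.comp Sum.inl).comp Sum.inl).mul (UT.sum _ fun i => (UT.var (Sum.inr i)).pow 2)))

end Pool.Agent.Q175.NF
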