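import Pool.Agent.Q175.NF.VTop

/-!
# Discrete valuations with a residue field which is not separably closed are definable
-/

set_option autoImplicit false

open Polynomial FirstOrder FirstOrder.Ring

namespace Pool.Agent.Q175.NF

open Pool.Agent.W882.Nip3 Pool.Agent.TH686.NF

section

variable {K : Type} [Field K]

/-- The norm form of an unramified extension. -/
theorem exists_unram {Γ : Type} [LinearOrderedCommGroupWithZero Γ] (v : Valuation K Γ)
    (h : ¬ IsSepClosed (IsLocalRing.ResidueField v.valuationSubring)) :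
    ∃ (d : ℕ) (a : Fin d → K) (δ : K), 2 ≤ d ∧ (∀ k, v (a k) ≤ 1) ∧ v δ ≤ 1 ∧
      δ * nfm d a (der d a) = 1 ∧
      ∀ x : Fin d → K, nfm d a x = 0 ∨ ∃ c : K, c ≠ 0 ∧ v (nfm d a x) = v c ^ d := by
  classical
  obtain ⟨g, hg1, hg2, hg3, hg4⟩ : ∃ g : (IsLocalRing.ResidueField v.valuationSubring)[X],
      g.Monic ∧ Irreducible g ∧ g.Separable ∧ ∀ x, g.eval x ≠ 0 := by
    by_contra hcon
    push Not at hcon
    exact h (IsSepClosed.of_exists_root _ hcon)
  have hl : g ∈ lifts (IsLocalRing.residue v.valuationSubring) := by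
    rw [lifts_iff_coeff_lifts]
    intro n
    exact IsLocalRing.residue_surjective _
  obtain ⟨f, hf1, hf2, hf3⟩ := lifts_and_natDegree_eq_and_monic hl hg1
  have hd2 : 2 ≤ f.natDegree := by
    have h1 : 0 < g.natDegree := hg2.natDegree_pos
    by_contra hcon
    push Not at hcon
    have h2 : g.natDegree = 1 := by omega
    obtain ⟨x, hx⟩ := exists_root_of_degree_eq_one (degree_eq_iff_natDegree_eq_of_pos one_pos |>.mpr h2)
    exact hg4 x hx
  set d := f.natDegree with hd
  let a' : Fin d → v.valuationSubring := lowCoeff d f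
  have ha' : mpoly d a' = f := by
    ext n
    have : (mpoly d a').coeff n = f.coeff n := by
      rw [mpoly, coeff_add, coeff_X_pow, finsetSum_coeff]
      simp only [coeff_C_mul, coeff_X_pow]
      by_cases hn : n < d
      · rw [if_neg hn.ne, Finset.sum_eq_single ⟨n, hn⟩]
        · simp [a', lowCoeff]
        · intro b _ hb
          rw [if_neg, mul_zero]
          intro h
          apply hb
          ext
          exact h.symm
        · intro h
          exact absurd (Finset.mem_univ _) h
      · rw [Finset.sum_eq_zero, add_zero]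
        · by_cases hnd : n = d
          · rw [if_pos hnd, hnd, hd, hf3.coeff_natDegree]
          · rw [if_neg hnd, coeff_eq_zero_of_natDegree_lt (by omega)]
        · intro b _
          rw [if_neg, mul_zero]
          intro h
          exact hn (h ▸ b.2)
    rw [this]
  have hres : mpoly d (fun k => IsLocalRing.residue v.valuationSubring (a' k)) = g := by
    rw [← map_mpoly, ha', hf1]
  have hu : IsUnit (nfm d a' (der d a')) := by
    rw [← IsLocalRing.residue_ne_zero_iff_isUnit, ← nfm_map]
    have e : (fun i => IsLocalRing.residue v.valuationSubring (der d a' i)) =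
        der d (fun k => IsLocalRing.residue v.valuationSubring (a' k)) := by
      funext i
      exact (der_map _ d a' i).symm
    rw [e]
    apply nfm_of_separable
    rw [hres]
    exact hg3
  obtain ⟨u, hu⟩ := hu.exists_left_inv
  refine ⟨d, fun k => (a' k : K), (u : K), hd2, fun k => (a' k).2, u.2, ?_, fun x => ?_⟩
  · have h1 := congrArg (algebraMap v.valuationSubring K) hu
    rw [map_mul, map_one, ← nfm_map] at h1
    have e : (fun i => algebraMap v.valuationSubring K (der d a' i)) =
        der d (fun k => (a' k : K)) := by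
      funext i
      exact (der_map _ d a' i).symm
    rw [e] at h1
    exact h1
  · have hG : mpoly d (fun k => (a' k : K)) = f.map (algebraMap v.valuationSubring K) := by
      have := map_mpoly (algebraMap v.valuationSubring K) d a'
      rw [ha'] at this
      exact this.symm
    by_cases hz : (∑ i, x i • algBasis d (fun k => (a' k : K)) i) = 0
    · left
      have hfin : Module.Finite K (Alg d (fun k => (a' k : K))) :=
        (mpoly_monic d _).finite_adjoinRoot
      rw [← norm_eq_nfm, hz]
      have : Nontrivial (Alg d (fun k => (a' k : K))) := by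
        apply AdjoinRoot.nontrivial
        rw [degree_eq_natDegree (mpoly_monic d _).ne_zero, mpoly_natDegree]
        exact_mod_cast (by omega : d ≠ 0)
      exact Algebra.norm_zero
    · right
      obtain ⟨c, hc1, hc2⟩ := val_norm v f hf3 (by rw [hf1]; exact hg2) _ hG _ hz
      exact ⟨c, hc1, by rw [← norm_eq_nfm, hc2]⟩

end

/-- The elements which have to be integral, for discrete valuations. -/
def E2 (d : ℕ) (K : Type) [Field K] (v : Par d → K) : Set K :=
  E1 d K v ∪ {z | ∃ t : K, z * (t ^ 2 + v (Sum.inr 2)) = t + v (Sum.inr 2)}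

theorem UDS_E2 (d : ℕ) : UDS (Par d) (E2 d) := by
  refine UDS.union (UDS_E1 d) ?_
  apply UD.ex1
  exact UD.eq ((UT.var (Sum.inl (Sum.inr ()))).mul (((UT.var (Sum.inr ())).pow 2).add
    (UT.var (Sum.inl (Sum.inl (Sum.inr 2)))))) ((UT.var (Sum.inr ())).add
    (UT.var (Sum.inl (Sum.inl (Sum.inr 2)))))

theorem min_of_E2 {d : ℕ} {K : Type} [Field K] {v : Par d → K} {O : ValuationSubring K}
    (hO : ∀ z ∈ E2 d K v, z ∈ O) (hsq : ¬ ∃ t : K, t ^ 2 + v (Sum.inr 2) = 0) {t : K}
    (ht : O.valuation t < 1) : O.valuation t ≤ O.valuation (v (Sum.inr 2)) := by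
  by_contra hcon
  push Not at hcon
  have h0 : t ^ 2 + v (Sum.inr 2) ≠ 0 := fun h => hsq ⟨t, h⟩
  have hz : (t + v (Sum.inr 2)) / (t ^ 2 + v (Sum.inr 2)) ∈ O :=
    hO _ (Or.inr ⟨t, div_mul_cancel₀ _ h0⟩)
  rw [← ValuationSubring.valuation_le_one_iff, map_div₀] at hz
  have h1 : O.valuation (t + v (Sum.inr 2)) = O.valuation t :=
    Valuation.map_add_eq_of_lt_left _ hcon
  have ht0 : 0 < O.valuation t := lt_of_le_of_lt zero_le hcon
  have h2 : O.valuation (t ^ 2 + v (Sum.inr 2)) < O.valuation t := by
    refine Valuation.map_add_lt _ ?_ hcon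
    rw [map_pow, pow_two]
    exact mul_lt_of_lt_one_left ht0 ht
  have h3 : 0 < O.valuation (t ^ 2 + v (Sum.inr 2)) :=
    zero_lt_iff.mpr ((Valuation.ne_zero_iff _).mpr h0)
  rw [h1, div_le_one₀ h3] at hz
  exact absurd hz (not_le.mpr h2)

/-- Discrete valuations with a residue field which is not separably closed are definable. -/
theorem discrete_definable {K : Type} [Field K] [CompatibleRing K] (hK : Tame K)
    {V : ValuationSubring K} (hV : ¬ IsSepClosed (IsLocalRing.ResidueField V)) {ϖ : K}
    (h0 : ϖ ≠ 0) (h1 : V.valuation ϖ < 1)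
    (hmin : ∀ x, V.valuation x < 1 → V.valuation x ≤ V.valuation ϖ) :
    IsDefinable (V : Set K) := by
  have hV' : ¬ IsSepClosed (IsLocalRing.ResidueField V.valuation.valuationSubring) := by
    rw [ValuationSubring.valuationSubring_valuation]
    exact hV
  obtain ⟨d, a, δ, hd, ha, hδ, hδ1, hN⟩ := exists_unram V.valuation hV'
  have hϖ : 0 < V.valuation ϖ := zero_lt_iff.mpr ((Valuation.ne_zero_iff _).mpr h0)
  have hϖ2 : V.valuation ϖ ^ 2 < V.valuation ϖ := by
    rw [pow_two]
    exact mul_lt_of_lt_one_left hϖ h1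
  have hdiff : ∀ x : Fin d → K, V.valuation ϖ ≤ V.valuation (nfm d a x - ϖ) := by
    intro x
    rcases hN x with hx | ⟨c, hc0, hc⟩
    · rw [hx, zero_sub, Valuation.map_neg]
    · rcases lt_or_ge (V.valuation c) 1 with hc1 | hc1
      · have h2 : V.valuation (nfm d a x) < V.valuation ϖ := by
          rw [hc]
          calc V.valuation c ^ d ≤ V.valuation ϖ ^ d := pow_le_pow_left' (hmin c hc1) d
            _ ≤ V.valuation ϖ ^ 2 := pow_le_pow_right_of_le_one' h1.le hd
            _ < V.valuation ϖ := hϖ2
        rw [Valuation.map_sub_eq_of_lt_right _ h2]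
      · have h2 : 1 ≤ V.valuation (nfm d a x) := by
          rw [hc]
          exact one_le_pow₀ hc1
        rw [Valuation.map_sub_eq_of_lt_left _ (h1.trans_le h2)]
        exact h1.le.trans h2
  let v : Par d → K := Sum.elim a ![ϖ, δ, ϖ, ϖ⁻¹, ϖ]
  have hB : BR d K v := by
    refine ⟨mul_inv_cancel₀ h0, hδ1, ?_⟩
    rintro ⟨x, hx⟩
    have h2 := hdiff x
    have h3 : nfm d a x = ϖ := hx
    rw [h3, sub_self, map_zero] at h2
    exact absurd hϖ (not_lt.mpr h2)
  have hsq : ¬ ∃ t : K, t ^ 2 + ϖ = 0 := by
    rintro ⟨t, ht⟩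
    have h2 : V.valuation t ^ 2 = V.valuation ϖ := by
      rw [← map_pow, eq_neg_of_add_eq_zero_left ht, Valuation.map_neg]
    have h3 : V.valuation t < 1 := by
      by_contra hcon
      push Not at hcon
      have := one_le_pow₀ hcon (n := 2)
      rw [h2] at this
      exact absurd h1 (not_lt.mpr this)
    have h4 : V.valuation t ^ 2 ≤ V.valuation ϖ ^ 2 := pow_le_pow_left' (hmin t h3) 2
    rw [h2] at h4
    exact absurd hϖ2 (not_lt.mpr h4)
  have hle : ∀ z w : K, V.valuation w ≠ 0 → V.valuation (z * w) ≤ V.valuation w → z ∈ V := by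
    intro z w hw hzw
    rw [← ValuationSubring.valuation_le_one_iff]
    by_contra hcon
    push Not at hcon
    have h3 : V.valuation w < V.valuation z * V.valuation w :=
      lt_mul_of_one_lt_left (zero_lt_iff.mpr hw) hcon
    rw [← map_mul] at h3
    exact absurd hzw (not_le.mpr h3)
  have hϖV : ϖ ∈ V := (ValuationSubring.valuation_le_one_iff _ _).mp h1.le
  have hVV : V ∈ VV (E2 d) (fun _ _ v => v (Sum.inr 2)) K v := by
    refine ⟨?_, h1⟩
    rintro z ((⟨k, rfl⟩ | rfl | rfl | ⟨x, hx⟩) | ⟨t, ht⟩)
    · exact V.mul_mem _ _ hϖV ((ValuationSubring.valuation_le_one_iff _ _).mp (ha k))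
    · exact V.mul_mem _ _ hϖV hϖV
    · exact V.mul_mem _ _ hϖV ((ValuationSubring.valuation_le_one_iff _ _).mp hδ)
    · have hx' : z * (nfm d a x - ϖ) = ϖ := hx
      refine hle z (nfm d a x - ϖ) ?_ ?_
      · intro h3
        have h4 := hdiff x
        rw [h3] at h4
        exact absurd hϖ (not_lt.mpr h4)
      · rw [hx']
        exact hdiff x
    · have ht' : z * (t ^ 2 + ϖ) = t + ϖ := ht
      have hne : V.valuation (t ^ 2 + ϖ) ≠ 0 := (Valuation.ne_zero_iff _).mpr fun h => hsq ⟨t, h⟩
      refine hle z (t ^ 2 + ϖ) hne ?_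
      rw [ht']
      rcases lt_or_ge (V.valuation t) 1 with h2 | h2
      · have h3 := hmin t h2
        have h4 : V.valuation (t ^ 2) < V.valuation ϖ := by
          rw [map_pow]
          exact (pow_le_pow_left' h3 2).trans_lt hϖ2
        rw [Valuation.map_add_eq_of_lt_right _ h4]
        exact (V.valuation.map_add t ϖ).trans (max_le h3 le_rfl)
      · have h3 : V.valuation ϖ < V.valuation t := h1.trans_le h2
        have h4 : V.valuation t ≤ V.valuation (t ^ 2) := by
          rw [map_pow, pow_two]
          exact le_mul_of_one_le_left' h2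
        rw [Valuation.map_add_eq_of_lt_left _ h3,
          Valuation.map_add_eq_of_lt_left _ (h3.trans_le h4)]
        exact h4
  obtain ⟨S, hS1, hS2, hS3⟩ := definable_of_bound (E := E2 d)
    (p := fun _ _ v => v (Sum.inr 2)) (t := fun _ _ v x => v (Sum.inr 2) * x) (UDS_E2 d)
    (UT.var _) ((UT.var _).mul (UT.var _)) h0
    (exists_vmax_E (by omega) hK hB (fun _ _ _ => Set.subset_union_left)) (by
      intro K' _ v' hEE Q hQ O hO O' hO' hi hi' x hx0 hx hx'
      have hB' : BR d K' v' := (hEE (BR d) (UD_BR d)).mp hB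
      have hp' : v' (Sum.inr 2) ≠ 0 := left_ne_zero_of_mul_eq_one hB'.1
      have hsq' : ¬ ∃ t : K', t ^ 2 + v' (Sum.inr 2) = 0 := by
        refine (hEE (fun K _ v => ¬ ∃ t : K, t ^ 2 + v (Sum.inr 2) = 0) ?_).mp hsq
        apply UD.not
        apply UD.ex1
        exact UD.eq (((UT.var _).pow 2).add (UT.var _)) UT.zero
      refine not_inc_two hp' hQ.2 hO.2 hO'.2 hi hi' (x := v' (Sum.inr 2) * x) ?_
        (min_of_E2 hO'.1 hsq' hx')
      by_contra hcon
      push Not at hcon
      have h2 := min_of_E2 hO.1 hsq' hcon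
      have hp1 : 0 < O.valuation (v' (Sum.inr 2)) :=
        zero_lt_iff.mpr ((Valuation.ne_zero_iff _).mpr hp')
      have h3 : O.valuation x ≤ 1 := by
        by_contra hcon
        push Not at hcon
        rw [map_mul] at h2
        exact absurd h2 (not_le.mpr (lt_mul_of_one_lt_right hp1 hcon))
      rw [map_inv₀] at hx
      have hx1 : 0 < O.valuation x := zero_lt_iff.mpr ((Valuation.ne_zero_iff _).mpr hx0)
      exact absurd hx (not_lt.mpr ((one_le_inv₀ hx1).mpr h3))) V hVV
  have e : (V : Set K) = S := by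
    apply Set.Subset.antisymm
    · intro x hx
      by_contra hxS
      apply hS3 x hxS
      show V.valuation (ϖ * x) < 1
      rw [map_mul]
      exact mul_lt_one_of_nonneg_of_lt_one_left zero_le h1
        ((ValuationSubring.valuation_le_one_iff _ _).mpr hx)
    · exact hS2
  rw [e]
  exact hS1

end Pool.Agent.Q175.NF
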