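import Pool.Agent.Q175.NF.Star
import Pool.Agent.Q175.NF.Plc

/-!
# The preorderings `T + b_k T` are definable, and the number of squares is bounded
-/

set_option autoImplicit false

open FirstOrder FirstOrder.Ring

namespace Pool.Agent.Q175.NF

/-- The first-order condition on `b`. -/
def P3 (N : ℕ) (K : Type) [Field K] (b : K) : Prop :=
  ∀ x : K, GG N b x ∨ GG N b (x ^ 2 - 5) ∨ GG N b (1 - 4 * x)

theorem P3.mono {N M : ℕ} (h : N ≤ M) {K : Type} [Field K] {b : K} (hb : P3 N K b) :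
    P3 M K b := fun x => by
  rcases hb x with h1 | h1 | h1
  · exact Or.inl (h1.mono h)
  · exact Or.inr (Or.inl (h1.mono h))
  · exact Or.inr (Or.inr (h1.mono h))

theorem UD_P3 (N : ℕ) {α : Type} {f : ∀ (K : Type) [Field K], (α → K) → K} (hf : UT α f) :
    UD α (fun K _ v => P3 N K (f K v)) := by
  apply UD.all1
  have h1 : UT (α ⊕ Unit) (fun K _ w => f K (fun a => w (Sum.inl a))) := hf.comp Sum.inl
  have h2 : UT (α ⊕ Unit) (fun K _ w => w (Sum.inr ())) := UT.var _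
  have h3 : UT (α ⊕ Unit) (fun K _ w => w (Sum.inr ()) ^ 2 - 5) := by
    simpa using (h2.pow 2).sub (UT.nat 5)
  have h4 : UT (α ⊕ Unit) (fun K _ w => 1 - 4 * w (Sum.inr ())) := by
    simpa using UT.one.sub ((UT.nat 4).mul h2)
  exact (UD_GG N h1 h2).or ((UD_GG N h1 h3).or (UD_GG N h1 h4))

section

variable {K : Type} [Field K]

theorem no_three {Q P0 P1 P2 : Set K} (hQ : IsOrd Q) (h0 : IsOrd P0) (h1 : IsOrd P1)
    (h2 : IsOrd P2) (s0 : ¬ Sep Q P0) (s1 : ¬ Sep Q P1) (s2 : ¬ Sep Q P2) {x : K}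
    (x0 : x ∉ P0) (x1 : x ^ 2 - 5 ∉ P1) (x2 : 1 - 4 * x ∉ P2) : False := by
  have e0 : -x ∈ P0 := (h0.total x).resolve_left x0
  have e1 : 5 - x ^ 2 ∈ P1 := by
    have := (h1.total _).resolve_left x1
    rwa [neg_sub] at this
  have e2 : 4 * x - 1 ∈ P2 := by
    have := (h2.total _).resolve_left x2
    rwa [neg_sub] at this
  have b1 : ((3 : ℤ) : K) - x ∈ P1 ∧ ((3 : ℤ) : K) - -x ∈ P1 := by
    obtain ⟨_, _, hp⟩ := h1.exists_lo
    simp only [hp] at e1 ⊢
    push_cast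
    constructor <;> nlinarith
  have q1 : ((4 : ℕ) : K) + x ∈ Q := by
    rcases hQ.total (((4 : ℕ) : K) + x) with h | h
    · exact h
    · exfalso
      apply s1
      refine (cut h1 hQ (-x) 3 ?_ (c := 3) (d := 4) (by norm_num) b1.2 ?_).symm h1 hQ
      · have := b1.1
        push_cast at this ⊢
        rwa [← sub_eq_add_neg]
      · have e : -(((4 : ℕ) : K) + x) = -x - ((4 : ℤ) : K) := by
          push_cast
          ring
        rwa [e] at h
  have q2 : ((4 : ℕ) : K) - x ∈ Q := by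
    rcases hQ.total (((4 : ℕ) : K) - x) with h | h
    · exact h
    · exfalso
      apply s1
      refine (cut h1 hQ x 3 ?_ (c := 3) (d := 4) (by norm_num) b1.1 ?_).symm h1 hQ
      · have := b1.2
        push_cast at this ⊢
        rwa [sub_neg_eq_add] at this
      · have e : -(((4 : ℕ) : K) - x) = x - ((4 : ℤ) : K) := by
          push_cast
          ring
        rwa [e] at h
  have q3 : ((1 : ℤ) : K) - 8 * x ∈ Q := by
    rcases hQ.total (((1 : ℤ) : K) - 8 * x) with h | h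
    · exact h
    · exfalso
      apply s0
      refine cut hQ h0 (-(8 * x)) 32 ?_ (c := -1) (d := 0) (by norm_num) ?_ ?_
      · obtain ⟨_, _, hq⟩ := hQ.exists_lo
        rw [hq] at q2 ⊢
        push_cast at q2 ⊢
        linarith
      · have e : -(((1 : ℤ) : K) - 8 * x) = ((-1 : ℤ) : K) - -(8 * x) := by
          push_cast
          ring
        rwa [e] at h
      · obtain ⟨_, _, hq⟩ := h0.exists_lo
        rw [hq] at e0 ⊢
        push_cast
        linarith
  apply s2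
  refine cut hQ h2 (8 * x) 32 ?_ (c := 1) (d := 2) (by norm_num) q3 ?_
  · obtain ⟨_, _, hq⟩ := hQ.exists_lo
    rw [hq] at q1 ⊢
    push_cast at q1 ⊢
    linarith
  · obtain ⟨_, _, hq⟩ := h2.exists_lo
    rw [hq] at e2 ⊢
    push_cast
    linarith

theorem unit_small {P : Set K} (hP : IsOrd P) {N : ℕ} {b : K} (hb : b ∈ P) (h3 : P3 N K b) {x : K}
    (h1 : x - 1 ∈ P) (h2 : 2 - x ∈ P) : GG N b x := by
  have k1 : x ^ 2 - 5 ∉ P ∧ 1 - 4 * x ∉ P := by
    obtain ⟨_, _, hp⟩ := hP.exists_lo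
    simp only [hp] at h1 h2 ⊢
    constructor <;> intro h <;> nlinarith
  rcases h3 x with h | h | h
  · exact h
  · exact absurd (hP.GG hb h) k1.1
  · exact absurd (hP.GG hb h) k1.2

theorem unit_ge {P : Set K} (hP : IsOrd P) {n : ℕ} (hn : 2 ≤ n) {b : K} (hb : b ∈ P)
    (h3 : P3 (2 ^ n) K b) {x : K} {m : ℕ} (h1 : x - 1 ∈ P) (h2 : (m : K) - x ∈ P) :
    GG (2 ^ n) b x := by
  have h4 : 4 ≤ 2 ^ n := (by norm_num : 4 = 2 ^ 2) ▸ Nat.pow_le_pow_right two_pos hn
  have h0 : x ∈ P := by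
    have := hP.add _ h1 _ hP.pre.one
    rwa [sub_add_cancel] at this
  obtain ⟨z, hz1, hz2, hz3, hz4⟩ := exists_floor hP h0 h2
  have hz5 : 1 ≤ z := hz3 1 (by push_cast; exact h1)
  obtain ⟨k, hk⟩ := Int.eq_ofNat_of_zero_le (by linarith : 0 ≤ z)
  subst hk
  have hk1 : 1 ≤ k := by exact_mod_cast hz5
  have hk2 : (k : K) ≠ 0 := by
    have := hP.charZero
    exact_mod_cast (by omega : k ≠ 0)
  have h5 : GG (2 ^ n) b (x / k) := by
    apply unit_small hP hb h3
    · obtain ⟨_, _, hp⟩ := hP.exists_lo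
      simp only [hp] at *
      push_cast at hz1
      have : (0 : K) < k := by exact_mod_cast hk1
      rw [sub_nonneg, le_div_iff₀ this]
      linarith
    · obtain ⟨_, _, hp⟩ := hP.exists_lo
      simp only [hp] at *
      push_cast at hz2
      have h6 : (1 : K) ≤ k := by exact_mod_cast hk1
      rw [sub_nonneg, div_le_iff₀ (by linarith)]
      linarith
  have h6 := h5.mul (GG.nat h4 b k)
  rwa [div_mul_cancel₀ _ hk2] at h6

/-- All positive units of the natural valuation ring of `P` lie in the group. -/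
theorem unit_mem {P : Set K} (hP : IsOrd P) {n : ℕ} (hn : 2 ≤ n) {b : K} (hb : b ∈ P)
    (h3 : P3 (2 ^ n) K b) {x : K} {m : ℕ} (h0 : x ∈ P) (h1 : (m : K) - x ∈ P)
    (h2 : m * x - 1 ∈ P) : GG (2 ^ n) b x := by
  rcases hP.total (x - 1) with h | h
  · exact unit_ge hP hn hb h3 h h1
  · have h4 : GG (2 ^ n) b x⁻¹ := by
      apply unit_ge hP hn hb h3 (m := m)
      · obtain ⟨_, _, hp⟩ := hP.exists_lo
        simp only [hp] at *
        have hx : 0 < x := by
          rcases h0.lt_or_eq with h5 | h5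
          · exact h5
          · rw [← h5] at h2
            norm_num at h2
        rw [sub_nonneg, le_inv_comm₀ one_pos hx, inv_one]
        linarith
      · obtain ⟨_, _, hp⟩ := hP.exists_lo
        simp only [hp] at *
        have hx : 0 < x := by
          rcases h0.lt_or_eq with h5 | h5
          · exact h5
          · rw [← h5] at h2
            norm_num at h2
        rw [sub_nonneg, inv_le_iff_one_le_mul₀ hx]
        linarith
    have h5 := h4.inv
    rwa [inv_inv] at h5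

theorem add_closed {P : Set K} (hP : IsOrd P) {n : ℕ} {b : K} (hb : b ∈ P)
    (h3 : P3 (2 ^ n) K b) {x y : K} (hx : GG (2 ^ n) b x) (hy : GG (2 ^ n) b y) :
    GG (2 ^ n) b (x + y) := by
  wlog hxy : x - y ∈ P generalizing x y with H
  · rw [add_comm]
    apply H hy hx
    rcases hP.total (x - y) with h | h
    · exact absurd h hxy
    · rwa [neg_sub] at h
  by_cases hx0 : x = 0
  · subst hx0
    rwa [zero_add]
  have h1 : GG (2 ^ n) b (1 + y / x) := by
    have hx1 := hP.GG hb hx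
    have hy1 := hP.GG hb hy
    apply unit_small hP hb h3
    · obtain ⟨_, _, hp⟩ := hP.exists_lo
      simp only [hp] at *
      have : 0 ≤ y / x := div_nonneg hy1 hx1
      linarith
    · obtain ⟨_, _, hp⟩ := hP.exists_lo
      simp only [hp] at *
      have hx2 : 0 < x := lt_of_le_of_ne hx1 (Ne.symm hx0)
      have : y / x ≤ 1 := by
        rw [div_le_one hx2]
        linarith
      linarith
  have h2 := hx.mul h1
  have e : x * (1 + y / x) = x + y := by
    field_simp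
  rwa [e] at h2

theorem TT_iff_GG {P : Set K} (hP : IsOrd P) {n : ℕ} {b : K} (hb : b ∈ P)
    (h3 : P3 (2 ^ n) K b) {x : K} : TT b x ↔ GG (2 ^ n) b x := by
  constructor
  · rintro ⟨m, y, z, rfl⟩
    have h1 : 1 ≤ 2 ^ n := Nat.one_le_two_pow
    have hs : ∀ (u : Fin m → K), GG (2 ^ n) b (∑ i, u i ^ 2) := fun u =>
      Finset.sum_induction _ (fun w => GG (2 ^ n) b w) (fun _ _ hu hv => add_closed hP hb h3 hu hv)
        (GG.zero _ _) fun i _ => GG.sq h1 b _
    exact add_closed hP hb h3 (hs y) ((GG.self h1 b).mul (hs z))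
  · exact fun h => ⟨_, h⟩

end

/-- The bound for the number of separated orderings. -/
def HMax (r : ℕ) (K : Type) [Field K] [CompatibleRing K] : Prop :=
  ∀ (K' : Type) [Field K'] [CompatibleRing K'],
    Language.ring.ElementarilyEquivalent K K' →
    ∀ P : Fin (r + 1) → Set K', (∀ i, IsOrd (P i)) → ¬ Pairwise fun i j => Sep (P i) (P j)

section

variable {K : Type} [Field K] [CompatibleRing K]

theorem exists_data (hK : Tame K) (hreal : ∀ m, ¬ SS m (-1 : K)) :
    ∃ r : ℕ, HMax r K ∧ ∃ (K' : Type) (_ : Field K') (_ : CompatibleRing K'),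
      Language.ring.ElementarilyEquivalent K K' ∧
      ∃ a : Fin r → Fin r × Fin r → ℤ, (∀ k l, k ≠ l → a k (k, l) + cD r ≤ a l (k, l)) ∧
        ∃ y : Fin r × Fin r → K', Good a K' y := by
  obtain ⟨r, ⟨K', i1, i2, h1, P, h2, h3⟩, h4⟩ := exists_max hK
  refine ⟨r, h4, K', i1, i2, h1, ?_⟩
  obtain ⟨a, ha, y, hy⟩ := star_exists h2 h3
  refine ⟨a, ha, y, fun m hm => hreal m ?_, hy⟩
  exact UD.transfer (R := fun K _ => SS m (-1 : K)) (UD_SS m UT.one.neg) h1 hm

variable {r : ℕ} (hmax : HMax r K) {a : Fin r → Fin r × Fin r → ℤ}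
  (ha : ∀ k l, k ≠ l → a k (k, l) + cD r ≤ a l (k, l)) {y : Fin r × Fin r → K} (hy : Good a K y)

include hmax ha hy

theorem exists_P3 (k : Fin r) : ∃ n, P3 (2 ^ n) K (bb a (cM r) k K y) := by
  by_contra hcon
  push Not at hcon
  have hx : ∀ n, ∃ x : K, ¬ GG (2 ^ n) (bb a (cM r) k K y) x ∧
      ¬ GG (2 ^ n) (bb a (cM r) k K y) (x ^ 2 - 5) ∧
      ¬ GG (2 ^ n) (bb a (cM r) k K y) (1 - 4 * x) := by
    intro n
    have := hcon n
    simp only [P3] at this
    push Not at this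
    exact this
  choose x hx0 hx1 hx2 using hx
  obtain ⟨K', _, _, w', hee, hw⟩ := comp K (α := (Fin r × Fin r) ⊕ Unit)
    (fun n => Sum.elim y (fun _ => x n))
  set y' : Fin r × Fin r → K' := fun t => w' (Sum.inl t) with hy'
  set x' : K' := w' (Sum.inr ()) with hx'
  have hle : ∀ m n : ℕ, m ≤ n → m ≤ 2 ^ n := fun m n h =>
    h.trans (Nat.lt_two_pow_self).le
  have hg : Good a K' y' := by
    refine ⟨fun m => ?_, fun k m => ?_⟩
    · exact hw (fun K _ _ => ¬ SS m (-1 : K)) (UD_SS m UT.one.neg).not ⟨0, fun n _ => hy.1 m⟩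
    · exact hw (fun K _ w => ¬ SS m (-bb a (cR r) k K (fun t => w (Sum.inl t))))
        (UD_SS m ((UT_bb a (cR r) k).comp Sum.inl).neg).not ⟨0, fun n _ => hy.2 k m⟩
  have hb : UT ((Fin r × Fin r) ⊕ Unit)
      (fun K _ w => bb a (cM r) k K (fun t => w (Sum.inl t))) := (UT_bb a (cM r) k).comp Sum.inl
  have hv : UT ((Fin r × Fin r) ⊕ Unit) (fun K _ w => w (Sum.inr ())) := UT.var _
  have hv2 : UT ((Fin r × Fin r) ⊕ Unit) (fun K _ w => w (Sum.inr ()) ^ 2 - 5) := by
    simpa using (hv.pow 2).sub (UT.nat 5)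
  have hv4 : UT ((Fin r × Fin r) ⊕ Unit) (fun K _ w => 1 - 4 * w (Sum.inr ())) := by
    simpa using UT.one.sub ((UT.nat 4).mul hv)
  have g0 : ¬ TT (bb a (cM r) k K' y') x' := by
    rintro ⟨m, hm⟩
    refine hw (fun K _ w => ¬ GG m (bb a (cM r) k K (fun t => w (Sum.inl t))) (w (Sum.inr ())))
      (UD_GG m hb hv).not ⟨m, fun n hn h => hx0 n (h.mono (hle m n hn))⟩ hm
  have g1 : ¬ TT (bb a (cM r) k K' y') (x' ^ 2 - 5) := by
    rintro ⟨m, hm⟩
    refine hw (fun K _ w => ¬ GG m (bb a (cM r) k K (fun t => w (Sum.inl t)))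
      (w (Sum.inr ()) ^ 2 - 5)) (UD_GG m hb hv2).not
      ⟨m, fun n hn h => hx1 n (h.mono (hle m n hn))⟩ hm
  have g2 : ¬ TT (bb a (cM r) k K' y') (1 - 4 * x') := by
    rintro ⟨m, hm⟩
    refine hw (fun K _ w => ¬ GG m (bb a (cM r) k K (fun t => w (Sum.inl t)))
      (1 - 4 * w (Sum.inr ()))) (UD_GG m hb hv4).not
      ⟨m, fun n hn h => hx2 n (h.mono (hle m n hn))⟩ hm
  obtain ⟨Q, hQ1, hQ2, hQ3⟩ := star (hmax K' hee) ha hg
  have hneg := (hQ1 k).not_TT (hQ2 k)
  have hex : ∀ z : K', ¬ TT (bb a (cM r) k K' y') z → ∃ P, IsOrd P ∧ ¬ Sep (Q k) P ∧ z ∉ P := by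
    intro z hz
    obtain ⟨P, hP, hbP, hzP⟩ := exists_ord_TT hneg hz
    obtain ⟨l, hl1, hl2, hl3⟩ := hQ3 P hP
    have : k = l := by
      by_contra hne
      exact hl3 k hne hbP
    subst this
    exact ⟨P, hP, hl1, hzP⟩
  obtain ⟨P0, o0, s0, z0⟩ := hex _ g0
  obtain ⟨P1, o1, s1, z1⟩ := hex _ g1
  obtain ⟨P2, o2, s2, z2⟩ := hex _ g2
  exact no_three (hQ1 k) o0 o1 o2 s0 s1 s2 z0 z1 z2

theorem exists_P3' : ∃ n, 2 ≤ n ∧ ∀ k, P3 (2 ^ n) K (bb a (cM r) k K y) := by
  choose n hn using exists_P3 hmax ha hy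
  refine ⟨2 + ∑ k, n k, by omega, fun k => (hn k).mono (Nat.pow_le_pow_right two_pos ?_)⟩
  have := Finset.single_le_sum (f := n) (fun _ _ => Nat.zero_le _) (Finset.mem_univ k)
  omega

theorem pyth_bound : ∃ m, ∀ x : K, (∃ n, SS n x) → SS m x := by
  obtain ⟨n, hn, h3⟩ := exists_P3' hmax ha hy
  obtain ⟨Q, hQ1, hQ2, hQ3⟩ := star (hmax K rfl) ha hy
  by_contra hcon
  push Not at hcon
  choose x hx1 hx2 using hcon
  obtain ⟨K', _, _, w', hee, hw⟩ := comp K (α := (Fin r × Fin r) ⊕ Unit)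
    (fun n => Sum.elim y (fun _ => x n))
  set y' : Fin r × Fin r → K' := fun t => w' (Sum.inl t) with hy'
  set x' : K' := w' (Sum.inr ()) with hx'
  have hg : Good a K' y' := by
    refine ⟨fun m => ?_, fun k m => ?_⟩
    · exact hw (fun K _ _ => ¬ SS m (-1 : K)) (UD_SS m UT.one.neg).not ⟨0, fun n _ => hy.1 m⟩
    · exact hw (fun K _ w => ¬ SS m (-bb a (cR r) k K (fun t => w (Sum.inl t))))
        (UD_SS m ((UT_bb a (cR r) k).comp Sum.inl).neg).not ⟨0, fun n _ => hy.2 k m⟩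
  have hv : UT ((Fin r × Fin r) ⊕ Unit) (fun K _ w => w (Sum.inr ())) := UT.var _
  have hG : ∀ k, GG (2 ^ n) (bb a (cM r) k K' y') x' := by
    intro k
    refine hw (fun K _ w => GG (2 ^ n) (bb a (cM r) k K (fun t => w (Sum.inl t)))
      (w (Sum.inr ()))) (UD_GG _ ((UT_bb a (cM r) k).comp Sum.inl) hv) ⟨0, fun m _ => ?_⟩
    obtain ⟨l, hl⟩ := hx1 m
    exact (TT_iff_GG (hQ1 k) (hQ2 k) (h3 k)).mp (TT.of_SS _ hl)
  have hS : ¬ TT (0 : K') x' := by
    rw [TT_zero_iff]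
    rintro ⟨m, hm⟩
    exact hw (fun K _ w => ¬ SS m (w (Sum.inr ()))) (UD_SS m hv).not
      ⟨m, fun n hn h => hx2 n (h.mono hn)⟩ hm
  have hT : ¬ TT (0 : K') (-1) := by
    rw [TT_zero_iff]
    rintro ⟨m, hm⟩
    exact hg.1 m hm
  obtain ⟨P, hP, -, hxP⟩ := exists_ord_TT hT hS
  obtain ⟨Q', _, _, hQ3'⟩ := star (hmax K' hee) ha hg
  obtain ⟨k, -, hk, -⟩ := hQ3' P hP
  exact hxP (hP.GG hk (hG k))

end

/-- The statement that every sum of `m + 1` squares is a sum of `m` squares. -/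
theorem UD_pyth (m : ℕ) : UD Empty (fun K _ _ => ∀ x : K, SS (m + 1) x → SS m x) := by
  apply UD.all1
  exact (UD_SS _ (UT.var _)).imp (UD_SS _ (UT.var _))

theorem SS_stable {K : Type} [Field K] {m : ℕ} (h : ∀ x : K, SS (m + 1) x → SS m x) (n : ℕ) :
    ∀ x : K, SS n x → SS m x := by
  induction n with
  | zero => exact fun x hx => hx.mono (Nat.zero_le _)
  | succ n ih =>
    rintro x ⟨y, rfl⟩
    rw [Fin.sum_univ_succ]
    have h1 := ih _ ⟨fun i : Fin n => y i.succ, rfl⟩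
    have h2 := (SS.sq (n := 1) le_rfl (y 0)).add h1
    rw [add_comm 1 m] at h2
    exact h _ h2

/-- Every tame field has a finite Pythagoras number. -/
theorem pythagoras {K : Type} [Field K] [CompatibleRing K] (hK : Tame K) :
    ∃ m, ∀ x : K, (∃ n, SS n x) → SS m x := by
  by_cases hreal : ∃ m, SS m (-1 : K)
  · obtain ⟨m, hm⟩ := hreal
    by_cases h2 : (2 : K) = 0
    · refine ⟨1, fun x hx => ?_⟩
      obtain ⟨n, y, rfl⟩ := hx
      have hc : CharP K 2 := CharTwo.of_one_ne_zero_of_two_eq_zero one_ne_zero h2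
      refine ⟨fun _ => ∑ i, y i, ?_⟩
      simp only [Finset.univ_unique, Finset.sum_singleton]
      exact (CharTwo.sum_sq _ _).symm
    · obtain ⟨y, hy⟩ := hm
      refine ⟨m + 1, fun x _ => ⟨Fin.snoc (fun i => y i * ((x - 1) / 2)) ((x + 1) / 2), ?_⟩⟩
      rw [Fin.sum_univ_castSucc]
      simp only [Fin.snoc_castSucc, Fin.snoc_last, mul_pow, ← Finset.sum_mul, ← hy]
      field_simp
      ring
  · push Not at hreal
    obtain ⟨r, hmax, K', _, _, hee, a, ha, y, hy⟩ := exists_data hK hreal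
    have hmax' : HMax r K' := fun K'' _ _ h => hmax K'' (hee.trans h)
    obtain ⟨m, hm⟩ := pyth_bound hmax' ha hy
    have h1 : ∀ x : K, SS (m + 1) x → SS m x :=
      UD.transfer (R := fun K _ => ∀ x : K, SS (m + 1) x → SS m x) (UD_pyth m) hee
        fun x hx => hm x ⟨_, hx⟩
    exact ⟨m, fun x ⟨n, hn⟩ => SS_stable h1 n x hn⟩

end Pool.Agent.Q175.NF
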