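import Pool.Agent.Q175.NF.Ord

/-!
# The valuation ring attached to a preordering which contains the positive units of a place
-/

set_option autoImplicit false

namespace Pool.Agent.Q175.NF

section

variable {K : Type} [Field K]

/-- `x` or `-x` lies in `G`. -/
def Pm (G : Set K) (x : K) : Prop := x ∈ G ∨ -x ∈ G

/-- The set which turns out to be a valuation ring. -/
def OG (G : Set K) (x : K) : Prop :=
  (¬ Pm G x ∧ 1 + x ∈ G) ∨ (Pm G x ∧ ∀ y, ¬ Pm G y → 1 + y ∈ G → 1 + x * y ∈ G)

theorem IsPre.inv {G : Set K} (hG : IsPre G) {x : K} (hx : x ∈ G) : x⁻¹ ∈ G := by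
  have h := hG.mul _ hx _ (hG.sq x⁻¹)
  by_cases h0 : x = 0
  · subst h0
    simpa using hx
  · have e : x * x⁻¹ ^ 2 = x⁻¹ := by field_simp
    rwa [e] at h

theorem Pm.mul {G : Set K} (hG : IsPre G) {x y : K} (hx : Pm G x) (hy : Pm G y) :
    Pm G (x * y) := by
  rcases hx with hx | hx <;> rcases hy with hy | hy
  · exact Or.inl (hG.mul _ hx _ hy)
  · right
    have := hG.mul _ hx _ hy
    rwa [mul_neg] at this
  · right
    have := hG.mul _ hx _ hy
    rwa [neg_mul] at this
  · left
    have := hG.mul _ hx _ hy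
    rwa [neg_mul_neg] at this

theorem Pm.inv {G : Set K} (hG : IsPre G) {x : K} (hx : Pm G x) : Pm G x⁻¹ := by
  rcases hx with hx | hx
  · exact Or.inl (hG.inv hx)
  · right
    have := hG.inv hx
    rwa [inv_neg] at this

theorem Pm.of_mul {G : Set K} (hG : IsPre G) {x y : K} (hx0 : x ≠ 0) (hx : Pm G x)
    (hxy : Pm G (x * y)) : Pm G y := by
  have h := (hx.inv hG).mul hG hxy
  rwa [inv_mul_cancel_left₀ hx0] at h

variable {Γ : Type} [LinearOrderedCommGroupWithZero Γ] (v : Valuation K Γ) {G : Set K}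
  (hG : IsPre G) (F1 : ∀ x, v x < 1 → 1 + x ∈ G) (F2 : ∀ x, v x = 1 → Pm G x)

include hG F1 F2

theorem one_add_mem_iff {y : K} (hy : ¬ Pm G y) : 1 + y ∈ G ↔ v y < 1 := by
  refine ⟨fun h => ?_, F1 y⟩
  by_contra hcon
  push Not at hcon
  have hne : v y ≠ 1 := fun h1 => hy (F2 y h1)
  have hlt : 1 < v y := lt_of_le_of_ne hcon (Ne.symm hne)
  have hy0 : y ≠ 0 := by
    rintro rfl
    exact hy (Or.inl hG.zero)
  have h1 : v y⁻¹ < 1 := by
    rw [map_inv₀]
    exact inv_lt_one_of_one_lt₀ hlt
  have h2 := F1 _ h1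
  have h3 : 1 + y⁻¹ ≠ 0 := by
    intro h4
    have h5 := Valuation.map_one_add_of_lt v h1
    rw [h4, map_zero] at h5
    exact zero_ne_one h5
  apply hy
  left
  have h4 := hG.mul _ h _ (hG.inv h2)
  have e : (1 + y) * (1 + y⁻¹)⁻¹ = y := by
    rw [← div_eq_mul_inv, div_eq_iff h3]
    field_simp
    ring
  rwa [e] at h4

theorem exists_valSubring : ∃ O : ValuationSubring K,
    (∀ x, x ∈ O ↔ ∀ y, ¬ Pm G y → v y < 1 → v (x * y) < 1) ∧ (∀ x, x ∈ O ↔ OG G x) := by
  have key : ∀ x y : K, (∀ z, ¬ Pm G z → v z < 1 → v (x * z) < 1) →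
      (∀ z, ¬ Pm G z → v z < 1 → v (y * z) < 1) →
      ∀ z, ¬ Pm G z → v z < 1 → v (x * y * z) < 1 := by
    intro x y hx hy z hz hz1
    have h1 := hy z hz hz1
    by_cases h2 : Pm G (y * z)
    · by_cases hy0 : y = 0
      · subst hy0
        simp
      · have h3 : ¬ Pm G y := by
          intro h3
          exact hz (h3.of_mul hG hy0 h2)
        have h4 : v y < 1 := by
          by_contra hcon
          push Not at hcon
          have h5 : 1 < v y := lt_of_le_of_ne hcon (fun h => h3 (F2 y h.symm))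
          have h6 : v y⁻¹ < 1 := by
            rw [map_inv₀]
            exact inv_lt_one_of_one_lt₀ h5
          have h7 : ¬ Pm G y⁻¹ := by
            intro h7
            have := h7.inv hG
            rw [inv_inv] at this
            exact h3 this
          have h8 := hy _ h7 h6
          rw [mul_inv_cancel₀ hy0, map_one] at h8
          exact lt_irrefl _ h8
        have h5 := hx y h3 h4
        rw [map_mul]
        exact mul_lt_one_of_nonneg_of_lt_one_left zero_le h5 hz1.le
    · rw [mul_assoc]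
      exact hx _ h2 h1
  refine ⟨{ carrier := {x | ∀ y, ¬ Pm G y → v y < 1 → v (x * y) < 1}
            mul_mem' := fun {x y} hx hy => key x y hx hy
            one_mem' := fun y _ hy => by rwa [one_mul]
            add_mem' := fun {x y} hx hy z hz hz1 => by
              rw [add_mul]
              exact v.map_add_lt (hx z hz hz1) (hy z hz hz1)
            zero_mem' := fun y _ _ => by simp
            neg_mem' := fun {x} hx y hy hy1 => by
              rw [neg_mul, Valuation.map_neg]
              exact hx y hy hy1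
            mem_or_inv_mem' := fun x => ?_ }, fun x => Iff.rfl, fun x => ?_⟩
  · by_cases hx : ∀ y, ¬ Pm G y → v y < 1 → v (x * y) < 1
    · exact Or.inl hx
    · right
      push Not at hx
      obtain ⟨y, hy, hy1, hy2⟩ := hx
      intro z hz hz1
      have h1 : 1 ≤ v x := by
        by_contra hcon
        push Not at hcon
        have : v (x * y) < 1 := by
          rw [map_mul]
          exact mul_lt_one_of_nonneg_of_lt_one_left zero_le hcon hy1.le
        exact absurd this (not_lt.mpr hy2)
      rw [map_mul, map_inv₀]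
      exact mul_lt_one_of_nonneg_of_lt_one_right (inv_le_one_of_one_le₀ h1) zero_le hz1
  · show (∀ y, ¬ Pm G y → v y < 1 → v (x * y) < 1) ↔ OG G x
    constructor
    · intro hx
      by_cases hp : Pm G x
      · right
        refine ⟨hp, fun y hy hy1 => ?_⟩
        exact F1 _ (hx y hy ((one_add_mem_iff v hG F1 F2 hy).mp hy1))
      · left
        refine ⟨hp, ?_⟩
        apply F1
        by_contra hcon
        push Not at hcon
        have h5 : 1 < v x := lt_of_le_of_ne hcon (fun h => hp (F2 x h.symm))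
        have h6 : v x⁻¹ < 1 := by
          rw [map_inv₀]
          exact inv_lt_one_of_one_lt₀ h5
        have hx0 : x ≠ 0 := by
          rintro rfl
          exact hp (Or.inl hG.zero)
        have h7 : ¬ Pm G x⁻¹ := by
          intro h7
          have := h7.inv hG
          rw [inv_inv] at this
          exact hp this
        have h8 := hx _ h7 h6
        rw [mul_inv_cancel₀ hx0, map_one] at h8
        exact lt_irrefl _ h8
    · rintro (⟨hp, h1⟩ | ⟨hp, h1⟩) y hy hy1
      · rw [map_mul]
        exact mul_lt_one_of_nonneg_of_lt_one_left zero_le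
          ((one_add_mem_iff v hG F1 F2 hp).mp h1) hy1.le
      · by_cases hx0 : x = 0
        · subst hx0
          simp
        · have h2 := h1 y hy (F1 y hy1)
          have h3 : ¬ Pm G (x * y) := fun h => hy (hp.of_mul hG hx0 h)
          exact (one_add_mem_iff v hG F1 F2 h3).mp h2

omit F1 in
theorem pm_of_unit {x : K} (hx0 : x ≠ 0) (hx : ∀ y, ¬ Pm G y → v y < 1 → v (x * y) < 1)
    (hx' : ∀ y, ¬ Pm G y → v y < 1 → v (x⁻¹ * y) < 1) : Pm G x := by
  by_contra hp
  have hp' : ¬ Pm G x⁻¹ := by
    intro h7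
    have := h7.inv hG
    rw [inv_inv] at this
    exact hp this
  rcases lt_trichotomy (v x) 1 with h | h | h
  · have := hx' x hp h
    rw [inv_mul_cancel₀ hx0, map_one] at this
    exact lt_irrefl _ this
  · exact hp (F2 x h)
  · have h6 : v x⁻¹ < 1 := by
      rw [map_inv₀]
      exact inv_lt_one_of_one_lt₀ h
    have := hx x⁻¹ hp' h6
    rw [mul_inv_cancel₀ hx0, map_one] at this
    exact lt_irrefl _ this

omit F1 in
theorem exists_not_mem {z : K} (hz : ¬ Pm G z) :
    ∃ x, ¬ ∀ y, ¬ Pm G y → v y < 1 → v (x * y) < 1 := by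
  have hz0 : z ≠ 0 := by
    rintro rfl
    exact hz (Or.inl hG.zero)
  rcases lt_trichotomy (v z) 1 with h | h | h
  · refine ⟨z⁻¹, fun hcon => ?_⟩
    have := hcon z hz h
    rw [inv_mul_cancel₀ hz0, map_one] at this
    exact lt_irrefl _ this
  · exact absurd (F2 z h) hz
  · refine ⟨z, fun hcon => ?_⟩
    have h6 : v z⁻¹ < 1 := by
      rw [map_inv₀]
      exact inv_lt_one_of_one_lt₀ h
    have h7 : ¬ Pm G z⁻¹ := by
      intro h7
      have := h7.inv hG
      rw [inv_inv] at this
      exact hz this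
    have := hcon z⁻¹ h7 h6
    rw [mul_inv_cancel₀ hz0, map_one] at this
    exact lt_irrefl _ this

end

section

variable {K : Type} [Field K] [LinearOrder K] [IsStrictOrderedRing K]

/-- The natural valuation of an ordered field. -/
noncomputable abbrev nv (K : Type) [Field K] [LinearOrder K] [IsStrictOrderedRing K] :=
  (ArchimedeanClass.addValuation K).toValuation

theorem nv_lt_one {x : K} (h : nv K x < 1) : 2 * x < 1 ∧ -(2 * x) < 1 := by
  have h1 : (0 : ArchimedeanClass K) < ArchimedeanClass.mk x := h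
  rw [← ArchimedeanClass.mk_one, ArchimedeanClass.mk_lt_mk] at h1
  have h2 := h1 2
  rw [abs_one, nsmul_eq_mul] at h2
  push_cast at h2
  rw [← abs_two (α := K), ← abs_mul] at h2
  exact ⟨(abs_lt.mp h2).2, by linarith [(abs_lt.mp h2).1]⟩

theorem nv_eq_one {x : K} (h : nv K x = 1) : ∃ m : ℕ, |x| ≤ m ∧ 1 ≤ m * |x| := by
  have h1 : ArchimedeanClass.mk x = 0 := h
  rw [← ArchimedeanClass.mk_one, ArchimedeanClass.mk_eq_mk] at h1
  obtain ⟨⟨m, hm⟩, ⟨n, hn⟩⟩ := h1
  rw [abs_one, nsmul_eq_mul] at hm
  rw [abs_one, nsmul_eq_mul, mul_one] at hn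
  refine ⟨m + n, ?_, ?_⟩
  · push_cast
    have : (0 : K) ≤ m := Nat.cast_nonneg m
    linarith
  · push_cast
    have : (0 : K) ≤ n := Nat.cast_nonneg n
    have := abs_nonneg x
    nlinarith

theorem nv_le {x y : K} (h0 : 0 ≤ x) (h : x ≤ y) : nv K x ≤ nv K y := by
  have h1 : ArchimedeanClass.mk y ≤ ArchimedeanClass.mk x :=
    ArchimedeanClass.mk_le_mk_of_abs (by rwa [abs_of_nonneg h0, abs_of_nonneg (h0.trans h)])
  exact h1

end

end Pool.Agent.Q175.NF
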