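import Pool.Agent.Q175.NF.Key
import Pool.Agent.Q175.NF.Val

/-!
# The orderings of a tame field
-/

set_option autoImplicit false

open FirstOrder FirstOrder.Ring

namespace Pool.Agent.Q175.NF

/-- The set `S` is definable in `K` in the language of rings, with parameters. -/
def IsDef {K : Type} [Field K] [CompatibleRing K] (S : Set K) : Prop :=
  ∃ (p : ℕ) (ψ : FirstOrder.Language.ring.Formula (Fin 1 ⊕ Fin p)) (c : Fin p → K),
    ∀ x : K, x ∈ S ↔ ψ.Realize (Sum.elim (fun _ => x) c)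

theorem isDef_of_UD {K : Type} [Field K] [CompatibleRing K] {S : Set K} {p : ℕ}
    {R : ∀ (K : Type) [Field K], (Fin 1 ⊕ Fin p → K) → Prop} (h : UD (Fin 1 ⊕ Fin p) R)
    (c : Fin p → K) (hS : ∀ x : K, x ∈ S ↔ R K (Sum.elim (fun _ => x) c)) : IsDef S := by
  obtain ⟨φ, hφ⟩ := h
  exact ⟨p, φ, c, fun x => (hS x).trans (hφ K _).symm⟩

/-- The first-order conditions on the elements `b k`. -/
def MC (N m r : ℕ) (K : Type) [Field K] (b : Fin r → K) : Prop :=
  (∀ k, P3 N K (b k) ∧ (∀ x, ∀ y, GG N (b k) x → GG N (b k) y → GG N (b k) (x + y)) ∧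
    ¬ GG N (b k) (-1) ∧ ¬ b k = 0) ∧
  (∀ k l, k ≠ l → GG N (b k) (-b l)) ∧ SS m (-∏ k, -b k)

theorem UD_MC (N m r : ℕ) : UD Empty (fun K _ _ => ∃ b : Fin r → K, MC N m r K b) := by
  apply UD.ex
  have hb : ∀ k : Fin r, UT (Empty ⊕ Fin r) (fun K _ w => w (Sum.inr k)) := fun k => UT.var _
  refine UD.and (UD.all_fin fun k => ?_) (UD.and (UD.all_fin fun k => UD.all_fin fun l => ?_) ?_)
  · refine (UD_P3 N (hb k)).and (UD.and ?_ (((UD_GG N (hb k) UT.one.neg).not).and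
      (UD.eq (hb k) UT.zero).not))
    apply UD.all1
    apply UD.all1
    exact (UD_GG N ((hb k).comp (fun t => Sum.inl (Sum.inl t))) (UT.var (Sum.inl (Sum.inr ())))).imp
      ((UD_GG N ((hb k).comp (fun t => Sum.inl (Sum.inl t))) (UT.var (Sum.inr ()))).imp
      (UD_GG N ((hb k).comp (fun t => Sum.inl (Sum.inl t)))
        ((UT.var (Sum.inl (Sum.inr ()))).add (UT.var (Sum.inr ())))))
  · by_cases h : k = l
    · refine (UD.eq (α := Empty ⊕ Fin r) UT.zero UT.zero).congr fun K _ v => ?_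
      exact ⟨fun _ h' => absurd h h', fun _ => rfl⟩
    · exact (UD_GG N (hb k) (hb l).neg).congr fun K _ v => ⟨fun h' _ => h', fun h' => h' h⟩
  · exact UD_SS m (UT.prod _ fun k => (hb k).neg).neg

section

variable {K : Type} [Field K] [CompatibleRing K]

omit [CompatibleRing K] in
theorem bb_ne_zero {r : ℕ} {a : Fin r → Fin r × Fin r → ℤ} {y : Fin r × Fin r → K}
    (hy : Good a K y) (k : Fin r) : bb a (cM r) k K y ≠ 0 := by
  intro h
  refine hy.2 k 4 ?_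
  have e : -bb a (cR r) k K y = ((cM r - cR r : ℕ) : K) := by
    have h1 : cR r ≤ cM r := by
      rw [cM]
      omega
    rw [Nat.cast_sub h1]
    simp only [bb] at h ⊢
    linear_combination -h
  rw [e]
  exact SS.nat le_rfl _

theorem exists_MC_aux {r : ℕ} (hmax : HMax r K) {a : Fin r → Fin r × Fin r → ℤ}
    (ha : ∀ k l, k ≠ l → a k (k, l) + cD r ≤ a l (k, l)) {y : Fin r × Fin r → K}
    (hy : Good a K y) : ∃ n m, 2 ≤ n ∧ MC (2 ^ n) m r K (fun k => bb a (cM r) k K y) := by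
  obtain ⟨n, hn, h3⟩ := exists_P3' hmax ha hy
  obtain ⟨m, hm⟩ := pyth_bound hmax ha hy
  obtain ⟨Q, hQ1, hQ2, hQ3⟩ := star (hmax K rfl) ha hy
  have hex : ∀ k z, ¬ GG (2 ^ n) (bb a (cM r) k K y) z →
      ∃ P, IsOrd P ∧ (∀ l, l ≠ k → bb a (cM r) l K y ∉ P) ∧ z ∉ P := by
    intro k z hz
    rw [← TT_iff_GG (hQ1 k) (hQ2 k) (h3 k)] at hz
    obtain ⟨P, hP, hbP, hzP⟩ := exists_ord_TT ((hQ1 k).not_TT (hQ2 k)) hz
    obtain ⟨l, hl1, hl2, hl3⟩ := hQ3 P hP
    have : k = l := by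
      by_contra hne
      exact hl3 k hne hbP
    subst this
    exact ⟨P, hP, hl3, hzP⟩
  refine ⟨n, m, hn, fun k => ⟨h3 k, fun x z hx hz => add_closed (hQ1 k) (hQ2 k) (h3 k) hx hz,
    fun h => (hQ1 k).neg_one ((hQ1 k).GG (hQ2 k) h), bb_ne_zero hy k⟩, fun k l hkl => ?_, ?_⟩
  · by_contra hcon
    obtain ⟨P, hP, h1, h2⟩ := hex k _ hcon
    rcases hP.total (bb a (cM r) l K y) with h | h
    · exact h1 l (Ne.symm hkl) h
    · exact h2 h
  · apply hm
    rw [← TT_zero_iff]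
    by_contra hcon
    have hT : ¬ TT (0 : K) (-1) := by
      rw [TT_zero_iff]
      rintro ⟨m, hm⟩
      exact hy.1 m hm
    obtain ⟨P, hP, -, hzP⟩ := exists_ord_TT hT hcon
    apply hzP
    obtain ⟨k, hk1, hk2, hk3⟩ := hQ3 P hP
    rw [← Finset.mul_prod_erase _ _ (Finset.mem_univ k), neg_mul, neg_neg]
    refine hP.mul _ hk2 _ ?_
    refine Finset.prod_induction _ (fun z => z ∈ P) (fun a b ha hb => hP.mul _ ha _ hb)
      hP.pre.one fun l hl => ?_
    exact (hP.total _).resolve_left (hk3 l (Finset.ne_of_mem_erase hl))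

theorem exists_MC (hK : Tame K) :
    ∃ n m r, 2 ≤ n ∧ ∃ b : Fin r → K, MC (2 ^ n) m r K b := by
  by_cases hreal : ∃ m, SS m (-1 : K)
  · obtain ⟨m, hm⟩ := hreal
    refine ⟨2, m, 0, le_rfl, fun k => k.elim0, fun k => k.elim0, fun k => k.elim0, ?_⟩
    simpa using hm
  · push Not at hreal
    obtain ⟨r, hmax, K', _, _, hee, a, ha, y, hy⟩ := exists_data hK hreal
    have hmax' : HMax r K' := fun K'' _ _ h => hmax K'' (hee.trans h)
    obtain ⟨n, m, hn, h1⟩ := exists_MC_aux hmax' ha hy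
    refine ⟨n, m, r, hn, ?_⟩
    exact UD.transfer (R := fun K _ => ∃ b : Fin r → K, MC (2 ^ n) m r K b)
      (UD_MC (2 ^ n) m r) hee ⟨_, h1⟩

end

/-- The finite elements of the ordering `P`. -/
def FinElt {K : Type} [Field K] (P : Set K) : Set K :=
  {x | ∃ n : ℕ, (n : K) - x ∈ P ∧ (n : K) + x ∈ P}

/-- The orderings `P` and `Q` have the same natural place: they have the same finite elements, and
they agree on the units of the ring of the finite elements. -/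
def SamePlace {K : Type} [Field K] (P Q : Set K) : Prop :=
  FinElt P = FinElt Q ∧ ∀ x ∈ FinElt P, x⁻¹ ∈ FinElt P → (x ∈ P ↔ x ∈ Q)

section

variable {K : Type} [Field K] {n : ℕ} {b : K}

theorem TT_iff' {N : ℕ} (hN : 1 ≤ N) (n : ℕ) (hNn : N = 2 ^ n)
    (hadd : ∀ x, ∀ y, GG N b x → GG N b y → GG N b (x + y)) {x : K} : TT b x ↔ GG N b x := by
  subst hNn
  constructor
  · rintro ⟨m, y, z, rfl⟩
    have hs : ∀ (u : Fin m → K), GG (2 ^ n) b (∑ i, u i ^ 2) := fun u =>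
      Finset.sum_induction _ (fun w => GG (2 ^ n) b w) (fun _ _ hu hv => hadd _ _ hu hv)
        (GG.zero _ _) fun i _ => GG.sq hN b _
    exact hadd _ _ (hs y) ((GG.self hN b).mul (hs z))
  · exact fun h => ⟨_, h⟩

theorem fin_sub (hn : 2 ≤ n) (h3 : P3 (2 ^ n) K b) {P Q : Set K} (hP : IsOrd P) (hQ : IsOrd Q)
    (hbP : b ∈ P) (hbQ : b ∈ Q) : FinElt P ⊆ FinElt Q := by
  rintro x ⟨m, h1, h2⟩
  have key : ∀ z : K, (m : K) - z ∈ P → (m : K) + z ∈ P → ((m + 1 : ℕ) : K) - z ∈ Q := by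
    intro z hz1 hz2
    refine hQ.GG hbQ (unit_mem hP hn hbP h3 (m := 2 * m + 1) ?_ ?_ ?_)
    · obtain ⟨_, _, hp⟩ := hP.exists_lo
      simp only [hp] at *
      push_cast
      linarith
    · obtain ⟨_, _, hp⟩ := hP.exists_lo
      simp only [hp] at *
      push_cast
      linarith
    · obtain ⟨_, _, hp⟩ := hP.exists_lo
      simp only [hp] at *
      push_cast
      have : (0 : K) ≤ m := Nat.cast_nonneg m
      nlinarith
  refine ⟨m + 1, key x h1 h2, ?_⟩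
  have := key (-x) (by rwa [sub_neg_eq_add]) (by rwa [← sub_eq_add_neg])
  rwa [sub_neg_eq_add] at this

theorem unit_pos (hn : 2 ≤ n) (h3 : P3 (2 ^ n) K b) {P : Set K} (hP : IsOrd P)
    (hbP : b ∈ P) {x : K} (hx : x ∈ FinElt P) (hx' : x⁻¹ ∈ FinElt P) (h0 : x ∈ P) :
    GG (2 ^ n) b x := by
  by_cases hx0 : x = 0
  · subst hx0
    exact GG.zero _ _
  obtain ⟨m, h1, h2⟩ := hx
  obtain ⟨m', h1', h2'⟩ := hx'
  refine unit_mem hP hn hbP h3 (m := m + m') h0 ?_ ?_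
  · obtain ⟨_, _, hp⟩ := hP.exists_lo
    simp only [hp] at *
    push_cast
    have : (0 : K) ≤ m' := Nat.cast_nonneg m'
    linarith
  · obtain ⟨_, _, hp⟩ := hP.exists_lo
    simp only [hp] at *
    have hx1 : 0 < x := lt_of_le_of_ne h0 (Ne.symm hx0)
    have h5 : x⁻¹ * x ≤ m' * x := by
      apply mul_le_mul_of_nonneg_right _ h0
      linarith
    rw [inv_mul_cancel₀ hx0] at h5
    push_cast
    have : (0 : K) ≤ m * x := mul_nonneg (Nat.cast_nonneg m) h0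
    linarith

theorem samePlace (hn : 2 ≤ n) (h3 : P3 (2 ^ n) K b) {P Q : Set K} (hP : IsOrd P) (hQ : IsOrd Q)
    (hbP : b ∈ P) (hbQ : b ∈ Q) : SamePlace P Q := by
  refine ⟨(fin_sub hn h3 hP hQ hbP hbQ).antisymm (fin_sub hn h3 hQ hP hbQ hbP),
    fun x hx hx' => ⟨fun h => hQ.GG hbQ (unit_pos hn h3 hP hbP hx hx' h), fun h => ?_⟩⟩
  rcases hP.total x with h1 | h1
  · exact h1
  · have h2 : -x ∈ FinElt P := by
      obtain ⟨m, h4, h5⟩ := hx
      exact ⟨m, by rwa [sub_neg_eq_add], by rwa [← sub_eq_add_neg]⟩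
    have h2' : (-x)⁻¹ ∈ FinElt P := by
      obtain ⟨m, h4, h5⟩ := hx'
      rw [inv_neg]
      exact ⟨m, by rwa [sub_neg_eq_add], by rwa [← sub_eq_add_neg]⟩
    have h3' := hQ.GG hbQ (unit_pos hn h3 hP hbP h2 h2' h1)
    have h4 := hQ.pre.eq_zero h h3'
    rw [h4]
    exact hP.pre.zero

theorem exists_val (hn : 2 ≤ n) (h3 : P3 (2 ^ n) K b)
    (hG : IsPre {x | GG (2 ^ n) b x}) {P : Set K} (hP : IsOrd P) (hbP : b ∈ P) {z : K}
    (hz : ¬ Pm {x | GG (2 ^ n) b x} z) :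
    ∃ O : ValuationSubring K, O ≠ ⊤ ∧ (∀ x, x ∈ O ↔ OG {x | GG (2 ^ n) b x} x) ∧
      (∀ x y, x ∈ P → y - x ∈ P → y ∈ O → x ∈ O) ∧
      ∀ u ∈ O, u⁻¹ ∈ O → Pm {x | GG (2 ^ n) b x} u := by
  obtain ⟨_, _, hp⟩ := hP.exists_lo
  have F1 : ∀ x : K, nv K x < 1 → 1 + x ∈ {x | GG (2 ^ n) b x} := by
    intro x hx
    obtain ⟨h1, h2⟩ := nv_lt_one hx
    refine unit_mem hP hn hbP h3 (m := 2) ?_ ?_ ?_
    · rw [hp]
      linarith
    · rw [hp]
      push_cast
      linarith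
    · rw [hp]
      push_cast
      linarith
  have F2 : ∀ x : K, nv K x = 1 → Pm {x | GG (2 ^ n) b x} x := by
    intro x hx
    obtain ⟨m, h1, h2⟩ := nv_eq_one hx
    rcases le_total 0 x with h | h
    · left
      rw [abs_of_nonneg h] at h1 h2
      refine unit_mem hP hn hbP h3 (m := m) ((hp _).mpr h) ?_ ?_
      · rw [hp]
        linarith
      · rw [hp]
        linarith
    · right
      rw [abs_of_nonpos h] at h1 h2
      refine unit_mem hP hn hbP h3 (m := m) ((hp _).mpr (by linarith)) ?_ ?_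
      · rw [hp]
        linarith
      · rw [hp]
        linarith
  obtain ⟨O, hO1, hO2⟩ := exists_valSubring (nv K) hG F1 F2
  refine ⟨O, ?_, hO2, ?_, ?_⟩
  · rintro rfl
    obtain ⟨x, hx⟩ := exists_not_mem (nv K) hG F2 hz
    exact hx ((hO1 x).mp (ValuationSubring.mem_top x))
  · intro x y hx hyx hy
    rw [hp] at hx hyx
    rw [hO1] at hy ⊢
    intro w hw hw1
    have h1 := hy w hw hw1
    rw [map_mul] at h1 ⊢
    exact lt_of_le_of_lt (mul_le_mul_left (nv_le hx (by linarith)) _) h1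
  · intro u hu hu'
    by_cases hu0 : u = 0
    · subst hu0
      exact Or.inl (GG.zero _ _)
    · rw [hO1] at hu hu'
      exact pm_of_unit (nv K) hG F2 hu0 hu hu'

end

section

variable {K : Type} [Field K] [CompatibleRing K]

theorem isDef_GG (N : ℕ) (b : K) : IsDef {x | GG N b x} := by
  refine isDef_of_UD (R := fun K _ w => GG N (w (Sum.inr 0)) (w (Sum.inl 0)))
    (UD_GG N (UT.var _) (UT.var _)) (fun _ : Fin 1 => b) fun x => Iff.rfl

theorem UD_Pm (N : ℕ) {α : Type} {f g : ∀ (K : Type) [Field K], (α → K) → K} (hf : UT α f)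
    (hg : UT α g) : UD α (fun K _ v => Pm {x | GG N (f K v) x} (g K v)) :=
  (UD_GG N hf hg).or (UD_GG N hf hg.neg)

theorem isDef_OG (N : ℕ) (b : K) : IsDef {x | OG {x | GG N b x} x} := by
  refine isDef_of_UD (R := fun K _ w => OG {x | GG N (w (Sum.inr 0)) x} (w (Sum.inl 0)))
    ?_ (fun _ : Fin 1 => b) fun x => Iff.rfl
  have hb : UT (Fin 1 ⊕ Fin 1) (fun K _ w => w (Sum.inr 0)) := UT.var _
  have hx : UT (Fin 1 ⊕ Fin 1) (fun K _ w => w (Sum.inl 0)) := UT.var _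
  have hb' : UT ((Fin 1 ⊕ Fin 1) ⊕ Unit) (fun K _ w => w (Sum.inl (Sum.inr 0))) := UT.var _
  have hx' : UT ((Fin 1 ⊕ Fin 1) ⊕ Unit) (fun K _ w => w (Sum.inl (Sum.inl 0))) := UT.var _
  have hy' : UT ((Fin 1 ⊕ Fin 1) ⊕ Unit) (fun K _ w => w (Sum.inr ())) := UT.var _
  refine UD.or ((UD_Pm N hb hx).not.and (UD_GG N hb (UT.one.add hx)))
    ((UD_Pm N hb hx).and ?_)
  apply UD.all1
  exact (UD_Pm N hb' hy').not.imp ((UD_GG N hb' (UT.one.add hy')).imp
    (UD_GG N hb' (UT.one.add (hx'.mul hy'))))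

/-- The main theorem on the orderings of a tame field. -/
theorem orderings' (hK : Tame K) : ∃ (r n : ℕ) (b : Fin r → K),
    (∀ P, IsOrd P → ∃! k, b k ∈ P) ∧
    ∀ k, (∃ P, IsOrd P ∧ b k ∈ P) ∧
      (∀ P Q, IsOrd P → IsOrd Q → b k ∈ P → b k ∈ Q → SamePlace P Q) ∧
      (∀ x, (∀ P, IsOrd P → b k ∈ P → x ∈ P) ↔ GG n (b k) x) ∧
      ((∃ P, IsOrd P ∧ b k ∈ P ∧ (∀ Q, IsOrd Q → b k ∈ Q → Q = P) ∧ IsDef P) ∨
        ∃ O : ValuationSubring K, O ≠ ⊤ ∧ IsDef (O : Set K) ∧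
          (∀ P, IsOrd P → b k ∈ P → ∀ x y, x ∈ P → y - x ∈ P → y ∈ O → x ∈ O) ∧
          ∀ P Q, IsOrd P → IsOrd Q → b k ∈ P → b k ∈ Q →
            ∀ u ∈ O, u⁻¹ ∈ O → (u ∈ P ↔ u ∈ Q)) := by
  obtain ⟨n, m, r, hn, b, hb1, hb2, hb3⟩ := exists_MC hK
  have hTT : ∀ k x, TT (b k) x ↔ GG (2 ^ n) (b k) x := fun k x =>
    TT_iff' Nat.one_le_two_pow n rfl (hb1 k).2.1
  have hneg : ∀ k, ¬ TT (b k) (-1) := fun k => by
    rw [hTT]
    exact (hb1 k).2.2.1
  have hiff : ∀ k x, (∀ P, IsOrd P → b k ∈ P → x ∈ P) ↔ GG (2 ^ n) (b k) x := by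
    intro k x
    constructor
    · intro h
      rw [← hTT]
      by_contra hcon
      obtain ⟨P, hP, h1, h2⟩ := exists_ord_TT (hneg k) hcon
      exact h2 (h P hP h1)
    · exact fun h P hP hbP => hP.GG hbP h
  refine ⟨r, 2 ^ n, b, fun P hP => ?_, fun k => ⟨exists_ord_TT' (hneg k),
    fun P Q hP hQ h1 h2 => samePlace hn (hb1 k).1 hP hQ h1 h2, hiff k, ?_⟩⟩
  · have hex : ∃ k, b k ∈ P := by
      by_contra hcon
      push Not at hcon
      have h1 : ∏ k, -b k ∈ P :=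
        Finset.prod_induction _ (fun z => z ∈ P) (fun a b ha hb => hP.mul _ ha _ hb)
          hP.pre.one fun l _ => (hP.total _).resolve_left (hcon l)
      have h2 := hP.pre.eq_zero h1 (hP.SS hb3)
      rw [Finset.prod_eq_zero_iff] at h2
      obtain ⟨k, -, hk⟩ := h2
      exact (hb1 k).2.2.2 (neg_eq_zero.mp hk)
    obtain ⟨k, hk⟩ := hex
    refine ⟨k, hk, fun l hl => ?_⟩
    by_contra hne
    have h1 := hP.GG hk (hb2 k l (Ne.symm hne))
    exact (hb1 l).2.2.2 (hP.pre.eq_zero hl h1)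
  · have hG : IsPre {x | GG (2 ^ n) (b k) x} := by
      refine ⟨fun x hx y hy => (hb1 k).2.1 x y hx hy, fun x hx y hy => GG.mul hx hy,
        fun x => GG.sq Nat.one_le_two_pow _ _, (hb1 k).2.2.1⟩
    by_cases htot : ∀ z, Pm {x | GG (2 ^ n) (b k) x} z
    · left
      refine ⟨{x | GG (2 ^ n) (b k) x}, ⟨hG.add, hG.mul, htot, hG.neg_one⟩,
        GG.self Nat.one_le_two_pow _, ?_, isDef_GG _ _⟩
      intro Q hQ hbQ
      apply Set.Subset.antisymm
      · intro x hx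
        rcases htot x with h | h
        · exact h
        · have h1 := hQ.pre.eq_zero hx (hQ.GG hbQ h)
          rw [h1]
          exact hG.zero
      · exact fun x hx => hQ.GG hbQ hx
    · right
      push Not at htot
      obtain ⟨z, hz⟩ := htot
      obtain ⟨P, hP, hbP⟩ := exists_ord_TT' (hneg k)
      obtain ⟨O, h1, h2, h3, h4⟩ := exists_val hn (hb1 k).1 hG hP hbP hz
      refine ⟨O, h1, ?_, fun Q hQ hbQ => ?_, fun Q Q' hQ hQ' hbQ hbQ' u hu hu' => ?_⟩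
      · have e : (O : Set K) = {x | OG {x | GG (2 ^ n) (b k) x} x} := by
          ext x
          exact h2 x
        rw [e]
        exact isDef_OG _ _
      · obtain ⟨O', h1', h2', h3', h4'⟩ := exists_val hn (hb1 k).1 hG hQ hbQ hz
        intro x y hx hy hyO
        rw [h2, ← h2']
        rw [h2, ← h2'] at hyO
        exact h3' x y hx hy hyO
      · have key : ∀ R R' : Set K, IsOrd R → IsOrd R' → b k ∈ R → b k ∈ R' → u ∈ R → u ∈ R' := by
          intro R R' hR hR' hbR hbR' h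
          rcases h4 u hu hu' with h5 | h5
          · exact hR'.GG hbR' h5
          · have h6 := hR.pre.eq_zero h (hR.GG hbR h5)
            rw [h6]
            exact hR'.pre.zero
        exact ⟨key Q Q' hQ hQ' hbQ hbQ', key Q' Q hQ' hQ hbQ' hbQ⟩

end

end Pool.Agent.Q175.NF
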