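import Pool.Agent.Q175.NF.Def
import Pool.Agent.W882.Nip3.Main3
import Pool.Agent.TH686.NF.Unram

/-!
# Norm forms
-/

set_option autoImplicit false

open Polynomial

namespace Pool.Agent.Q175.NF

open Pool.Agent.W882.Nip3

section

variable {R : Type} [CommRing R]

/-- The companion matrix of the monic polynomial with lower coefficients `a`. -/
def compM (d : ℕ) (a : Fin d → R) : Matrix (Fin d) (Fin d) R :=
  fun l j => if (j : ℕ) + 1 = d then -a l else if (l : ℕ) = j + 1 then 1 else 0

/-- The norm form of the algebra `R[X] / (f)`, `f` the monic polynomial with lower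
coefficients `a`. -/
def nfm (d : ℕ) (a x : Fin d → R) : R := (∑ i : Fin d, x i • compM d a ^ (i : ℕ)).det

/-- The coordinates of the derivative. -/
def der (d : ℕ) (a : Fin d → R) (i : Fin d) : R :=
  if h : (i : ℕ) + 1 < d then ((i : ℕ) + 1 : ℕ) * a ⟨i + 1, h⟩ else (d : R)

theorem nfm_map {S : Type} [CommRing S] (φ : R →+* S) (d : ℕ) (a x : Fin d → R) :
    nfm d (fun i => φ (a i)) (fun i => φ (x i)) = φ (nfm d a x) := by
  rw [nfm, nfm, RingHom.map_det]
  congr 1
  rw [map_sum]
  refine Finset.sum_congr rfl fun i _ => ?_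
  have h1 : compM d (fun i => φ (a i)) = φ.mapMatrix (compM d a) := by
    ext l j
    simp only [compM, RingHom.mapMatrix_apply, Matrix.map_apply]
    split_ifs <;> simp
  rw [h1, ← map_pow]
  ext l j
  simp [RingHom.mapMatrix_apply]

theorem der_map {S : Type} [CommRing S] (φ : R →+* S) (d : ℕ) (a : Fin d → R) (i : Fin d) :
    der d (fun i => φ (a i)) i = φ (der d a i) := by
  simp only [der]
  split_ifs <;> simp

theorem root_pow_basis [Nontrivial R] (d : ℕ) (a : Fin d → R) :
    Algebra.leftMulMatrix (algBasis d a) (AdjoinRoot.root (mpoly d a)) = compM d a := by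
  ext l j
  rw [Algebra.leftMulMatrix_eq_repr_mul, algBasis_apply, ← pow_succ']
  by_cases h : (j : ℕ) + 1 = d
  · have h1 : AdjoinRoot.root (mpoly d a) ^ ((j : ℕ) + 1) =
        ∑ k : Fin d, (-a k) • algBasis d a k := by
      have h2 : aeval (AdjoinRoot.root (mpoly d a)) (mpoly d a) = 0 := by
        rw [AdjoinRoot.aeval_eq, AdjoinRoot.mk_self]
      rw [aeval_mpoly, ev] at h2
      rw [h]
      simp only [neg_smul, Finset.sum_neg_distrib, algBasis_apply]
      exact eq_neg_of_add_eq_zero_left h2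
    rw [h1, (algBasis d a).repr_sum_self, compM, if_pos h]
  · have h1 : (j : ℕ) + 1 < d := lt_of_le_of_ne j.2 h
    have h2 : AdjoinRoot.root (mpoly d a) ^ ((j : ℕ) + 1) = algBasis d a ⟨j + 1, h1⟩ := by
      rw [algBasis_apply]
    rw [h2, Module.Basis.repr_self, compM, if_neg h, Finsupp.single_apply]
    congr 1
    rw [Fin.ext_iff]
    exact propext eq_comm

theorem norm_eq_nfm [Nontrivial R] (d : ℕ) (a x : Fin d → R) :
    Algebra.norm R (∑ i, x i • algBasis d a i) = nfm d a x := by
  rw [Algebra.norm_eq_matrix_det (algBasis d a), nfm]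
  congr 1
  rw [map_sum]
  refine Finset.sum_congr rfl fun i _ => ?_
  rw [map_smul, algBasis_apply, map_pow, root_pow_basis]

end

section

variable {F : Type} [Field F]

/-- The projections of `F[X] / (g h)`. -/
noncomputable def toProd (g h : F[X]) : AdjoinRoot (g * h) →ₐ[F] AdjoinRoot g × AdjoinRoot h :=
  (AdjoinRoot.algHomOfDvd F (g * h) g (dvd_mul_right g h)).prod
    (AdjoinRoot.algHomOfDvd F (g * h) h (dvd_mul_left h g))

theorem algHomOfDvd_mk (f g : F[X]) (hgf : g ∣ f) (P : F[X]) :
    AdjoinRoot.algHomOfDvd F f g hgf (AdjoinRoot.mk f P) = AdjoinRoot.mk g P := by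
  rw [← AdjoinRoot.aeval_eq, ← AdjoinRoot.aeval_eq, ← aeval_algHom_apply,
    AdjoinRoot.algHomOfDvd_root]

theorem toProd_mk (g h P : F[X]) :
    toProd g h (AdjoinRoot.mk (g * h) P) = (AdjoinRoot.mk g P, AdjoinRoot.mk h P) := by
  rw [toProd, AlgHom.prod_apply, algHomOfDvd_mk, algHomOfDvd_mk]

theorem toProd_inj {g h : F[X]} (hc : IsCoprime g h) : Function.Injective (toProd g h) := by
  rw [injective_iff_map_eq_zero]
  intro z hz
  obtain ⟨P, rfl⟩ := AdjoinRoot.mk_surjective z
  rw [toProd_mk, Prod.mk_eq_zero, AdjoinRoot.mk_eq_zero, AdjoinRoot.mk_eq_zero] at hz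
  rw [AdjoinRoot.mk_eq_zero]
  exact hc.mul_dvd hz.1 hz.2

theorem finrank_adj {g : F[X]} (hg : g.Monic) :
    Module.finrank F (AdjoinRoot g) = g.natDegree := by
  rw [(AdjoinRoot.powerBasis' hg).finrank, AdjoinRoot.powerBasis'_dim]

theorem toProd_bij {g h : F[X]} (hg : g.Monic) (hh : h.Monic) (hc : IsCoprime g h) :
    Function.Bijective (toProd g h) := by
  have f1 : Module.Finite F (AdjoinRoot g) := hg.finite_adjoinRoot
  have f2 : Module.Finite F (AdjoinRoot h) := hh.finite_adjoinRoot
  have f3 : Module.Finite F (AdjoinRoot (g * h)) := (hg.mul hh).finite_adjoinRoot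
  have e : Module.finrank F (AdjoinRoot (g * h)) =
      Module.finrank F (AdjoinRoot g × AdjoinRoot h) := by
    rw [Module.finrank_prod, finrank_adj hg, finrank_adj hh, finrank_adj (hg.mul hh),
      hg.natDegree_mul hh]
  have h1 := toProd_inj hc
  refine ⟨h1, ?_⟩
  exact (LinearMap.injective_iff_surjective_of_finrank_eq_finrank (f := (toProd g h).toLinearMap)
    e).mp h1

theorem norm_prod {A B : Type} [CommRing A] [CommRing B] [Algebra F A] [Algebra F B]
    [Module.Finite F A] [Module.Finite F B] (a : A) (b : B) :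
    Algebra.norm F ((a, b) : A × B) = Algebra.norm F a * Algebra.norm F b := by
  rw [Algebra.norm_apply, Algebra.norm_apply, Algebra.norm_apply, ← LinearMap.det_prodMap]
  congr 1

theorem norm_toProd {g h : F[X]} (hg : g.Monic) (hh : h.Monic) (hc : IsCoprime g h)
    (z : AdjoinRoot (g * h)) : Algebra.norm F z =
      Algebra.norm F (toProd g h z).1 * Algebra.norm F (toProd g h z).2 := by
  have f1 : Module.Finite F (AdjoinRoot g) := hg.finite_adjoinRoot
  have f2 : Module.Finite F (AdjoinRoot h) := hh.finite_adjoinRoot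
  rw [← norm_prod]
  let e : AdjoinRoot (g * h) ≃ₐ[F] AdjoinRoot g × AdjoinRoot h :=
    AlgEquiv.ofBijective (toProd g h) (toProd_bij hg hh hc)
  exact (Algebra.norm_eq_of_algEquiv e z).symm

/-- If `F` has dimension at most one up to `D`, the norm forms of degree at most `D` represent
all elements. -/
theorem norm_surj {D : ℕ} (hF : DimLeOneUpTo F D) {f : F[X]} (hf : f.Monic) (hs : f.Separable)
    (hd : f.natDegree ≤ D) (hd0 : 0 < f.natDegree) (c : F) :
    ∃ z : AdjoinRoot f, Algebra.norm F z = c := by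
  have hnu : ¬ IsUnit f := fun h => hd0.ne' (natDegree_eq_zero_of_isUnit h)
  obtain ⟨g, hg2, hg1, h, rfl⟩ := exists_monic_irreducible_factor f hnu
  have hh : h.Monic := hg2.of_mul_monic_left hf
  have hc : IsCoprime g h := hs.isCoprime
  have : Fact (Irreducible g) := ⟨hg1⟩
  have hgd : g.natDegree ≤ D := by
    rw [hg2.natDegree_mul hh] at hd
    omega
  have f1 : Module.Finite F (AdjoinRoot g) := hg2.finite_adjoinRoot
  obtain ⟨u, hu⟩ := hF F inferInstance inferInstance (by simp; omega) (AdjoinRoot g) f1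
    (Pool.Agent.TH686.NF.isSeparable_adjoinRoot hg1 (hs.of_mul_left))
    (by rwa [finrank_adj hg2]) c
  obtain ⟨z, hz⟩ := (toProd_bij hg2 hh hc).2 (u, 1)
  refine ⟨z, ?_⟩
  rw [norm_toProd hg2 hh hc, hz, map_one, mul_one]
  exact hu

theorem nfm_surj {D d : ℕ} (hF : DimLeOneUpTo F D) (hdD : d ≤ D) (hd0 : 0 < d) {a : Fin d → F}
    (hs : (mpoly d a).Separable) (c : F) : ∃ x : Fin d → F, nfm d a x = c := by
  obtain ⟨z, hz⟩ := norm_surj hF (mpoly_monic d a) hs (by rwa [mpoly_natDegree])
    (by rwa [mpoly_natDegree]) c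
  refine ⟨fun i => (algBasis d a).repr z i, ?_⟩
  rw [← norm_eq_nfm]
  rw [← hz]
  congr 1
  exact (algBasis d a).sum_repr z

theorem coeff_mpoly (d : ℕ) (a : Fin d → F) (n : ℕ) :
    (mpoly d a).coeff n = if h : n < d then a ⟨n, h⟩ else if n = d then 1 else 0 := by
  rw [mpoly, coeff_add, coeff_X_pow, finsetSum_coeff]
  simp only [coeff_C_mul, coeff_X_pow]
  by_cases hn : n < d
  · rw [dif_pos hn, if_neg hn.ne, Finset.sum_eq_single ⟨n, hn⟩]
    · simp
    · intro b _ hb
      rw [if_neg, mul_zero]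
      intro h
      apply hb
      ext
      exact h.symm
    · intro h
      exact absurd (Finset.mem_univ _) h
  · rw [dif_neg hn, Finset.sum_eq_zero, add_zero]
    intro b _
    rw [if_neg, mul_zero]
    intro h
    exact hn (h ▸ b.2)

theorem derivative_mpoly (d : ℕ) (a : Fin d → F) :
    derivative (mpoly d a) = ∑ i : Fin d, C (der d a i) * X ^ (i : ℕ) := by
  ext n
  rw [coeff_derivative, finsetSum_coeff]
  simp only [coeff_C_mul, coeff_X_pow]
  by_cases hn : n < d
  · rw [Finset.sum_eq_single ⟨n, hn⟩]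
    · simp only [if_true, mul_one, der]
      rw [coeff_mpoly]
      by_cases h : n + 1 < d
      · rw [dif_pos h, dif_pos h]
        push_cast
        ring
      · have h1 : n + 1 = d := by omega
        rw [dif_neg h, if_pos h1, dif_neg h, ← h1]
        push_cast
        ring
    · intro b _ hb
      rw [if_neg, mul_zero]
      intro h
      apply hb
      ext
      exact h.symm
    · intro h
      exact absurd (Finset.mem_univ _) h
  · rw [Finset.sum_eq_zero, coeff_mpoly, dif_neg (by omega), if_neg (by omega), zero_mul]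
    intro b _
    rw [if_neg, mul_zero]
    intro h
    exact hn (h ▸ b.2)

theorem sum_der (d : ℕ) (a : Fin d → F) :
    ∑ i, der d a i • algBasis d a i = AdjoinRoot.mk (mpoly d a) (derivative (mpoly d a)) := by
  rw [derivative_mpoly, map_sum]
  refine Finset.sum_congr rfl fun i _ => ?_
  rw [map_mul, map_pow, AdjoinRoot.mk_X, algBasis_apply, Algebra.smul_def, AdjoinRoot.mk_C]
  rfl

theorem separable_of_nfm {d : ℕ} {a : Fin d → F} (h : nfm d a (der d a) ≠ 0) :
    (mpoly d a).Separable := by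
  rw [← norm_eq_nfm, sum_der d] at h
  have f3 : Module.Finite F (AdjoinRoot (mpoly d a)) := (mpoly_monic d a).finite_adjoinRoot
  rw [Algebra.norm_apply] at h
  obtain ⟨u, hu⟩ := (LinearMap.equivOfDetNeZero _ h).surjective 1
  have hu : AdjoinRoot.mk (mpoly d a) (derivative (mpoly d a)) * u = 1 := hu
  obtain ⟨P, rfl⟩ := AdjoinRoot.mk_surjective u
  rw [← map_mul, ← map_one (AdjoinRoot.mk (mpoly d a)), AdjoinRoot.mk_eq_mk] at hu
  obtain ⟨Q, hQ⟩ := hu
  refine ⟨-Q, P, ?_⟩
  linear_combination hQ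

theorem nfm_of_separable {d : ℕ} {a : Fin d → F} (h : (mpoly d a).Separable) :
    nfm d a (der d a) ≠ 0 := by
  rw [← norm_eq_nfm, sum_der d]
  obtain ⟨Q, P, hPQ⟩ := h
  have h1 : AdjoinRoot.mk (mpoly d a) (derivative (mpoly d a)) * AdjoinRoot.mk (mpoly d a) P = 1 := by
    rw [← map_mul, ← map_one (AdjoinRoot.mk (mpoly d a)), AdjoinRoot.mk_eq_mk]
    exact ⟨-Q, by linear_combination hPQ⟩
  intro h2
  have h3 := congrArg (Algebra.norm F) h1
  rw [map_mul, h2, zero_mul, map_one] at h3
  exact zero_ne_one h3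

end

end Pool.Agent.Q175.NF
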