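import Pool.Agent.Q175.NF.Sq

/-!
# Orderings of a field, and the theorem of Artin and Schreier
-/

set_option autoImplicit false

namespace Pool.Agent.Q175.NF

variable {K : Type} [Field K]

/-- `P` is the set of the nonnegative elements of an ordering of the field `K`. -/
structure IsOrd (P : Set K) : Prop where
  add : ∀ x ∈ P, ∀ y ∈ P, x + y ∈ P
  mul : ∀ x ∈ P, ∀ y ∈ P, x * y ∈ P
  total : ∀ x, x ∈ P ∨ -x ∈ P
  neg_one : (-1 : K) ∉ P

/-- `S` is a preordering of `K`. -/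
structure IsPre (S : Set K) : Prop where
  add : ∀ x ∈ S, ∀ y ∈ S, x + y ∈ S
  mul : ∀ x ∈ S, ∀ y ∈ S, x * y ∈ S
  sq : ∀ x : K, x ^ 2 ∈ S
  neg_one : (-1 : K) ∉ S

theorem IsOrd.sq {P : Set K} (h : IsOrd P) (x : K) : x ^ 2 ∈ P := by
  rcases h.total x with h1 | h1
  · rw [pow_two]
    exact h.mul _ h1 _ h1
  · have := h.mul _ h1 _ h1
    rwa [neg_mul_neg, ← pow_two] at this

theorem IsOrd.pre {P : Set K} (h : IsOrd P) : IsPre P := ⟨h.add, h.mul, h.sq, h.neg_one⟩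

theorem IsPre.zero {S : Set K} (h : IsPre S) : (0 : K) ∈ S := by
  simpa using h.sq 0

theorem IsPre.one {S : Set K} (h : IsPre S) : (1 : K) ∈ S := by
  simpa using h.sq 1

theorem IsPre.eq_zero {S : Set K} (h : IsPre S) {x : K} (h1 : x ∈ S) (h2 : -x ∈ S) : x = 0 := by
  by_contra h0
  apply h.neg_one
  have h3 := h.mul _ (h.mul _ h1 _ h2) _ (h.sq x⁻¹)
  have h4 : x * -x * x⁻¹ ^ 2 = -1 := by
    field_simp
  rwa [h4] at h3

theorem IsPre.extend {S : Set K} (h : IsPre S) {x : K} (hx : x ∉ S) :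
    IsPre {z | ∃ s ∈ S, ∃ t ∈ S, z = s - x * t} where
  add := by
    rintro _ ⟨s, hs, t, ht, rfl⟩ _ ⟨s', hs', t', ht', rfl⟩
    exact ⟨s + s', h.add _ hs _ hs', t + t', h.add _ ht _ ht', by ring⟩
  mul := by
    rintro _ ⟨s, hs, t, ht, rfl⟩ _ ⟨s', hs', t', ht', rfl⟩
    refine ⟨s * s' + x ^ 2 * (t * t'), h.add _ (h.mul _ hs _ hs') _
      (h.mul _ (h.sq x) _ (h.mul _ ht _ ht')), s * t' + t * s',
      h.add _ (h.mul _ hs _ ht') _ (h.mul _ ht _ hs'), by ring⟩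
  sq y := ⟨y ^ 2, h.sq y, 0, h.zero, by ring⟩
  neg_one := by
    rintro ⟨s, hs, t, ht, h1⟩
    by_cases ht0 : t = 0
    · subst ht0
      rw [mul_zero, sub_zero] at h1
      exact h.neg_one (h1 ▸ hs)
    · apply hx
      have h2 : x = (1 + s) * t * t⁻¹ ^ 2 := by
        have h3 : x * t = 1 + s := by linear_combination h1
        field_simp
        linear_combination h3
      rw [h2]
      exact h.mul _ (h.mul _ (h.add _ h.one _ hs) _ ht) _ (h.sq _)

theorem IsPre.exists_ord {S : Set K} (h : IsPre S) : ∃ P, IsOrd P ∧ S ⊆ P := by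
  obtain ⟨P, hSP, hP⟩ := zorn_subset_nonempty {S : Set K | IsPre S} (by
    intro c hc hchain hne
    refine ⟨⋃₀ c, ⟨?_, ?_, ?_, ?_⟩, fun s hs => Set.subset_sUnion_of_mem hs⟩
    · rintro x ⟨s, hs, hx⟩ y ⟨t, ht, hy⟩
      rcases hchain.total hs ht with h1 | h1
      · exact ⟨t, ht, (hc ht).add _ (h1 hx) _ hy⟩
      · exact ⟨s, hs, (hc hs).add _ hx _ (h1 hy)⟩
    · rintro x ⟨s, hs, hx⟩ y ⟨t, ht, hy⟩
      rcases hchain.total hs ht with h1 | h1
      · exact ⟨t, ht, (hc ht).mul _ (h1 hx) _ hy⟩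
      · exact ⟨s, hs, (hc hs).mul _ hx _ (h1 hy)⟩
    · intro x
      obtain ⟨s, hs⟩ := hne
      exact ⟨s, hs, (hc hs).sq x⟩
    · rintro ⟨s, hs, hx⟩
      exact (hc hs).neg_one hx) S h
  have hP' : IsPre P := hP.prop
  refine ⟨P, ⟨hP'.add, hP'.mul, fun x => ?_, hP'.neg_one⟩, hSP⟩
  by_contra hcon
  push Not at hcon
  obtain ⟨h1, h2⟩ := hcon
  have h3 := hP'.extend h1
  have h4 : P ⊆ {z | ∃ s ∈ P, ∃ t ∈ P, z = s - x * t} := fun s hs =>
    ⟨s, hs, 0, hP'.zero, by ring⟩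
  have h5 := hP.le_of_ge h3 h4
  exact h2 (h5 ⟨0, hP'.zero, 1, hP'.one, by ring⟩)

theorem IsPre.exists_ord_notMem {S : Set K} (h : IsPre S) {x : K} (hx : x ∉ S) :
    ∃ P, IsOrd P ∧ S ⊆ P ∧ x ∉ P := by
  obtain ⟨P, hP, hSP⟩ := (h.extend hx).exists_ord
  refine ⟨P, hP, fun s hs => hSP ⟨s, hs, 0, h.zero, by ring⟩, fun hxP => ?_⟩
  have h1 : -x ∈ P := hSP ⟨0, h.zero, 1, h.one, by ring⟩
  have h2 := hP.pre.eq_zero hxP h1
  exact hx (h2 ▸ h.zero)

theorem IsPre.SS {S : Set K} (h : IsPre S) {n : ℕ} {x : K} (hx : SS n x) : x ∈ S := by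
  obtain ⟨y, rfl⟩ := hx
  refine Finset.sum_induction _ (fun z => z ∈ S) (fun a b ha hb => h.add _ ha _ hb) h.zero
    fun i _ => h.sq _

theorem IsPre.GG {S : Set K} (h : IsPre S) {n : ℕ} {b x : K} (hb : b ∈ S) (hx : GG n b x) :
    x ∈ S := by
  obtain ⟨s, t, hs, ht, rfl⟩ := GG.iff.mp hx
  exact h.add _ (h.SS hs) _ (h.mul _ hb _ (h.SS ht))

theorem IsOrd.SS {P : Set K} (h : IsOrd P) {n : ℕ} {x : K} (hx : SS n x) : x ∈ P := h.pre.SS hx

theorem IsOrd.GG {P : Set K} (h : IsOrd P) {n : ℕ} {b x : K} (hb : b ∈ P) (hx : GG n b x) :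
    x ∈ P := h.pre.GG hb hx

theorem isPre_TT {b : K} (hb : ¬ TT b (-1)) : IsPre {x | TT b x} :=
  ⟨fun _ hx _ hy => TT.add hx hy, fun _ hx _ hy => TT.mul hx hy, TT.sq b, hb⟩

theorem exists_ord_TT {b : K} (hb : ¬ TT b (-1)) {x : K} (hx : ¬ TT b x) :
    ∃ P, IsOrd P ∧ b ∈ P ∧ x ∉ P := by
  obtain ⟨P, hP, h1, h2⟩ := (isPre_TT hb).exists_ord_notMem (x := x) hx
  exact ⟨P, hP, h1 (TT.self b), h2⟩

theorem exists_ord_TT' {b : K} (hb : ¬ TT b (-1)) : ∃ P, IsOrd P ∧ b ∈ P := by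
  obtain ⟨P, hP, h1, -⟩ := exists_ord_TT hb hb
  exact ⟨P, hP, h1⟩

theorem IsOrd.not_TT {P : Set K} (h : IsOrd P) {b : K} (hb : b ∈ P) : ¬ TT b (-1) := by
  rintro ⟨n, hn⟩
  exact h.neg_one (h.GG hb hn)

theorem IsOrd.exists_lo {P : Set K} (h : IsOrd P) :
    ∃ (_ : LinearOrder K) (_ : IsStrictOrderedRing K), ∀ x, x ∈ P ↔ 0 ≤ x := by
  classical
  let lo : LinearOrder K :=
    { le := fun x y => y - x ∈ P
      le_refl := fun x => by
        show x - x ∈ P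
        rw [sub_self]
        exact h.pre.zero
      le_trans := fun x y z (h1 : y - x ∈ P) (h2 : z - y ∈ P) => by
        have := h.add _ h1 _ h2
        rw [show y - x + (z - y) = z - x by ring] at this
        exact this
      le_antisymm := fun x y (h1 : y - x ∈ P) (h2 : x - y ∈ P) => by
        have := h.pre.eq_zero h1 (by rwa [neg_sub])
        exact (sub_eq_zero.mp this).symm
      le_total := fun x y => by
        show y - x ∈ P ∨ x - y ∈ P
        rcases h.total (y - x) with h1 | h1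
        · exact Or.inl h1
        · rw [neg_sub] at h1
          exact Or.inr h1
      toDecidableLE := Classical.decRel _ }
  have hle : ∀ x y : K, lo.le x y ↔ y - x ∈ P := fun x y => Iff.rfl
  have h0 : ∀ x : K, x ∈ P ↔ lo.le 0 x := fun x => by rw [hle, sub_zero]
  have hr : @IsOrderedRing K _ lo.toPartialOrder := by
    letI := lo
    haveI : IsOrderedAddMonoid K :=
      { add_le_add_left := fun x y hxy z => by
          rw [hle] at hxy ⊢
          rwa [add_sub_add_right_eq_sub] }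
    haveI : ZeroLEOneClass K := ⟨by
      rw [hle, sub_zero]
      exact h.pre.one⟩
    exact IsOrderedRing.of_mul_nonneg fun x y hx hy => by
      rw [← h0] at *
      exact h.mul _ hx _ hy
  letI := lo
  exact ⟨lo, IsOrderedRing.toIsStrictOrderedRing K, h0⟩

theorem IsOrd.charZero {P : Set K} (h : IsOrd P) : CharZero K := by
  obtain ⟨_, _, -⟩ := h.exists_lo
  exact IsStrictOrderedRing.toCharZero

/-- The orderings `P` and `Q` are separated: some `x` has absolute value at most `1 / 2` in the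
first and at least `2` in the second. -/
def Sep (P Q : Set K) : Prop := ∃ x : K, 1 - 4 * x ^ 2 ∈ P ∧ x ^ 2 - 4 ∈ Q

theorem Sep.symm {P Q : Set K} (hP : IsOrd P) (hQ : IsOrd Q) (h : Sep P Q) : Sep Q P := by
  obtain ⟨x, h1, h2⟩ := h
  have hx : x ≠ 0 := by
    rintro rfl
    obtain ⟨_, _, h3⟩ := hQ.exists_lo
    rw [h3] at h2
    norm_num at h2
  refine ⟨x⁻¹, ?_, ?_⟩
  · have := hQ.mul _ h2 _ (hQ.sq x⁻¹)
    have e : (x ^ 2 - 4) * x⁻¹ ^ 2 = 1 - 4 * x⁻¹ ^ 2 := by field_simp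
    rwa [e] at this
  · have := hP.mul _ h1 _ (hP.sq x⁻¹)
    have e : (1 - 4 * x ^ 2) * x⁻¹ ^ 2 = x⁻¹ ^ 2 - 4 := by field_simp
    rwa [e] at this

theorem not_sep_self {P : Set K} (hP : IsOrd P) : ¬ Sep P P := by
  rintro ⟨x, h1, h2⟩
  obtain ⟨_, _, h3⟩ := hP.exists_lo
  rw [h3] at h1 h2
  nlinarith

/-- The lemma on cuts. -/
theorem cut {P Q : Set K} (hP : IsOrd P) (hQ : IsOrd Q) (u : K) (n : ℕ) (h1 : (n : K) + u ∈ P)
    {c d : ℤ} (hcd : c < d) (h2 : (c : K) - u ∈ P) (h3 : u - (d : K) ∈ Q) : Sep P Q := by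
  have key : ∃ m : ℤ, m ≤ 4 * c ∧ 1 - (4 * u - m) ^ 2 ∈ P := by
    obtain ⟨_, _, hp⟩ := hP.exists_lo
    simp only [hp] at h1 h2 ⊢
    have hb : ∀ z : ℤ, (z : K) ≤ 4 * u → z ≤ 4 * c := by
      intro z hz
      have : (z : K) ≤ ((4 * c : ℤ) : K) := by
        push_cast
        linarith
      exact_mod_cast this
    obtain ⟨m, hm1, hm2⟩ := Int.exists_greatest_of_bdd (P := fun z : ℤ => (z : K) ≤ 4 * u)
      ⟨4 * c, hb⟩ ⟨-(4 * n), by push_cast; linarith⟩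
    refine ⟨m, hb m hm1, ?_⟩
    have h4 : 4 * u < (m : K) + 1 := by
      by_contra hcon
      push Not at hcon
      have := hm2 (m + 1) (by push_cast; exact hcon)
      omega
    nlinarith
  obtain ⟨m, hm, hmP⟩ := key
  refine ⟨(4 * u - m) / 2, ?_, ?_⟩
  · have e : 1 - 4 * ((4 * u - (m : K)) / 2) ^ 2 = 1 - (4 * u - m) ^ 2 := by
      haveI := hP.charZero
      field_simp
      ring
    rw [e]
    exact hmP
  · obtain ⟨_, _, hq⟩ := hQ.exists_lo
    rw [hq] at h3 ⊢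
    have h5 : (m : K) ≤ 4 * c := by exact_mod_cast hm
    have h6 : (c : K) + 1 ≤ d := by exact_mod_cast hcd
    have h7 : (4 : K) ≤ 4 * u - m := by linarith
    nlinarith

end Pool.Agent.Q175.NF
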