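import Mathlib

/-!
# Sums of squares, and the values of the forms `2 ^ n * ⟨1, b⟩`
-/

set_option autoImplicit false

namespace Pool.Agent.Q175.NF

variable {K : Type} [Field K]

section

variable {ι : Type} [Fintype ι]

/-- The sum of the squares of the entries. -/
def qf (y : ι → K) : K := ∑ i, y i ^ 2

/-- The product of two sums of squares indexed by `ι` is a sum of squares indexed by `ι`. -/
def MulS (K : Type) [Field K] (ι : Type) [Fintype ι] : Prop :=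
  ∀ u v : ι → K, ∃ w : ι → K, qf w = qf u * qf v

theorem qf_smul (c : K) (y : ι → K) : qf (c • y) = c ^ 2 * qf y := by
  simp only [qf, Pi.smul_apply, smul_eq_mul, mul_pow, Finset.mul_sum]

theorem qf_add_smul (x y : ι → K) (c : K) :
    qf (x + c • y) = qf x + 2 * c * (∑ i, x i * y i) + c ^ 2 * qf y := by
  simp only [qf, Pi.add_apply, Pi.smul_apply, smul_eq_mul, Finset.mul_sum,
    ← Finset.sum_add_distrib]
  refine Finset.sum_congr rfl fun i _ => ?_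
  ring

theorem doubling (h : MulS K ι) (b : K) (x₁ y₁ x₂ y₂ : ι → K) :
    ∃ X Y : ι → K, qf X + b * qf Y = (qf x₁ + b * qf y₁) * (qf x₂ + b * qf y₂) := by
  by_cases hs : qf x₁ = 0
  · obtain ⟨w1, h1⟩ := h y₁ x₂
    obtain ⟨w2, h2⟩ := h y₁ y₂
    refine ⟨b • w2, w1, ?_⟩
    rw [qf_smul, h1, h2, hs]
    ring
  by_cases ht : qf y₁ = 0
  · obtain ⟨w1, h1⟩ := h x₁ x₂
    obtain ⟨w2, h2⟩ := h x₁ y₂
    refine ⟨w1, w2, ?_⟩
    rw [h1, h2, ht]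
    ring
  · obtain ⟨z, hz⟩ := h x₁ y₁
    obtain ⟨y, hy⟩ := h z y₂
    obtain ⟨X, hX⟩ := h x₁ (x₂ + (-(b * qf y₁)) • ((qf x₁ * qf y₁)⁻¹ • y))
    obtain ⟨Y, hY⟩ := h y₁ (x₂ + (qf x₁) • ((qf x₁ * qf y₁)⁻¹ • y))
    refine ⟨X, Y, ?_⟩
    rw [hX, hY, qf_add_smul, qf_add_smul, qf_smul, hy, hz]
    set B := ∑ i, x₂ i * ((qf x₁ * qf y₁)⁻¹ • y) i
    have h1 : (qf x₁ * qf y₁)⁻¹ ^ 2 * (qf x₁ * qf y₁ * qf y₂) * (qf x₁ * qf y₁) = qf y₂ := by
      field_simp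
    have h2 : (qf x₁ * qf y₁)⁻¹ ^ 2 * (qf x₁ * qf y₁ * qf y₂) = qf y₂ / (qf x₁ * qf y₁) := by
      field_simp
    rw [h2]
    field_simp
    ring

end

theorem mulS_pow (n : ℕ) : MulS K (Fin (2 ^ n)) := by
  induction n with
  | zero =>
    intro u v
    refine ⟨fun i => u i * v i, ?_⟩
    simp [qf, mul_pow]
  | succ n ih =>
    intro u v
    let e : Fin (2 ^ n) ⊕ Fin (2 ^ n) ≃ Fin (2 ^ (n + 1)) :=
      finSumFinEquiv.trans (finCongr (by ring))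
    have key : ∀ w : Fin (2 ^ (n + 1)) → K,
        qf w = qf (fun i => w (e (Sum.inl i))) + 1 * qf (fun i => w (e (Sum.inr i))) := by
      intro w
      rw [qf, ← Fintype.sum_equiv e (fun i => w (e i) ^ 2) _ (fun _ => rfl),
        Fintype.sum_sum_type, one_mul]
      rfl
    obtain ⟨X, Y, h⟩ := doubling ih 1 (fun i => u (e (Sum.inl i))) (fun i => u (e (Sum.inr i)))
      (fun i => v (e (Sum.inl i))) (fun i => v (e (Sum.inr i)))
    refine ⟨fun i => Sum.elim X Y (e.symm i), ?_⟩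
    rw [key u, key v, key, ← h]
    simp

/-- `x` is a sum of `n` squares. -/
def SS (n : ℕ) (x : K) : Prop := ∃ y : Fin n → K, x = ∑ i, y i ^ 2

/-- `x` is a value of the form `n * ⟨1, b⟩`. -/
def GG (n : ℕ) (b x : K) : Prop := ∃ y z : Fin n → K, x = ∑ i, y i ^ 2 + b * ∑ i, z i ^ 2

/-- `x` lies in the set `T + b T`, with `T` the set of the sums of squares. -/
def TT (b x : K) : Prop := ∃ n, GG n b x

theorem GG.mul {n : ℕ} {b x y : K} (hx : GG (2 ^ n) b x) (hy : GG (2 ^ n) b y) :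
    GG (2 ^ n) b (x * y) := by
  obtain ⟨x1, y1, rfl⟩ := hx
  obtain ⟨x2, y2, rfl⟩ := hy
  obtain ⟨X, Y, h⟩ := doubling (mulS_pow (K := K) n) b x1 y1 x2 y2
  exact ⟨X, Y, h.symm⟩

theorem GG.sq_mul {n : ℕ} {b x : K} (hx : GG n b x) (c : K) : GG n b (c ^ 2 * x) := by
  obtain ⟨y, z, rfl⟩ := hx
  refine ⟨fun i => c * y i, fun i => c * z i, ?_⟩
  simp only [mul_pow, ← Finset.mul_sum]
  ring

theorem GG.inv {n : ℕ} {b x : K} (hx : GG n b x) : GG n b x⁻¹ := by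
  have h := hx.sq_mul x⁻¹
  by_cases h0 : x = 0
  · subst h0
    simpa using hx
  · have h1 : x⁻¹ ^ 2 * x = x⁻¹ := by
      field_simp
    rwa [h1] at h

theorem GG.zero (n : ℕ) (b : K) : GG n b 0 := ⟨0, 0, by simp⟩

theorem SS.mono {n m : ℕ} (h : n ≤ m) {x : K} (hx : SS n x) : SS m x := by
  obtain ⟨k, rfl⟩ := Nat.exists_eq_add_of_le h
  obtain ⟨y, rfl⟩ := hx
  refine ⟨Fin.append y 0, ?_⟩
  rw [Fin.sum_univ_add]
  simp

theorem GG.iff {n : ℕ} {b x : K} : GG n b x ↔ ∃ s t, SS n s ∧ SS n t ∧ x = s + b * t := by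
  constructor
  · rintro ⟨y, z, h⟩
    exact ⟨_, _, ⟨y, rfl⟩, ⟨z, rfl⟩, h⟩
  · rintro ⟨s, t, ⟨y, rfl⟩, ⟨z, rfl⟩, h⟩
    exact ⟨y, z, h⟩

theorem GG.mono {n m : ℕ} (h : n ≤ m) {b x : K} (hx : GG n b x) : GG m b x := by
  obtain ⟨s, t, hs, ht, rfl⟩ := GG.iff.mp hx
  exact GG.iff.mpr ⟨s, t, hs.mono h, ht.mono h, rfl⟩

theorem SS.add {n m : ℕ} {x y : K} (hx : SS n x) (hy : SS m y) : SS (n + m) (x + y) := by
  obtain ⟨u, rfl⟩ := hx
  obtain ⟨v, rfl⟩ := hy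
  refine ⟨Fin.append u v, ?_⟩
  rw [Fin.sum_univ_add]
  simp

theorem GG.add {n m : ℕ} {b x y : K} (hx : GG n b x) (hy : GG m b y) :
    GG (n + m) b (x + y) := by
  obtain ⟨s, t, hs, ht, rfl⟩ := GG.iff.mp hx
  obtain ⟨s', t', hs', ht', rfl⟩ := GG.iff.mp hy
  exact GG.iff.mpr ⟨s + s', t + t', hs.add hs', ht.add ht', by ring⟩

theorem SS.sq {n : ℕ} (hn : 1 ≤ n) (c : K) : SS n (c ^ 2) := by
  refine SS.mono hn ⟨fun _ => c, ?_⟩
  simp

theorem SS.zero (n : ℕ) : SS n (0 : K) := ⟨0, by simp⟩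

theorem GG.of_SS {n : ℕ} {x : K} (b : K) (hx : SS n x) : GG n b x :=
  GG.iff.mpr ⟨x, 0, hx, SS.zero n, by simp⟩

theorem GG.sq {n : ℕ} (hn : 1 ≤ n) (b c : K) : GG n b (c ^ 2) := GG.of_SS b (SS.sq hn c)

theorem GG.self {n : ℕ} (hn : 1 ≤ n) (b : K) : GG n b b := by
  refine GG.iff.mpr ⟨0, 1, SS.zero n, ?_, by simp⟩
  simpa using SS.sq hn (1 : K)

theorem SS.nat {n : ℕ} (hn : 4 ≤ n) (m : ℕ) : SS n (m : K) := by
  obtain ⟨a, b, c, d, h⟩ := Nat.sum_four_squares m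
  refine SS.mono hn ⟨![(a : K), b, c, d], ?_⟩
  rw [Fin.sum_univ_four, ← h]
  push_cast
  rfl

theorem GG.nat {n : ℕ} (hn : 4 ≤ n) (b : K) (m : ℕ) : GG n b (m : K) := GG.of_SS b (SS.nat hn m)

theorem GG_zero_iff {n : ℕ} {x : K} : GG n 0 x ↔ SS n x := by
  constructor
  · rintro ⟨y, z, h⟩
    exact ⟨y, by rw [h]; ring⟩
  · exact fun h => GG.of_SS 0 h

theorem TT.add {b x y : K} (hx : TT b x) (hy : TT b y) : TT b (x + y) := by
  obtain ⟨n, hn⟩ := hx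
  obtain ⟨m, hm⟩ := hy
  exact ⟨_, hn.add hm⟩

theorem TT.mul {b x y : K} (hx : TT b x) (hy : TT b y) : TT b (x * y) := by
  obtain ⟨n, hn⟩ := hx
  obtain ⟨m, hm⟩ := hy
  have h1 : n ≤ 2 ^ (n + m) := (Nat.lt_two_pow_self).le.trans (Nat.pow_le_pow_right two_pos (by omega))
  have h2 : m ≤ 2 ^ (n + m) := (Nat.lt_two_pow_self).le.trans (Nat.pow_le_pow_right two_pos (by omega))
  exact ⟨_, (hn.mono h1).mul (hm.mono h2)⟩

theorem TT.sq (b c : K) : TT b (c ^ 2) := ⟨1, GG.sq le_rfl b c⟩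

theorem TT.self (b : K) : TT b b := ⟨1, GG.self le_rfl b⟩

theorem TT_zero_iff {x : K} : TT 0 x ↔ ∃ n, SS n x := by
  simp only [TT, GG_zero_iff]

theorem TT.of_SS {n : ℕ} {x : K} (b : K) (hx : SS n x) : TT b x := ⟨n, GG.of_SS b hx⟩

theorem isSumSq_iff {x : K} : IsSumSq x ↔ ∃ n, SS n x := by
  constructor
  · intro h
    induction h with
    | zero => exact ⟨0, SS.zero 0⟩
    | sq_add a hs ih =>
      obtain ⟨n, hn⟩ := ih
      have h1 := (SS.sq (n := 1) le_rfl a).add hn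
      rw [pow_two] at h1
      exact ⟨_, h1⟩
  · rintro ⟨n, y, rfl⟩
    exact IsSumSq.sum fun i _ => by
      rw [pow_two]
      exact IsSumSq.mul_self _

end Pool.Agent.Q175.NF
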