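import Pool.Agent.Q175.NF.Ord
import Pool.Agent.Q175.NF.Def

/-!
# Separating a maximal family of orderings by uniformly definable elements
-/

set_option autoImplicit false

namespace Pool.Agent.Q175.NF

/-- `c - ∑ (y_t - a_{k t}) ^ 2` -/
def bb {r : ℕ} (a : Fin r → Fin r × Fin r → ℤ) (c : ℕ) (k : Fin r) (K : Type) [Field K]
    (y : Fin r × Fin r → K) : K := (c : K) - ∑ t, (y t - (a k t : K)) ^ 2

theorem UT_bb {r : ℕ} (a : Fin r → Fin r × Fin r → ℤ) (c : ℕ) (k : Fin r) :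
    UT (Fin r × Fin r) (bb a c k) :=
  (UT.nat c).sub (UT.sum _ fun t => ((UT.var t).sub (UT.int (a k t))).pow 2)

/-- constants -/
def cR (r : ℕ) : ℕ := r ^ 2 + 1

/-- constants -/
def cM (r : ℕ) : ℕ := r ^ 2 * (cR r + 1) ^ 2 + cR r + 1

/-- constants -/
def cD (r : ℕ) : ℕ := 2 * cM r + 2

section

variable {K : Type} [Field K]

theorem neg_le_natAbs [LinearOrder K] [IsStrictOrderedRing K] (z : ℤ) :
    -(z : K) ≤ (z.natAbs : K) := by
  have h : ((z.natAbs : ℕ) : K) = ((z.natAbs : ℤ) : K) := (Int.cast_natCast _).symm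
  rw [h, Int.natCast_natAbs]
  exact_mod_cast neg_le_abs z

theorem le_natAbs [LinearOrder K] [IsStrictOrderedRing K] (z : ℤ) :
    (z : K) ≤ (z.natAbs : K) := by
  have h : ((z.natAbs : ℕ) : K) = ((z.natAbs : ℤ) : K) := (Int.cast_natCast _).symm
  rw [h, Int.natCast_natAbs]
  exact_mod_cast le_abs_self z

theorem bb_bound {r : ℕ} {a : Fin r → Fin r × Fin r → ℤ} {c : ℕ} (hc : 1 ≤ c) {k : Fin r}
    {y : Fin r × Fin r → K} {Q : Set K} (hQ : IsOrd Q) (h : bb a c k K y ∈ Q)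
    (t : Fin r × Fin r) :
    ((a k t + c : ℤ) : K) - y t ∈ Q ∧ y t - ((a k t - c : ℤ) : K) ∈ Q := by
  obtain ⟨_, _, hq⟩ := hQ.exists_lo
  simp only [hq] at h ⊢
  rw [bb] at h
  have h1 : (y t - (a k t : K)) ^ 2 ≤ ∑ t, (y t - (a k t : K)) ^ 2 :=
    Finset.single_le_sum (f := fun t => (y t - (a k t : K)) ^ 2) (fun i _ => sq_nonneg _)
      (Finset.mem_univ t)
  have h2 : (1 : K) ≤ c := by exact_mod_cast hc
  have h3 : |y t - (a k t : K)| ≤ c := by
    by_contra hcon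
    push Not at hcon
    have h4 : (c : K) ^ 2 < |y t - (a k t : K)| ^ 2 := by
      have : (0 : K) ≤ c := by linarith
      nlinarith
    rw [sq_abs] at h4
    nlinarith
  rw [abs_le] at h3
  push_cast
  constructor <;> linarith [h3.1, h3.2]

theorem bb_mem {r : ℕ} {a : Fin r → Fin r × Fin r → ℤ} {c m : ℕ} (hc : r ^ 2 * m ^ 2 ≤ c)
    {k : Fin r} {y : Fin r × Fin r → K} {Q : Set K} (hQ : IsOrd Q)
    (h : ∀ t, ((a k t + m : ℤ) : K) - y t ∈ Q ∧ y t - ((a k t - m : ℤ) : K) ∈ Q) :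
    bb a c k K y ∈ Q := by
  obtain ⟨_, _, hq⟩ := hQ.exists_lo
  simp only [hq] at h ⊢
  rw [bb]
  have h1 : ∑ t, (y t - (a k t : K)) ^ 2 ≤ ∑ _t : Fin r × Fin r, (m : K) ^ 2 := by
    refine Finset.sum_le_sum fun t _ => ?_
    obtain ⟨h1, h2⟩ := h t
    push_cast at h1 h2
    rw [sq_le_sq, abs_le, abs_of_nonneg (Nat.cast_nonneg m)]
    constructor <;> linarith
  have h2 : ∑ _t : Fin r × Fin r, (m : K) ^ 2 = ((r ^ 2 * m ^ 2 : ℕ) : K) := by
    simp only [Finset.sum_const, Finset.card_univ, Fintype.card_prod, Fintype.card_fin,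
      nsmul_eq_mul]
    push_cast
    ring
  have h3 : ((r ^ 2 * m ^ 2 : ℕ) : K) ≤ (c : K) := by exact_mod_cast hc
  linarith

theorem exists_floor {P : Set K} (hP : IsOrd P) {y : K} {n : ℕ} (h0 : y ∈ P)
    (h1 : (n : K) - y ∈ P) : ∃ a : ℤ, y - (a : K) ∈ P ∧ ((a + 1 : ℤ) : K) - y ∈ P ∧
      (∀ z : ℤ, y - (z : K) ∈ P → z ≤ a) ∧ ∀ z : ℤ, (z : K) - y ∈ P → a ≤ z := by
  obtain ⟨_, _, hp⟩ := hP.exists_lo
  simp only [hp] at h0 h1 ⊢
  obtain ⟨m, hm1, hm2⟩ := Int.exists_greatest_of_bdd (P := fun z : ℤ => (z : K) ≤ y)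
    ⟨n, fun z hz => by
      have : (z : K) ≤ ((n : ℤ) : K) := by
        push_cast
        linarith
      exact_mod_cast this⟩ ⟨0, by push_cast; exact h0⟩
  refine ⟨m, by linarith, ?_, fun z hz => hm2 z (by linarith), fun z hz => ?_⟩
  · have h4 : y < ((m + 1 : ℤ) : K) := by
      by_contra hcon
      push Not at hcon
      have := hm2 (m + 1) hcon
      omega
    linarith
  · have : (m : K) ≤ (z : K) := by linarith
    exact_mod_cast this

theorem y_low {P : Set K} (hP : IsOrd P) {x : K} (h : 1 - 4 * x ^ 2 ∈ P) (D : ℕ) :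
    ((D : ℤ) : K) - (5 * D : ℕ) * (x ^ 2 / (1 + x ^ 2)) ∈ P := by
  obtain ⟨_, _, hp⟩ := hP.exists_lo
  simp only [hp] at h ⊢
  have h1 : 0 < 1 + x ^ 2 := by positivity
  have h2 : x ^ 2 / (1 + x ^ 2) ≤ 1 / 5 := by
    rw [div_le_div_iff₀ h1 (by norm_num)]
    linarith
  have h3 : (0 : K) ≤ D := Nat.cast_nonneg D
  push_cast
  nlinarith

theorem y_high {P : Set K} (hP : IsOrd P) {x : K} (h : x ^ 2 - 4 ∈ P) (D : ℕ) :
    (5 * D : ℕ) * (x ^ 2 / (1 + x ^ 2)) - ((4 * D : ℤ) : K) ∈ P := by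
  obtain ⟨_, _, hp⟩ := hP.exists_lo
  simp only [hp] at h ⊢
  have h1 : 0 < 1 + x ^ 2 := by positivity
  have h2 : 4 / 5 ≤ x ^ 2 / (1 + x ^ 2) := by
    rw [div_le_div_iff₀ (by norm_num) h1]
    linarith
  have h3 : (0 : K) ≤ D := Nat.cast_nonneg D
  push_cast
  nlinarith

theorem y_nonneg {P : Set K} (hP : IsOrd P) (x : K) (D : ℕ) :
    (5 * D : ℕ) * (x ^ 2 / (1 + x ^ 2)) ∈ P ∧
      ((5 * D : ℕ) : K) - (5 * D : ℕ) * (x ^ 2 / (1 + x ^ 2)) ∈ P := by
  obtain ⟨_, _, hp⟩ := hP.exists_lo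
  simp only [hp]
  have h1 : 0 < 1 + x ^ 2 := by positivity
  have h2 : x ^ 2 / (1 + x ^ 2) ≤ 1 := by
    rw [div_le_one h1]
    linarith
  have h2' : 0 ≤ x ^ 2 / (1 + x ^ 2) := by positivity
  have h3 : (0 : K) ≤ (5 * D : ℕ) := Nat.cast_nonneg _
  constructor <;> nlinarith

theorem star_exists {r : ℕ} {P : Fin r → Set K} (hP : ∀ i, IsOrd (P i))
    (hpw : Pairwise fun i j => Sep (P i) (P j)) :
    ∃ a : Fin r → Fin r × Fin r → ℤ, (∀ k l, k ≠ l → a k (k, l) + cD r ≤ a l (k, l)) ∧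
      ∃ y : Fin r × Fin r → K, ∀ k m, ¬ SS m (-bb a (cR r) k K y) := by
  classical
  have hx : ∀ t : Fin r × Fin r, ∃ x : K, t.1 ≠ t.2 →
      (1 - 4 * x ^ 2 ∈ P t.1 ∧ x ^ 2 - 4 ∈ P t.2) := by
    intro t
    by_cases h : t.1 = t.2
    · exact ⟨0, fun h' => absurd h h'⟩
    · obtain ⟨x, hx⟩ := hpw h
      exact ⟨x, fun _ => hx⟩
  choose x hx using hx
  choose a ha1 ha2 ha3 ha4 using fun (k : Fin r) (t : Fin r × Fin r) =>
    exists_floor (hP k) (y_nonneg (hP k) (x t) (cD r)).1 (y_nonneg (hP k) (x t) (cD r)).2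
  refine ⟨a, fun k l hkl => ?_, fun t => (5 * cD r : ℕ) * (x t ^ 2 / (1 + x t ^ 2)), ?_⟩
  · obtain ⟨h1, h2⟩ := hx (k, l) hkl
    have h3 := ha4 k (k, l) _ (y_low (hP k) h1 (cD r))
    have h4 := ha3 l (k, l) _ (y_high (hP l) h2 (cD r))
    have h5 : (0 : ℤ) ≤ cD r := Int.natCast_nonneg _
    linarith
  · intro k m hss
    have h1 := (hP k).SS hss
    have h2 := bb_mem (a := a) (c := r ^ 2) (m := 1) (by simp) (hP k) (k := k)
      (y := fun t => (5 * cD r : ℕ) * (x t ^ 2 / (1 + x t ^ 2))) (fun t => by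
        refine ⟨by exact_mod_cast ha2 k t, ?_⟩
        have h3 := ha1 k t
        have h4 := (hP k).add _ h3 _ (hP k).pre.one
        have e : (5 * cD r : ℕ) * (x t ^ 2 / (1 + x t ^ 2)) - ((a k t : ℤ) : K) + 1 =
          (5 * cD r : ℕ) * (x t ^ 2 / (1 + x t ^ 2)) - ((a k t - (1 : ℕ) : ℤ) : K) := by
          push_cast
          ring
        rw [e] at h4
        exact h4)
    have h3 := (hP k).add _ h1 _ h2
    apply (hP k).neg_one
    have e : -bb a (cR r) k K (fun t => (5 * cD r : ℕ) * (x t ^ 2 / (1 + x t ^ 2))) +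
        bb a (r ^ 2) k K (fun t => (5 * cD r : ℕ) * (x t ^ 2 / (1 + x t ^ 2))) = -1 := by
      simp only [bb, cR]
      push_cast
      ring
    rwa [e] at h3

/-- The conditions on the parameters. -/
def Good {r : ℕ} (a : Fin r → Fin r × Fin r → ℤ) (K : Type) [Field K] (y : Fin r × Fin r → K) :
    Prop := (∀ m, ¬ SS m (-1 : K)) ∧ ∀ k m, ¬ SS m (-bb a (cR r) k K y)

theorem star {r : ℕ} (hmax : ∀ P : Fin (r + 1) → Set K, (∀ i, IsOrd (P i)) →
      ¬ Pairwise fun i j => Sep (P i) (P j))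
    {a : Fin r → Fin r × Fin r → ℤ} (ha : ∀ k l, k ≠ l → a k (k, l) + cD r ≤ a l (k, l))
    {y : Fin r × Fin r → K} (hg : Good a K y) :
    ∃ Q : Fin r → Set K, (∀ k, IsOrd (Q k)) ∧ (∀ k, bb a (cM r) k K y ∈ Q k) ∧
      ∀ P, IsOrd P → ∃ k, ¬ Sep (Q k) P ∧ bb a (cM r) k K y ∈ P ∧
        ∀ l, l ≠ k → bb a (cM r) l K y ∉ P := by
  have hT : ¬ TT (0 : K) (-1) := by
    rw [TT_zero_iff]
    rintro ⟨m, hm⟩
    exact hg.1 m hm
  have hQ : ∀ k, ∃ Q, IsOrd Q ∧ bb a (cR r) k K y ∈ Q := by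
    intro k
    obtain ⟨Q, hQ, -, h1⟩ := exists_ord_TT hT (x := -bb a (cR r) k K y) (by
      rw [TT_zero_iff]
      rintro ⟨m, hm⟩
      exact hg.2 k m hm)
    refine ⟨Q, hQ, ?_⟩
    rcases hQ.total (bb a (cR r) k K y) with h | h
    · exact h
    · exact absurd h h1
  choose Q hQ1 hQ2 using hQ
  have hR : 1 ≤ cR r := Nat.le_add_left 1 _
  have hM : 1 ≤ cM r := Nat.le_add_left 1 _
  have hRM : cR r + 1 ≤ cM r := by
    rw [cM]
    omega
  have hsep : Pairwise fun i j => Sep (Q i) (Q j) := by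
    intro k l hkl
    have h1 := bb_bound hR (hQ1 k) (hQ2 k) (k, l)
    have h2 := bb_bound hR (hQ1 l) (hQ2 l) (k, l)
    have h3 := ha k l hkl
    have h4 : (cD r : ℤ) = 2 * cM r + 2 := by
      rw [cD]
      push_cast
      ring
    have h5 : (cR r : ℤ) + 1 ≤ cM r := by exact_mod_cast hRM
    refine cut (hQ1 k) (hQ1 l) (y (k, l)) (a k (k, l) - cR r : ℤ).natAbs ?_
      (c := a k (k, l) + cR r) (d := a l (k, l) - cR r) (by linarith) h1.1 h2.2
    have h6 := h1.2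
    obtain ⟨_, _, hq⟩ := (hQ1 k).exists_lo
    rw [hq] at h6 ⊢
    have h8 := neg_le_natAbs (K := K) (a k (k, l) - cR r)
    linarith
  have hmem : ∀ P, IsOrd P → ∀ k, ¬ Sep (Q k) P →
      ∀ t, ((a k t + (cR r + 1 : ℕ) : ℤ) : K) - y t ∈ P ∧
        y t - ((a k t - (cR r + 1 : ℕ) : ℤ) : K) ∈ P := by
    intro P hP k hk t
    have h1 := bb_bound hR (hQ1 k) (hQ2 k) t
    constructor
    · rcases hP.total (((a k t + (cR r + 1 : ℕ) : ℤ) : K) - y t) with h | h
      · exact h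
      · exfalso
        apply hk
        rw [neg_sub] at h
        refine cut (hQ1 k) hP (y t) (a k t - cR r : ℤ).natAbs ?_
          (c := a k t + cR r) (d := a k t + (cR r + 1 : ℕ)) (by push_cast; linarith) h1.1 h
        have h6 := h1.2
        obtain ⟨_, _, hq⟩ := (hQ1 k).exists_lo
        rw [hq] at h6 ⊢
        have h8 := neg_le_natAbs (K := K) (a k t - cR r)
        linarith
    · rcases hP.total (y t - ((a k t - (cR r + 1 : ℕ) : ℤ) : K)) with h | h
      · exact h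
      · exfalso
        apply hk
        refine cut (hQ1 k) hP (-y t) (a k t + cR r : ℤ).natAbs ?_
          (c := -(a k t - cR r)) (d := -(a k t - (cR r + 1 : ℕ))) (by push_cast; linarith) ?_ ?_
        · have h6 := h1.1
          obtain ⟨_, _, hq⟩ := (hQ1 k).exists_lo
          rw [hq] at h6 ⊢
          have h8 := le_natAbs (K := K) (a k t + cR r)
          linarith
        · have h6 := h1.2
          have e : ((-(a k t - cR r) : ℤ) : K) - -y t = y t - ((a k t - cR r : ℤ) : K) := by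
            push_cast
            ring
          rwa [e]
        · have e : -(y t - ((a k t - (cR r + 1 : ℕ) : ℤ) : K)) =
            -y t - ((-(a k t - (cR r + 1 : ℕ)) : ℤ) : K) := by
            push_cast
            ring
          rwa [e] at h
  have hmem2 : ∀ P, IsOrd P → ∀ k, ¬ Sep (Q k) P → bb a (cM r) k K y ∈ P := by
    intro P hP k hk
    refine bb_mem (m := cR r + 1) ?_ hP (hmem P hP k hk)
    rw [cM]
    omega
  refine ⟨Q, hQ1, fun k => hmem2 _ (hQ1 k) k (not_sep_self (hQ1 k)), fun P hP => ?_⟩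
  have hex : ∃ k, ¬ Sep (Q k) P := by
    by_contra hcon
    push Not at hcon
    refine hmax (Fin.cons P Q) (fun i => ?_) ?_
    · refine Fin.cases ?_ (fun j => ?_) i
      · simpa using hP
      · simpa using hQ1 j
    · intro i j
      refine Fin.cases ?_ (fun i' => ?_) i
      · refine Fin.cases ?_ (fun j' => ?_) j
        · intro h
          exact absurd rfl h
        · intro _
          simpa using (hcon j').symm (hQ1 j') hP
      · refine Fin.cases ?_ (fun j' => ?_) j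
        · intro _
          simpa using hcon i'
        · intro h
          simpa using hsep (fun h' => h (by rw [h']))
  obtain ⟨k, hk⟩ := hex
  refine ⟨k, hk, hmem2 P hP k hk, fun l hlk hl => ?_⟩
  have h1 := hmem P hP k hk (k, l)
  have h2 := bb_bound hM hP hl (k, l)
  have h3 := ha k l (Ne.symm hlk)
  obtain ⟨_, _, hq⟩ := hP.exists_lo
  simp only [hq] at h1 h2
  have h4 : (cD r : ℤ) = 2 * cM r + 2 := by
    rw [cD]
    push_cast
    ring
  have h5 : ((a l (k, l) - cM r : ℤ) : K) ≤ ((a k (k, l) + (cR r + 1 : ℕ) : ℤ) : K) := by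
    linarith [h1.1, h2.2]
  have h6 : a l (k, l) - cM r ≤ a k (k, l) + (cR r + 1 : ℕ) := by exact_mod_cast h5
  have h7 : ((cR r + 1 : ℕ) : ℤ) ≤ cM r := by exact_mod_cast hRM
  linarith

end

end Pool.Agent.Q175.NF
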