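import Pool.Agent.Q175.NF.Bad

/-!
# V-topologies with a norm group which is not dense are definable
-/

set_option autoImplicit false

open Polynomial FirstOrder FirstOrder.Ring

namespace Pool.Agent.Q175.NF

open Pool.Agent.W882.Nip3

section

variable {K : Type} [Field K]

theorem mpoly_lowCoeff {d : ℕ} {f : K[X]} (hf : f.Monic) (hd : f.natDegree = d) :
    mpoly d (lowCoeff d f) = f := by
  ext n
  rw [coeff_mpoly]
  by_cases h : n < d
  · rw [dif_pos h]
    rfl
  · rw [dif_neg h]
    by_cases h' : n = d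
    · rw [if_pos h', h', ← hd, hf.coeff_natDegree]
    · rw [if_neg h', coeff_eq_zero_of_natDegree_lt (by omega)]

/-- The norm form of a primitive element. -/
theorem exists_nfm (L : Type) [Field L] [Algebra K L] [FiniteDimensional K L]
    [Algebra.IsSeparable K L] : ∃ (d : ℕ) (a : Fin d → K), 0 < d ∧ (mpoly d a).Separable ∧
      ∀ x : Fin d → K, ∃ z : L, Algebra.norm K z = nfm d a x := by
  obtain ⟨α, hα⟩ := Field.exists_primitive_element K L
  have hint : IsIntegral K α := Algebra.IsIntegral.isIntegral α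
  have hmon := minpoly.monic hint
  refine ⟨(minpoly K α).natDegree, lowCoeff _ (minpoly K α), minpoly.natDegree_pos hint, ?_, ?_⟩
  · rw [mpoly_lowCoeff hmon rfl]
    exact Algebra.IsSeparable.isSeparable K α
  · intro x
    let e : AdjoinRoot (mpoly (minpoly K α).natDegree (lowCoeff _ (minpoly K α))) ≃ₐ[K] L :=
      (AdjoinRoot.algEquivOfEq K _ _ (mpoly_lowCoeff hmon rfl)).trans
        ((IntermediateField.adjoinRootEquivAdjoin K hint).trans
          ((IntermediateField.equivOfEq hα).trans IntermediateField.topEquiv))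
    refine ⟨e (∑ i, x i • algBasis _ _ i), ?_⟩
    rw [Algebra.norm_eq_of_algEquiv, norm_eq_nfm]

theorem exists_small_elt {V : ValuationSubring K} (hV : V ≠ ⊤) {ι : Type} [Fintype ι]
    (b : ι → K) : ∃ p : K, p ≠ 0 ∧ V.valuation p < 1 ∧ ∀ i, p * b i ∈ V := by
  classical
  obtain ⟨u, hu⟩ : ∃ u, u ∉ V := by
    by_contra hcon
    push Not at hcon
    exact hV (by
      ext x
      exact ⟨fun _ => ValuationSubring.mem_top x, fun _ => hcon x⟩)
  have hu0 : u ≠ 0 := fun h => hu (h ▸ V.zero_mem)
  let s : K → K := fun b => if b ∈ V then 1 else b⁻¹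
  have hs1 : ∀ b, s b ∈ V := by
    intro b
    simp only [s]
    split_ifs with h
    · exact V.one_mem
    · exact (V.mem_or_inv_mem b).resolve_left h
  have hs2 : ∀ b, s b * b ∈ V := by
    intro b
    simp only [s]
    split_ifs with h
    · rwa [one_mul]
    · by_cases hb : b = 0
      · rw [hb]
        simp
      · rw [inv_mul_cancel₀ hb]
        exact V.one_mem
  have hs3 : ∀ b, s b ≠ 0 := by
    intro b
    simp only [s]
    split_ifs with h
    · exact one_ne_zero
    · exact inv_ne_zero fun hb => h (hb ▸ V.zero_mem)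
  have hprod : ∏ i, s (b i) ∈ V := V.toSubring.prod_mem fun i _ => hs1 (b i)
  have hval : V.valuation u⁻¹ < 1 := by
    have h1 : 1 < V.valuation u := by
      by_contra hcon
      push Not at hcon
      exact hu ((ValuationSubring.valuation_le_one_iff _ _).mp hcon)
    rw [map_inv₀]
    exact inv_lt_one_of_one_lt₀ h1
  refine ⟨u⁻¹ * ∏ i, s (b i), mul_ne_zero (inv_ne_zero hu0)
    (Finset.prod_ne_zero_iff.mpr fun i _ => hs3 (b i)), ?_, fun i => ?_⟩
  · rw [map_mul]
    exact mul_lt_one_of_nonneg_of_lt_one_left zero_le hval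
      ((ValuationSubring.valuation_le_one_iff _ _).mpr hprod)
  · rw [← Finset.mul_prod_erase _ _ (Finset.mem_univ i)]
    have e : u⁻¹ * (s (b i) * ∏ j ∈ Finset.univ.erase i, s (b j)) * b i =
        u⁻¹ * ((s (b i) * b i) * ∏ j ∈ Finset.univ.erase i, s (b j)) := by ring
    rw [e]
    refine V.mul_mem _ _ ((ValuationSubring.valuation_le_one_iff _ _).mp hval.le)
      (V.mul_mem _ _ (hs2 _) (V.toSubring.prod_mem fun j _ => hs1 (b j)))

end

/-- V-topologies with a norm group which is not dense are definable. -/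
theorem vtop {K : Type} [Field K] [CompatibleRing K] (hK : Tame K) {V : ValuationSubring K}
    (hV : V ≠ ⊤) (L : Type) [Field L] [Algebra K L] [FiniteDimensional K L]
    [Algebra.IsSeparable K L] {c e : K} (he : e ≠ 0)
    (h : ∀ x : L, V.valuation e ≤ V.valuation (Algebra.norm K x - c)) :
    ∃ S : Set K, IsDefinable S ∧ (∀ x ∈ S, x ∈ V) ∧
      ∃ b, b ≠ 0 ∧ ∀ x, V.valuation x ≤ V.valuation b → x ∈ S := by
  obtain ⟨d, a, hd, hsep, hnorm⟩ := exists_nfm (K := K) L
  have hN : ∀ x : Fin d → K, V.valuation e ≤ V.valuation (nfm d a x - c) := by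
    intro x
    obtain ⟨z, hz⟩ := hnorm x
    rw [← hz]
    exact h z
  obtain ⟨p, hp0, hp1, hp2⟩ := exists_small_elt hV
    (Sum.elim a ![c, (nfm d a (der d a))⁻¹, e⁻¹])
  have hpe : V.valuation p ≤ V.valuation e := by
    have h1 := (ValuationSubring.valuation_le_one_iff _ _).mpr (hp2 (Sum.inr 2))
    simp only [Sum.elim_inr, Matrix.cons_val] at h1
    rw [map_mul, map_inv₀, ← div_eq_mul_inv, div_le_one₀ (zero_lt_iff.mpr
      ((Valuation.ne_zero_iff _).mpr he))] at h1
    exact h1
  let v : Par d → K := Sum.elim a ![c, (nfm d a (der d a))⁻¹, p, p⁻¹, p]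
  have hB : BR d K v := by
    refine ⟨mul_inv_cancel₀ hp0, inv_mul_cancel₀ (nfm_of_separable hsep), ?_⟩
    rintro ⟨x, hx⟩
    have h1 := hN x
    have h2 : nfm d a x = c := hx
    rw [h2, sub_self, map_zero, le_zero_iff, Valuation.zero_iff] at h1
    exact he h1
  have hVV : V ∈ VV (E1 d) (fun _ _ v => v (Sum.inr 2)) K v := by
    refine ⟨?_, hp1⟩
    rintro z (⟨k, rfl⟩ | rfl | rfl | ⟨x, hx⟩)
    · exact hp2 (Sum.inl k)
    · exact hp2 (Sum.inr 0)
    · exact hp2 (Sum.inr 1)
    · have hx' : z * (nfm d a x - c) = p := hx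
      have h1 : V.valuation z * V.valuation (nfm d a x - c) = V.valuation p := by
        rw [← map_mul, hx']
      have h2 : V.valuation (nfm d a x - c) ≠ 0 := by
        intro h3
        have h4 := hN x
        rw [h3, le_zero_iff, Valuation.zero_iff] at h4
        exact he h4
      rw [← ValuationSubring.valuation_le_one_iff]
      by_contra hcon
      push Not at hcon
      have h3 : V.valuation (nfm d a x - c) < V.valuation z * V.valuation (nfm d a x - c) :=
        lt_mul_of_one_lt_left (zero_lt_iff.mpr h2) hcon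
      rw [h1] at h3
      exact absurd (hpe.trans (hN x)) (not_le.mpr h3)
  obtain ⟨S, hS1, hS2, hS3⟩ := definable_of_bound (E := E1 d)
    (p := fun _ _ v => v (Sum.inr 2)) (t := fun _ _ v x => v (Sum.inr 3) * x) (UDS_E1 d)
    (UT.var _) ((UT.var _).mul (UT.var _)) hp0
    (exists_vmax_E hd hK hB (fun _ _ _ => subset_rfl)) (by
      intro K' _ v' hEE Q hQ O hO O' hO' hi hi' x hx0 hx hx'
      have hB' : BR d K' v' := (hEE (BR d) (UD_BR d)).mp hB
      have hp' : v' (Sum.inr 2) ≠ 0 := left_ne_zero_of_mul_eq_one hB'.1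
      refine not_inc_two hp' hQ.2 hO.2 hO'.2 hi hi' (x := x) ?_ ?_
      · rw [map_inv₀] at hx
        by_contra hcon
        push Not at hcon
        have hx1 : 0 < O.valuation x := zero_lt_iff.mpr ((Valuation.ne_zero_iff _).mpr hx0)
        exact absurd hx (not_lt.mpr ((one_le_inv₀ hx1).mpr hcon.le))
      · have e1 : x = v' (Sum.inr 2) * (v' (Sum.inr 3) * x) := by
          rw [← mul_assoc, hB'.1, one_mul]
        rw [e1, map_mul]
        exact mul_le_of_le_one_right' hx'.le) V hVV
  refine ⟨S, hS1, hS2, p ^ 2, pow_ne_zero _ hp0, fun x hx => ?_⟩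
  by_contra hxS
  apply hS3 x hxS
  show V.valuation (p⁻¹ * x) < 1
  have h1 : V.valuation p ≠ 0 := (Valuation.ne_zero_iff _).mpr hp0
  rw [map_mul, map_inv₀]
  calc (V.valuation p)⁻¹ * V.valuation x ≤ (V.valuation p)⁻¹ * V.valuation (p ^ 2) := by gcongr
    _ = V.valuation p := by
      rw [map_pow, pow_two, ← mul_assoc, inv_mul_cancel₀ h1, one_mul]
    _ < 1 := hp1

end Pool.Agent.Q175.NF
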